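import Pool.Agent.H62.TP.Defs

/-!
TP-3 (MP_cb0c3a_an, project TP): a finite power of an algebra without proper central
subuniverses has none.
-/

set_option autoImplicit false

open Set

namespace Pool.Agent.H62.TP

variable {ι : Type} [DecidableEq ι] {A D P Q V : Type}

/-- the one coordinate step: an element of the centre stays in the centre when one coordinate
is changed -/
private theorem PowC_step {W : Wnu ι D} (h : W.CFree univ) (V : Type) [DecidableEq V]
    {k : ℕ} {C : Set (V → D)} (hC : (W.pi V).Central k univ C) (c : V → D) (hc : c ∈ C)
    (v : V) (b : D) : Function.update c v b ∈ C := by
  obtain ⟨-, -, E, hE, W', R, hcard, hfree, hrel, htot, hcen⟩ := hC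
  have key : ∀ x : ι → D, (W.pi V).op (fun i => Function.update c v (x i)) =
      Function.update c v (W.op x) := by
    intro x
    funext w
    show W.op (fun i => Function.update c v (x i) w) = Function.update c v (W.op x) w
    by_cases hw : w = v
    · subst hw
      simp
    · simp only [Function.update_of_ne hw]
      exact W.idem (c w)
  have hcent : W.Central k univ {b | Function.update c v b ∈ C} := by
    refine ⟨subset_univ _, ⟨c v, ?_⟩, E, hE, W', fun b e => R (Function.update c v b) e,
      hcard, hfree, ?_, ?_, ?_⟩
    · show Function.update c v (c v) ∈ C
      rw [Function.update_eq_self]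
      exact hc
    · intro x y _ hxy
      show R (Function.update c v (W.op x)) (W'.op y)
      rw [← key x]
      exact hrel _ y (fun _ => mem_univ _) hxy
    · intro b _
      exact htot _ (mem_univ _)
    · intro b _
      exact hcen _ (mem_univ _)
  exact h k _ hcent (mem_univ b)

/-- a finite power of an algebra without proper central subuniverses has none -/
theorem CFree.pi {W : Wnu ι D} (h : W.CFree univ) (V : Type) [Finite V] :
    (W.pi V).CFree univ := by
  classical
  intro k C hC z _
  obtain ⟨c, hc⟩ := hC.2.1
  have : Fintype V := Fintype.ofFinite V
  have key : ∀ s : Finset V, (fun v => if v ∈ s then z v else c v) ∈ C := by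
    intro s
    induction s using Finset.induction_on with
    | empty => simpa using hc
    | insert a s ha ih =>
      have h1 := PowC_step h V hC _ ih a (z a)
      have h2 : Function.update (fun v => if v ∈ s then z v else c v) a (z a) =
          fun v => if v ∈ insert a s then z v else c v := by
        funext w
        by_cases hw : w = a
        · subst hw
          simp
        · simp [Finset.mem_insert, hw]
      rw [h2] at h1
      exact h1
  have h3 := key Finset.univ
  simpa using h3

end Pool.Agent.H62.TP
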