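import Pool.Agent.H62.TP.Term
import Pool.Agent.H62.TP.PowC

/-!
Project TP (MP_cb0c3a_an), row TP-13: common neighbours.
-/

set_option autoImplicit false

open Set

namespace Pool.Agent.H62.TP

open Pool.Agent.H62.MC (G Act val Det)

variable {ι : Type} [DecidableEq ι] {A D P Q V : Type}

/-- finitely many elements have a common neighbour -/
private theorem common_fin [Finite Q] {WP : Wnu ι P} {WQ : Wnu ι Q} (hb : WQ.BAFree univ)
    (hc : WQ.CFree univ) {Z : Set P} (hZ : WP.Sub Z) (hne : Z.Nonempty) {R : P → Q → Prop}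
    (hR : RelOn WP WQ Z R) (hpair : ∀ q q', ∃ z ∈ Z, R z q ∧ R z q') (k : ℕ) :
    ∀ φ : Fin k → Q, ∃ z ∈ Z, ∀ i, R z (φ i) := by
  induction k with
  | zero =>
    intro φ
    obtain ⟨z, hz⟩ := hne
    exact ⟨z, hz, fun i => i.elim0⟩
  | succ k ih =>
    intro φ
    rcases Nat.eq_zero_or_pos k with rfl | hk
    · obtain ⟨z, hz, h1, -⟩ := hpair (φ 0) (φ 0)
      refine ⟨z, hz, fun i => ?_⟩
      have hi : i = 0 := Fin.ext (by omega)
      rw [hi]
      exact h1
    -- the relation between the power and `Q`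
    let U : (Fin k → Q) → Q → Prop := fun ψ q => ∃ z ∈ Z, (∀ i, R z (ψ i)) ∧ R z q
    have hU : (WQ.pi (Fin k)).Central (Nat.card Q) univ {ψ | ∀ q, U ψ q} := by
      refine ⟨subset_univ _, ⟨fun _ => φ 0, fun q => ?_⟩, Q, inferInstance, WQ, U, le_rfl, hb,
        ?_, ?_, fun b _ => Iff.rfl⟩
      · obtain ⟨z, hz, h1, h2⟩ := hpair (φ 0) q
        exact ⟨z, hz, fun _ => h1, h2⟩
      · intro x y _ hxy
        choose z hz h1 h2 using hxy
        exact ⟨WP.op z, hZ z hz, fun i => hR z (fun j => x j i) hz fun j => h1 j i,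
          hR z y hz h2⟩
      · intro ψ _
        obtain ⟨z, hz, h1⟩ := ih ψ
        exact ⟨ψ ⟨0, hk⟩, z, hz, h1, h1 _⟩
    have h3 := CFree.pi hc (Fin k) _ _ hU (mem_univ fun i => φ i.succ) (φ 0)
    obtain ⟨z, hz, h1, h2⟩ := h3
    exact ⟨z, hz, fun i => Fin.cases h2 h1 i⟩

theorem common [Finite Q] {WP : Wnu ι P} {WQ : Wnu ι Q} (hb : WQ.BAFree univ)
    (hc : WQ.CFree univ) {Z : Set P} (hZ : WP.Sub Z) (hne : Z.Nonempty) {R : P → Q → Prop}
    (hR : RelOn WP WQ Z R) (hpair : ∀ q q', ∃ z ∈ Z, R z q ∧ R z q') :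
    ∃ z ∈ Z, ∀ q, R z q := by
  obtain ⟨n, ⟨e⟩⟩ := Finite.exists_equiv_fin Q
  obtain ⟨z, hz, h⟩ := common_fin hb hc hZ hne hR hpair n e.symm
  refine ⟨z, hz, fun q => ?_⟩
  have := h (e q)
  rwa [e.symm_apply_apply] at this

/-- a reflexive symmetric compatible relation which is not the equality is full -/
private theorem tol_full [Finite Q] {WQ : Wnu ι Q} (hb : WQ.BAFree univ)
    (hc : WQ.CFree univ) (hs : WQ.Simple) (n : ℕ) :
    ∀ T : Q → Q → Prop, {p : Q × Q | ¬ T p.1 p.2}.ncard ≤ n → (∀ q, T q q) →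
      (∀ q q', T q q' → T q' q) → RelOn WQ WQ univ T → (∃ q q', q ≠ q' ∧ T q q') →
      ∀ q q', T q q' := by
  induction n with
  | zero =>
    intro T hn _ _ _ _ q q'
    by_contra h
    have h1 := (Set.ncard_eq_zero (Set.toFinite _)).1 (Nat.le_zero.1 hn)
    have h2 : (q, q') ∈ {p : Q × Q | ¬ T p.1 p.2} := h
    rw [h1] at h2
    exact h2
  | succ n ih =>
    intro T hn hrefl hsymm hT hne
    -- the square
    let T2 : Q → Q → Prop := fun q q' => ∃ r, T q r ∧ T r q'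
    have hsub : ∀ q q', T q q' → T2 q q' := fun q q' h => ⟨q, hrefl q, h⟩
    by_cases hT2 : ∀ q q', T2 q q' → T q q'
    · -- a congruence
      have hcong : Cong WQ univ T :=
        { left := fun _ _ _ => mem_univ _
          right := fun _ _ _ => mem_univ _
          refl := fun a _ => hrefl a
          symm := hsymm
          trans := fun a b c h1 h2 => hT2 a c ⟨b, h1, h2⟩
          comp := fun x y h => hT x y (fun _ => mem_univ _) h }
      rcases hs.2 T hcong with h | h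
      · obtain ⟨q, q', h1, h2⟩ := hne
        exact absurd (h q q' h2) h1
      · exact h
    · push Not at hT2
      obtain ⟨a, b, hab, hab'⟩ := hT2
      have hfull : ∀ q q', T2 q q' := by
        refine ih T2 ?_ (fun q => hsub q q (hrefl q)) ?_ ?_ ?_
        · have h1 : {p : Q × Q | ¬ T2 p.1 p.2} ⊂ {p : Q × Q | ¬ T p.1 p.2} := by
            have h0 : {p : Q × Q | ¬ T2 p.1 p.2} ⊆ {p : Q × Q | ¬ T p.1 p.2} :=
              fun p hp h => hp (hsub _ _ h)
            exact (Set.ssubset_iff_of_subset h0).2 ⟨(a, b), hab', fun h => h hab⟩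
          have h2 := Set.ncard_lt_ncard h1 (Set.toFinite _)
          omega
        · rintro q q' ⟨r, h1, h2⟩
          exact ⟨r, hsymm _ _ h2, hsymm _ _ h1⟩
        · intro x y _ hxy
          choose r h1 h2 using hxy
          exact ⟨WQ.op r, hT x r (fun _ => mem_univ _) h1, hT r y (fun _ => mem_univ _) h2⟩
        · obtain ⟨q, q', h1, h2⟩ := hne
          exact ⟨q, q', h1, hsub _ _ h2⟩
      -- a vertex joined to all
      obtain ⟨c, -, hcen⟩ := common (WP := WQ) hb hc (Z := univ) (fun _ _ => mem_univ _)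
        ⟨a, mem_univ _⟩ hT (fun q q' => by
          obtain ⟨r, h1, h2⟩ := hfull q q'
          exact ⟨r, mem_univ _, hsymm _ _ h1, h2⟩)
      have hC : WQ.Central (Nat.card Q) univ {z | ∀ q, T z q} :=
        ⟨subset_univ _, ⟨c, hcen⟩, Q, inferInstance, WQ, T, le_rfl, hb, hT,
          fun b _ => ⟨b, hrefl b⟩, fun b _ => Iff.rfl⟩
      intro q q'
      exact hc _ _ hC (mem_univ q) q'

theorem linked [Finite Q] {WP : Wnu ι P} {WQ : Wnu ι Q} (hb : WQ.BAFree univ)
    (hc : WQ.CFree univ) (hs : WQ.Simple) {Z : Set P} (hZ : WP.Sub Z) {R : P → Q → Prop}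
    (hR : RelOn WP WQ Z R) (hsurj : ∀ q, ∃ z ∈ Z, R z q)
    (hnf : ∃ z ∈ Z, ∃ q q', q ≠ q' ∧ R z q ∧ R z q') : ∃ z ∈ Z, ∀ q, R z q := by
  obtain ⟨z₀, hz₀, q₀, q₁, hne, h₀, h₁⟩ := hnf
  refine common hb hc hZ ⟨z₀, hz₀⟩ hR ?_
  refine tol_full hb hc hs _ (fun q q' => ∃ z ∈ Z, R z q ∧ R z q') le_rfl ?_ ?_ ?_
    ⟨q₀, q₁, hne, z₀, hz₀, h₀, h₁⟩
  · intro q
    obtain ⟨z, hz, h⟩ := hsurj q
    exact ⟨z, hz, h, h⟩
  · rintro q q' ⟨z, hz, h, h'⟩
    exact ⟨z, hz, h', h⟩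
  · intro x y _ hxy
    choose z hz h1 h2 using hxy
    exact ⟨WP.op z, hZ z hz, hR z x hz h1, hR z y hz h2⟩

end Pool.Agent.H62.TP
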