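import Pool.Agent.H62.MC.Pin2

/-!
Periodic points in subshifts which are closed under a weak near unanimity operation
(MP_cb0c3a_an, helper62). Common definitions.
-/

set_option autoImplicit false

open Set

namespace Pool.Agent.H62.TP

open Pool.Agent.H62.MC (G Act val Det)

/-- an idempotent weak near unanimity operation on `D` with the arguments indexed by `ι` -/
structure Wnu (ι : Type) [DecidableEq ι] (D : Type) where
  op : (ι → D) → D
  idem : ∀ x, op (fun _ => x) = x
  wnu : ∀ (i j : ι) (x y : D),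
    op (Function.update (fun _ => x) i y) = op (Function.update (fun _ => x) j y)

/-- binary terms -/
inductive Tm (ι : Type) : Type
  | fst : Tm ι
  | snd : Tm ι
  | app : (ι → Tm ι) → Tm ι

variable {ι : Type} [DecidableEq ι] {A D P Q V : Type}

/-- the value of a binary term -/
def Wnu.eval (W : Wnu ι D) : Tm ι → D → D → D
  | .fst, x, _ => x
  | .snd, _, y => y
  | .app f, x, y => W.op fun i => W.eval (f i) x y

/-- `C` is closed under the operation -/
def Wnu.Sub (W : Wnu ι D) (C : Set D) : Prop :=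
  ∀ x : ι → D, (∀ i, x i ∈ C) → W.op x ∈ C

/-- `C ⊆ B` is absorbed by `B` with the binary term `t` -/
def Wnu.BinAbs (W : Wnu ι A) (t : Tm ι) (B C : Set A) : Prop :=
  C ⊆ B ∧ C.Nonempty ∧ W.Sub C ∧ ∀ c ∈ C, ∀ b ∈ B, W.eval t c b ∈ C ∧ W.eval t b c ∈ C

/-- `B` has no proper binary absorbing subuniverse -/
def Wnu.BAFree (W : Wnu ι A) (B : Set A) : Prop :=
  ∀ (t : Tm ι) (C : Set A), W.BinAbs t B C → B ⊆ C

/-- `R` is compatible with the operations, on `B` -/
def RelOn (W : Wnu ι P) (W' : Wnu ι D) (B : Set P) (R : P → D → Prop) : Prop :=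
  ∀ (x : ι → P) (y : ι → D), (∀ i, x i ∈ B) → (∀ i, R (x i) (y i)) → R (W.op x) (W'.op y)

/-- `C ⊆ B` is the nonempty centre of a compatible relation between `B` and an algebra with at
most `k` elements without proper binary absorbing subuniverses -/
def Wnu.Central (W : Wnu ι P) (k : ℕ) (B C : Set P) : Prop :=
  C ⊆ B ∧ C.Nonempty ∧ ∃ (D : Type) (_ : Finite D) (W' : Wnu ι D) (R : P → D → Prop),
    Nat.card D ≤ k ∧ W'.BAFree univ ∧ RelOn W W' B R ∧ (∀ b ∈ B, ∃ d, R b d) ∧
    ∀ b ∈ B, (b ∈ C ↔ ∀ d, R b d)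

/-- `B` has no proper central subuniverse -/
def Wnu.CFree (W : Wnu ι P) (B : Set P) : Prop :=
  ∀ (k : ℕ) (C : Set P), W.Central k B C → B ⊆ C

/-- the power of an algebra -/
def Wnu.pi (W : Wnu ι A) (V : Type) : Wnu ι (V → A) where
  op x := fun v => W.op fun i => x i v
  idem x := funext fun v => W.idem (x v)
  wnu i j x y := by
    funext v
    have h : ∀ i : ι, (fun k => (Function.update (fun _ => x) i y : ι → V → A) k v) =
        Function.update (fun _ => x v) i (y v) := by
      intro i
      funext k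
      by_cases hk : k = i
      · subst hk
        simp
      · simp [Function.update_of_ne hk]
    show W.op (fun k => (Function.update (fun _ => x) i y : ι → V → A) k v) =
      W.op (fun k => (Function.update (fun _ => x) j y : ι → V → A) k v)
    rw [h, h]
    exact W.wnu i j (x v) (y v)

/-- the iterated operation, with the arguments indexed by words of length `k` -/
def Wnu.tk (W : Wnu ι D) : (k : ℕ) → ((Fin k → ι) → D) → D
  | 0, x => x fun i => i.elim0
  | k + 1, x => W.op fun i => W.tk k fun u => x (Fin.cons i u)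

/-- `E` is a congruence of the subuniverse `B` -/
structure Cong (W : Wnu ι A) (B : Set A) (E : A → A → Prop) : Prop where
  left : ∀ a b, E a b → a ∈ B
  right : ∀ a b, E a b → b ∈ B
  refl : ∀ a ∈ B, E a a
  symm : ∀ a b, E a b → E b a
  trans : ∀ a b c, E a b → E b c → E a c
  comp : ∀ x y : ι → A, (∀ i, E (x i) (y i)) → E (W.op x) (W.op y)

/-- `E` is a maximal proper congruence of `B` -/
structure MaxCong (W : Wnu ι A) (B : Set A) (E : A → A → Prop) : Prop
    extends Cong W B E where
  proper : ∃ a ∈ B, ∃ b ∈ B, ¬ E a b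
  maximal : ∀ E' : A → A → Prop, Cong W B E' → (∀ a b, E a b → E' a b) →
    (∀ a b, E' a b → E a b) ∨ ∀ a ∈ B, ∀ b ∈ B, E' a b

/-- the compatible relation generated by `{a} × C`, `C × {a}` and `C × C` -/
def KR (W : Wnu ι A) (C : Set A) (a : A) (x y : A) : Prop :=
  ∀ R : A → A → Prop, (∀ c ∈ C, R a c ∧ R c a) → (∀ c ∈ C, ∀ c' ∈ C, R c c') →
    (∀ x y : ι → A, (∀ i, R (x i) (y i)) → R (W.op x) (W.op y)) → R x y

/-- the subuniverse generated by `C` and `a` -/
def gen (W : Wnu ι A) (C : Set A) (a : A) : Set A :=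
  {x | ∀ C' : Set A, C ⊆ C' → a ∈ C' → W.Sub C' → x ∈ C'}

/-- the algebra has only the two trivial congruences -/
def Wnu.Simple (W : Wnu ι Q) : Prop :=
  (∃ x y : Q, x ≠ y) ∧ ∀ E : Q → Q → Prop, Cong W univ E → (∀ x y, E x y → x = y) ∨
    ∀ x y, E x y

/-- a coordinate where the alphabet has no absorbing subuniverses; `E v` is a maximal
congruence -/
def Nice (W : Wnu ι A) (S : Set (V → A)) (E : V → A → A → Prop) (v : V) : Prop :=
  W.BAFree (val S v) ∧ W.CFree (val S v) ∧ MaxCong W (val S v) (E v)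

/-- coordinates which depend on at least two places among the places satisfying `N` -/
def IsV1 (S : Set (V → A)) (E : V → A → A → Prop) (N : V → Prop) (w : V) : Prop :=
  ∃ F : Finset V, (∀ v ∈ F, N v) ∧ 2 ≤ F.card ∧ Det S E F w ∧
    ∀ F' : Finset V, F' ⊂ F → ¬ Det S E F' w

variable {d : ℕ} [TopologicalSpace A]

/-- a nonempty closed invariant set of configurations closed under the operation -/
structure Sys (W : Wnu ι A) (T : Act d V) (S : Set (V → A)) : Prop where
  ne : S.Nonempty
  closed : IsClosed S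
  sub : (W.pi V).Sub S
  inv : ∀ g, ∀ z ∈ S, (fun v => z (T.T g v)) ∈ S

omit [TopologicalSpace A] in
theorem val_mono {S S' : Set (V → A)} (h : S' ⊆ S) (v : V) : val S' v ⊆ val S v :=
  image_mono h

theorem Sys.val_eq {W : Wnu ι A} {T : Act d V} {S : Set (V → A)} (h : Sys W T S)
    (g : G d) (v : V) : val S (T.T g v) = val S v := by
  apply Subset.antisymm
  · rintro _ ⟨z, hz, rfl⟩
    exact ⟨_, h.inv g z hz, rfl⟩
  · rintro _ ⟨z, hz, rfl⟩
    refine ⟨_, h.inv (-g) z hz, ?_⟩
    simp only [T.neg_apply]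

theorem Sys.congr_act {W : Wnu ι A} {T T' : Act d V} {S : Set (V → A)}
    (h : ∀ g v, T.T g v = T'.T g v) (hS : Sys W T S) : Sys W T' S := by
  refine ⟨hS.ne, hS.closed, hS.sub, fun g z hz => ?_⟩
  have := hS.inv g z hz
  simpa only [h] using this

end Pool.Agent.H62.TP
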