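import Pool.Agent.H62.TP.Quot
import Pool.Agent.H62.TP.Common

/-!
The dichotomy: a nice coordinate is determined by finitely many nice places or free over them
(MP_cb0c3a_an, project TP).
-/

set_option autoImplicit false

open Set

namespace Pool.Agent.H62.TP

open Pool.Agent.H62.MC (G Act val Det mem_val)

variable {ι : Type} [DecidableEq ι] {A D P Q V : Type}

/-- a compatible relation between `S` and an algebra without binary absorption which depends only
on the classes at the places of `F` is full as soon as its centre is nonempty -/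
def DichCF (W : Wnu ι A) (S : Set (V → A)) (E : V → A → A → Prop) (F : Finset V) : Prop :=
  ∀ (D : Type) (_ : Finite D) (W' : Wnu ι D) (R : (V → A) → D → Prop), W'.BAFree univ →
    RelOn (W.pi V) W' S R → (∀ z ∈ S, ∃ d, R z d) →
    (∀ z ∈ S, ∀ z' ∈ S, (∀ v ∈ F, E v (z' v) (z v)) → ∀ d, R z' d → R z d) →
    (∃ z₀ ∈ S, ∀ d, R z₀ d) → ∀ z ∈ S, ∀ d, R z d

/-- the dichotomy over `F` at the place `w` -/
theorem dich_of_CF [Finite A] {W : Wnu ι A} {S : Set (V → A)} (hS : (W.pi V).Sub S)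
    {E : V → A → A → Prop} {F : Finset V} (hF : ∀ v ∈ F, Nice W S E v)
    (hCF : DichCF W S E F) {w : V}
    (hw : Nice W S E w) (hdet : ¬ Det S E F w) {z : V → A} (hz : z ∈ S) {b : A}
    (hb : b ∈ val S w) : ∃ z' ∈ S, (∀ v ∈ F, E v (z' v) (z v)) ∧ E w (z' w) b := by
  obtain ⟨Q, hQ, WQ, c, hc1, hc2, hc3, hQb, hQc, hQs⟩ :=
    exists_quot (sub_val hS w) hw.2.2 hw.1 hw.2.1
  let R : (V → A) → Q → Prop := fun z q => ∃ z' ∈ S, (∀ v ∈ F, E v (z' v) (z v)) ∧ c (z' w) = q
  have hrefl : ∀ z ∈ S, R z (c (z w)) := fun z hz =>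
    ⟨z, hz, fun v hv => (hF v hv).2.2.refl _ (mem_val hz v), rfl⟩
  have hR : RelOn (W.pi V) WQ S R := by
    intro x y _ hxy
    choose f hfS hf1 hf2 using hxy
    refine ⟨(W.pi V).op f, hS f hfS, fun v hv => ?_, ?_⟩
    · exact (hF v hv).2.2.comp _ _ fun i => hf1 i v hv
    · have h := hc3 (fun i => f i w) fun i => mem_val (hfS i) w
      rw [show (fun i => c (f i w)) = y from funext hf2] at h
      exact h
  have hnf : ∃ z ∈ S, ∃ q q', q ≠ q' ∧ R z q ∧ R z q' := by
    by_contra hcon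
    apply hdet
    intro x hx x' hx' h
    refine (hc1 _ (mem_val hx w) _ (mem_val hx' w)).1 ?_
    by_contra hne
    exact hcon ⟨x', hx', _, _, hne, ⟨x, hx, h, rfl⟩, hrefl x' hx'⟩
  have hlink := linked hQb hQc hQs hS hR (by
    intro q
    obtain ⟨_, ⟨x, hx, rfl⟩, hxq⟩ := hc2 q
    exact ⟨x, hx, hxq ▸ hrefl x hx⟩) hnf
  have hfull := hCF Q hQ WQ R hQb hR (fun z hz => ⟨_, hrefl z hz⟩) (by
    rintro x hx x' hx' h q ⟨z', hz', h1, h2⟩
    exact ⟨z', hz', fun v hv => (hF v hv).2.2.trans _ _ _ (h1 v hv) (h v hv), h2⟩) hlink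
  obtain ⟨z', hz', h1, h2⟩ := hfull z hz (c b)
  exact ⟨z', hz', h1, (hc1 _ (mem_val hz' w) _ hb).1 h2⟩

/-- one more nice place -/
theorem dich_CF_insert [Finite A] [DecidableEq V] {W : Wnu ι A} {S : Set (V → A)}
    (hS : (W.pi V).Sub S) {E : V → A → A → Prop} {F : Finset V} (hF : ∀ v ∈ F, Nice W S E v)
    (hCF : DichCF W S E F) {w : V} (hw : Nice W S E w) : DichCF W S E (insert w F) := by
  intro D hD W' R hW' hR htot hinv hcen
  by_cases hdet : Det S E F w
  · refine hCF D hD W' R hW' hR htot ?_ hcen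
    intro z hz z' hz' h d hd
    refine hinv z hz z' hz' (fun v hv => ?_) d hd
    rcases Finset.mem_insert.1 hv with rfl | hv
    · exact hdet z' hz' z hz h
    · exact h v hv
  obtain ⟨Q, hQ, WQ, c, hc1, hc2, hc3, hQb, hQc, hQs⟩ :=
    exists_quot (sub_val hS w) hw.2.2 hw.1 hw.2.1
  have hinv' : ∀ z ∈ S, ∀ z' ∈ S, (∀ v ∈ F, E v (z' v) (z v)) → c (z' w) = c (z w) →
      ∀ d, R z' d → R z d := by
    intro z hz z' hz' h1 h2 d hd
    refine hinv z hz z' hz' (fun v hv => ?_) d hd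
    rcases Finset.mem_insert.1 hv with rfl | hv
    · exact (hc1 _ (mem_val hz' _) _ (mem_val hz _)).1 h2
    · exact h1 v hv
  have hfree : ∀ z ∈ S, ∀ q, ∃ z' ∈ S, (∀ v ∈ F, E v (z' v) (z v)) ∧ c (z' w) = q := by
    intro z hz q
    obtain ⟨b, hb, rfl⟩ := hc2 q
    obtain ⟨z', hz', h1, h2⟩ := dich_of_CF hS hF hCF hw hdet hz hb
    exact ⟨z', hz', h1, (hc1 _ (mem_val hz' w) _ hb).2 h2⟩
  obtain ⟨z₀, hz₀, hz₀c⟩ := hcen
  -- every configuration with the classes of `z₀` on `F` is in the centre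
  have hcen' : ∀ z ∈ S, (∀ v ∈ F, E v (z v) (z₀ v)) → ∀ d, R z d := by
    let R1 : Q → D → Prop := fun q e =>
      ∃ z ∈ S, (∀ v ∈ F, E v (z v) (z₀ v)) ∧ c (z w) = q ∧ R z e
    have hR1 : RelOn WQ W' univ R1 := by
      intro x y _ hxy
      choose f hfS hf1 hf2 hf3 using hxy
      refine ⟨(W.pi V).op f, hS f hfS, fun v hv => ?_, ?_, hR f y hfS hf3⟩
      · have h := (hF v hv).2.2.comp (fun i => f i v) (fun _ => z₀ v) fun i => hf1 i v hv
        rw [W.idem] at h
        exact h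
      · have h := hc3 (fun i => f i w) fun i => mem_val (hfS i) w
        rw [show (fun i => c (f i w)) = x from funext hf2] at h
        exact h
    have hcentral : WQ.Central (Nat.card D) univ {q | ∀ e, R1 q e} := by
      refine ⟨subset_univ _, ⟨c (z₀ w), fun e => ?_⟩, D, hD, W', R1, le_rfl, hW', hR1, ?_, ?_⟩
      · exact ⟨z₀, hz₀, fun v hv => (hF v hv).2.2.refl _ (mem_val hz₀ v), rfl, hz₀c e⟩
      · intro q _
        obtain ⟨z', hz', h1, h2⟩ := hfree z₀ hz₀ q
        obtain ⟨e, he⟩ := htot z' hz'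
        exact ⟨e, z', hz', h1, h2, he⟩
      · intro q _
        exact Iff.rfl
    have hall := hQc _ _ hcentral
    intro z hz hzF e
    obtain ⟨z', hz', h1, h2, h3⟩ := hall (mem_univ (c (z w))) e
    exact hinv' z hz z' hz' (fun v hv => (hF v hv).2.2.trans _ _ _ (h1 v hv)
      ((hF v hv).2.2.symm _ _ (hzF v hv))) h2 e h3
  -- the second step
  intro z hz e
  let R2 : (V → A) → D → Prop := fun x e =>
    ∃ z' ∈ S, (∀ v ∈ F, E v (z' v) (x v)) ∧ c (z' w) = c (z w) ∧ R z' e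
  have hR2 : RelOn (W.pi V) W' S R2 := by
    intro x y _ hxy
    choose f hfS hf1 hf2 hf3 using hxy
    refine ⟨(W.pi V).op f, hS f hfS, fun v hv => ?_, ?_, hR f y hfS hf3⟩
    · exact (hF v hv).2.2.comp _ _ fun i => hf1 i v hv
    · have h := hc3 (fun i => f i w) fun i => mem_val (hfS i) w
      rw [show (fun i => c (f i w)) = fun _ => c (z w) from funext hf2, WQ.idem] at h
      exact h
  have hfull := hCF D hD W' R2 hW' hR2 (by
    intro x hx
    obtain ⟨z', hz', h1, h2⟩ := hfree x hx (c (z w))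
    obtain ⟨e, he⟩ := htot z' hz'
    exact ⟨e, z', hz', h1, h2, he⟩) (by
    rintro x hx x' hx' h e ⟨z', hz', h1, h2, h3⟩
    exact ⟨z', hz', fun v hv => (hF v hv).2.2.trans _ _ _ (h1 v hv) (h v hv), h2, h3⟩) (by
    refine ⟨z₀, hz₀, fun e => ?_⟩
    obtain ⟨z', hz', h1, h2⟩ := hfree z₀ hz₀ (c (z w))
    exact ⟨z', hz', h1, h2, hcen' z' hz' h1 e⟩)
  obtain ⟨z', hz', h1, h2, h3⟩ := hfull z hz e
  exact hinv' z hz z' hz' h1 h2 e h3

theorem dich_CF [Finite A] {W : Wnu ι A} {S : Set (V → A)}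
    (hS : (W.pi V).Sub S) {E : V → A → A → Prop} {F : Finset V} (hF : ∀ v ∈ F, Nice W S E v) :
    DichCF W S E F := by
  classical
  induction F using Finset.induction_on with
  | empty =>
    intro D _ W' R _ _ _ hinv hcen z hz d
    obtain ⟨z₀, hz₀, h⟩ := hcen
    exact hinv z hz z₀ hz₀ (by simp) d (h d)
  | insert w F _ ih =>
    exact dich_CF_insert hS (fun v hv => hF v (Finset.mem_insert_of_mem hv))
      (ih fun v hv => hF v (Finset.mem_insert_of_mem hv)) (hF w (Finset.mem_insert_self _ _))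

/-- a nice coordinate which is not determined by finitely many nice places is free over them -/
theorem dichotomy [Finite A] {W : Wnu ι A} {S : Set (V → A)} (hS : (W.pi V).Sub S)
    {E : V → A → A → Prop} {F : Finset V} (hF : ∀ v ∈ F, Nice W S E v) {w : V}
    (hw : Nice W S E w) (hdet : ¬ Det S E F w) {z : V → A} (hz : z ∈ S) {b : A}
    (hb : b ∈ val S w) : ∃ z' ∈ S, (∀ v ∈ F, E v (z' v) (z v)) ∧ E w (z' w) b :=
  dich_of_CF hS hF (dich_CF hS hF) hw hdet hz hb

end Pool.Agent.H62.TP
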