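import Pool.Agent.H62.TP.Defs

/-!
Project TP (MP_cb0c3a_an), row TP-5: the relation generated by a central subuniverse and a point
outside of it.
-/

set_option autoImplicit false

open Set

namespace Pool.Agent.H62.TP

open Pool.Agent.H62.MC (G Act val Det mem_val)

variable {ι : Type} [DecidableEq ι] {A D P Q V : Type}

theorem not_KR {W : Wnu ι A} {k : ℕ} {B C : Set A} (hB : W.Sub B) (h : W.Central k B C)
    {a : A} (ha : a ∈ B) (haC : a ∉ C) : ¬ KR W C a a a := by
  intro hK
  obtain ⟨hCB, -, D, -, W', R, -, hfree, hrel, htot, hcen⟩ := h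
  have hCR : ∀ c ∈ C, ∀ d, R c d := fun c hc => (hcen c (hCB hc)).1 hc
  have key := hK (fun x y => x ∈ B ∧ y ∈ B ∧ ∃ t : Tm ι, ∀ d, R a d → ∀ e,
    R x (W'.eval t d e) ∧ R y (W'.eval t e d)) ?_ ?_ ?_
  · obtain ⟨-, -, t, ht⟩ := key
    have habs : W'.BinAbs t univ {d | R a d} := by
      refine ⟨subset_univ _, htot a ha, ?_, ?_⟩
      · intro x hx
        have h1 := hrel (fun _ => a) x (fun _ => ha) hx
        rw [W.idem] at h1
        exact h1
      · intro c hc b _
        exact ht c hc b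
    have hall := hfree t _ habs
    apply haC
    rw [hcen a ha]
    intro d
    exact hall (mem_univ d)
  · intro c hc
    refine ⟨⟨ha, hCB hc, .fst, fun d hd e => ⟨hd, hCR c hc _⟩⟩,
      ⟨hCB hc, ha, .snd, fun d hd e => ⟨hCR c hc _, hd⟩⟩⟩
  · intro c hc c' hc'
    exact ⟨hCB hc, hCB hc', .fst, fun d _ e => ⟨hCR c hc _, hCR c' hc' _⟩⟩
  · intro x y hxy
    have h1 : ∀ i, x i ∈ B := fun i => (hxy i).1
    have h2 : ∀ i, y i ∈ B := fun i => (hxy i).2.1
    choose t ht using fun i => (hxy i).2.2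
    refine ⟨hB x h1, hB y h2, .app t, fun d hd e => ⟨?_, ?_⟩⟩
    · rw [Wnu.eval]
      exact hrel x _ h1 fun i => (ht i d hd e).1
    · rw [Wnu.eval]
      exact hrel y _ h2 fun i => (ht i d hd e).2

theorem KR_symm {W : Wnu ι A} {C : Set A} {a x y : A} (h : KR W C a x y) : KR W C a y x := by
  intro R h1 h2 h3
  exact h (fun u v => R v u) (fun c hc => ⟨(h1 c hc).2, (h1 c hc).1⟩)
    (fun c hc c' hc' => h2 c' hc' c hc) (fun u v huv => h3 v u huv)

theorem KR_op {W : Wnu ι A} {C : Set A} {a : A} {x y : ι → A}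
    (h : ∀ i, KR W C a (x i) (y i)) : KR W C a (W.op x) (W.op y) := by
  intro R h1 h2 h3
  exact h3 x y fun i => h i R h1 h2 h3

theorem KR_gen {W : Wnu ι A} {C : Set A} (hC : W.Sub C) {a x : A} (hx : x ∈ gen W C a) {c : A}
    (hc : c ∈ C) : KR W C a x c := by
  have _ := hC
  have key := hx {x | ∀ c ∈ C, KR W C a x c} ?_ ?_ ?_
  · exact key c hc
  · intro c' hc' c hc R _ h2 _
    exact h2 c' hc' c hc
  · intro c hc R h1 _ _
    exact (h1 c hc).1
  · intro y hy c hc
    have h4 : KR W C a (W.op y) (W.op fun _ => c) := KR_op fun i => hy i c hc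
    rw [W.idem] at h4
    exact h4

theorem KR_left {W : Wnu ι A} {C : Set A} {a x y : A} (h : KR W C a x y) :
    x ∈ gen W C a := by
  intro C' hCC' haC' hsub
  exact h (fun u _ => u ∈ C') (fun c hc => ⟨haC', hCC' hc⟩) (fun c hc _ _ => hCC' hc)
    (fun u _ hu => hsub u hu)

/-- if `a` is in the subuniverse generated by `C` and `z`, then the relation of `a` is smaller -/
theorem KR_mono {W : Wnu ι A} {C : Set A} (hC : W.Sub C) {a z x y : A} (h : a ∈ gen W C z)
    (hxy : KR W C a x y) : KR W C z x y := by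
  refine hxy (KR W C z) ?_ ?_ ?_
  · intro c hc
    have h1 := KR_gen hC h hc
    exact ⟨h1, KR_symm h1⟩
  · intro c hc c' hc' R _ h2 _
    exact h2 c hc c' hc'
  · intro u v huv
    exact KR_op huv

end Pool.Agent.H62.TP
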