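import Pool.Agent.H62.TP.Defs

/-!
Project TP (MP_cb0c3a_an), row TP-8: finitely many elements outside a subgroup `L` of `ℤ^d`
stay outside `L + N ℤ^d` for some positive `N`.
-/

set_option autoImplicit false

open Set

namespace Pool.Agent.H62.TP

open Pool.Agent.H62.MC (G Act val Det mem_val)

/-- A nonzero element of a finitely generated abelian group is not divisible by some `N > 0`. -/
private theorem exists_not_dvd {B : Type} [AddCommGroup B] [AddGroup.FG B] {u : B} (hu : u ≠ 0) :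
    ∃ N : ℕ, 0 < N ∧ ∀ g : B, u ≠ N • g := by
  classical
  obtain ⟨n, κ, hκ, p, hp, e, ⟨f⟩⟩ := AddCommGroup.equiv_free_prod_directSum_zmod B
  have hfu : f u ≠ 0 := fun h => hu (f.injective (h.trans (map_zero f).symm))
  by_cases h1 : (f u).1 = 0
  · have h2 : (f u).2 ≠ 0 := fun h => hfu (Prod.ext h1 h)
    have h3 : ∃ i, (f u).2 i ≠ 0 := by
      by_contra hcon
      push Not at hcon
      exact h2 (DFinsupp.ext hcon)
    obtain ⟨i, hi⟩ := h3
    refine ⟨p i ^ e i, pow_pos (hp i).pos _, fun g hg => hi ?_⟩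
    rw [hg, map_nsmul]
    have h4 : ((p i ^ e i) • f g).2 i = (p i ^ e i) • (f g).2 i := rfl
    rw [h4, nsmul_eq_mul, ZMod.natCast_self, zero_mul]
  · have h3 : ∃ i, (f u).1 i ≠ 0 := by
      by_contra hcon
      push Not at hcon
      exact h1 (Finsupp.ext hcon)
    obtain ⟨i, hi⟩ := h3
    refine ⟨2 * ((f u).1 i).natAbs, Nat.mul_pos two_pos (Int.natAbs_pos.2 hi), fun g hg => ?_⟩
    have h4 : (f u).1 i = ((2 * ((f u).1 i).natAbs : ℕ) : ℤ) * (f g).1 i := by
      have h5 : (f u).1 i = ((2 * ((f u).1 i).natAbs) • f g).1 i := by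
        conv_lhs => rw [hg, map_nsmul]
      have h6 : ((2 * ((f u).1 i).natAbs) • f g).1 i
          = (2 * ((f u).1 i).natAbs) • (f g).1 i := rfl
      exact h5.trans (h6.trans (nsmul_eq_mul _ _))
    have h7 : (2 * ((f u).1 i).natAbs) ∣ ((f u).1 i).natAbs := by
      have h8 : ((2 * ((f u).1 i).natAbs : ℕ) : ℤ) ∣ (f u).1 i := ⟨_, h4⟩
      exact Int.natCast_dvd.1 h8
    have h9 := Nat.le_of_dvd (Int.natAbs_pos.2 hi) h7
    have h10 : 0 < ((f u).1 i).natAbs := Int.natAbs_pos.2 hi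
    omega

private theorem exists_sep_one {d : ℕ} (L : AddSubgroup (G d)) (u : G d) (hu : u ∉ L) :
    ∃ N : ℕ, 0 < N ∧ ∀ g : G d, ∀ l ∈ L, u ≠ l + N • g := by
  have hfg : AddGroup.FG (G d) := by
    unfold G
    exact AddGroup.fg_iff_addMonoid_fg.2 (Module.Finite.iff_addMonoid_fg.1 inferInstance)
  have h1 : (QuotientAddGroup.mk' L u) ≠ 0 := fun h => hu ((QuotientAddGroup.eq_zero_iff u).1 h)
  obtain ⟨N, hN, h⟩ := exists_not_dvd h1
  refine ⟨N, hN, fun g l hl hg => h (QuotientAddGroup.mk' L g) ?_⟩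
  have h2 : QuotientAddGroup.mk' L l = 0 := (QuotientAddGroup.eq_zero_iff l).2 hl
  conv_lhs => rw [hg]
  rw [map_add, map_nsmul, h2, zero_add]

theorem exists_sep {d : ℕ} (L : AddSubgroup (G d)) (U : Finset (G d)) (hU : ∀ u ∈ U, u ∉ L) :
    ∃ N : ℕ, 0 < N ∧ ∀ u ∈ U, ∀ g : G d, ∀ l ∈ L, u ≠ l + N • g := by
  classical
  induction U using Finset.induction_on with
  | empty => exact ⟨1, Nat.one_pos, fun u hu => absurd hu (Finset.notMem_empty u)⟩
  | insert a s ha ih =>
    obtain ⟨N, hN, h⟩ := ih fun u hu => hU u (Finset.mem_insert_of_mem hu)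
    obtain ⟨M, hM, h'⟩ := exists_sep_one L a (hU a (Finset.mem_insert_self a s))
    refine ⟨M * N, Nat.mul_pos hM hN, fun u hu g l hl => ?_⟩
    rcases Finset.mem_insert.1 hu with rfl | hu
    · rw [mul_smul]
      exact h' (N • g) l hl
    · rw [mul_comm, mul_smul]
      exact h u hu (M • g) l hl

end Pool.Agent.H62.TP
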