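import Pool.Agent.H62.TP.Image
import Pool.Agent.H62.TP.Sep

/-!
Project TP (MP_cb0c3a_an), row TP-9: a central subuniverse `C` of the alphabet at a place `v`
which is met at the places `v` and `N g v` simultaneously, for all `g`.
-/

set_option autoImplicit false

open Set

namespace Pool.Agent.H62.TP

open Pool.Agent.H62.MC (G Act val Det mem_val)

variable {ι : Type} [DecidableEq ι] {A D P Q V : Type}

/-- `C` at the place `v` forces `C'` at the place `g v` -/
private def GLe {d : ℕ} (T : Act d V) (S : Set (V → A)) (v : V) (g : G d) (C C' : Set A) :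
    Prop :=
  ∀ z ∈ S, z v ∈ C → z (T.T g v) ∈ C'

private theorem gle_shift [TopologicalSpace A] {W : Wnu ι A} {d : ℕ} {T : Act d V}
    {S : Set (V → A)} (hS : Sys W T S) {v : V} {g : G d} {C C' : Set A}
    (h : GLe T S v g C C') (b : G d) {z : V → A} (hz : z ∈ S) (hb : z (T.T b v) ∈ C) :
    z (T.T (g + b) v) ∈ C' := by
  have h1 := h _ (hS.inv b z hz) hb
  rw [add_comm, T.add]
  exact h1

private theorem gle_comp [TopologicalSpace A] {W : Wnu ι A} {d : ℕ} {T : Act d V}
    {S : Set (V → A)} (hS : Sys W T S) {v : V} {g b : G d} {C C' C'' : Set A}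
    (h : GLe T S v g C C') (h' : GLe T S v b C' C'') : GLe T S v (g + b) C C'' := by
  intro z hz hv
  rw [add_comm]
  exact gle_shift hS h' g hz (h z hz hv)

private theorem gle_refl {d : ℕ} (T : Act d V) (S : Set (V → A)) (v : V) (C : Set A) :
    GLe T S v 0 C C := by
  intro z _ hv
  rwa [T.zero]

/-- among the admissible sets there is one which can be reached from all the admissible sets
reachable from it -/
private theorem exists_bottom [Finite A] [TopologicalSpace A] {W : Wnu ι A} {d : ℕ}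
    {T : Act d V} {S : Set (V → A)} (hS : Sys W T S) (v : V) (AA : Set (Set A))
    (hne : AA.Nonempty) :
    ∃ C ∈ AA, ∀ C' ∈ AA, (∃ g, GLe T S v g C C') → ∃ h, GLe T S v h C' C := by
  obtain ⟨C, hC, hmin⟩ := Set.exists_min_image AA
    (fun C => {C' | C' ∈ AA ∧ ∃ g, GLe T S v g C C'}.ncard) (Set.toFinite AA) hne
  refine ⟨C, hC, fun C' hC' ⟨g, hg⟩ => ?_⟩
  have h1 : {C'' | C'' ∈ AA ∧ ∃ g, GLe T S v g C' C''} ⊆
      {C'' | C'' ∈ AA ∧ ∃ g, GLe T S v g C C''} := by
    rintro C'' ⟨h2, h, h3⟩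
    exact ⟨h2, g + h, gle_comp hS hg h3⟩
  have h2 := Set.eq_of_subset_of_ncard_le h1 (hmin C' hC') (Set.toFinite _)
  have h3 : C ∈ {C'' | C'' ∈ AA ∧ ∃ g, GLe T S v g C C''} := ⟨hC, 0, gle_refl T S v C⟩
  rw [← h2] at h3
  exact h3.2

/-- the differences at which `C` is never met twice -/
private def BadG {d : ℕ} (T : Act d V) (S : Set (V → A)) (v : V) (C : Set A) : Set (G d) :=
  {g | ∀ z ∈ S, z v ∈ C → z (T.T g v) ∉ C}

private theorem bad_neg [TopologicalSpace A] {W : Wnu ι A} {d : ℕ} {T : Act d V}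
    {S : Set (V → A)} (hS : Sys W T S) {v : V} {C : Set A} {g : G d}
    (hg : g ∈ BadG T S v C) : -g ∈ BadG T S v C := by
  intro z hz hv hv'
  refine hg _ (hS.inv (-g) z hz) hv' ?_
  show z (T.T (-g) (T.T g v)) ∈ C
  rwa [T.neg_apply]

private theorem bad_sub [TopologicalSpace A] {W : Wnu ι A} {d : ℕ} {T : Act d V}
    {S : Set (V → A)} (hS : Sys W T S) {v : V} {C : Set A} {b g : G d}
    (hb : b ∈ BadG T S v C) (hg : GLe T S v g C C) : b - g ∈ BadG T S v C := by
  intro z hz hv hv'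
  have h1 := gle_shift hS hg (b - g) hz hv'
  rw [add_sub_cancel] at h1
  exact hb z hz hv h1

private theorem bad_add [TopologicalSpace A] {W : Wnu ι A} {d : ℕ} {T : Act d V}
    {S : Set (V → A)} (hS : Sys W T S) {v : V} {C : Set A} {b g : G d}
    (hb : b ∈ BadG T S v C) (hg : GLe T S v g C C) : b + g ∈ BadG T S v C := by
  have h1 := bad_neg hS (bad_sub hS (bad_neg hS hb) hg)
  have h2 : -(-b - g) = b + g := by abel
  rwa [h2] at h1

private theorem bad_closure [TopologicalSpace A] {W : Wnu ι A} {d : ℕ} {T : Act d V}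
    {S : Set (V → A)} (hS : Sys W T S) {v : V} {C : Set A} {l : G d}
    (hl : l ∈ AddSubgroup.closure {g | GLe T S v g C C}) :
    ∀ b ∈ BadG T S v C, b + l ∈ BadG T S v C ∧ b - l ∈ BadG T S v C := by
  induction hl using AddSubgroup.closure_induction with
  | mem x hx => exact fun b hb => ⟨bad_add hS hb hx, bad_sub hS hb hx⟩
  | zero => exact fun b hb => ⟨by rwa [add_zero], by rwa [sub_zero]⟩
  | add x y _ _ hx hy =>
    intro b hb
    constructor
    · rw [← add_assoc]
      exact (hy _ (hx b hb).1).1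
    · rw [← sub_sub]
      exact (hy _ (hx b hb).2).2
  | neg x _ hx =>
    intro b hb
    rw [← sub_eq_add_neg, sub_neg_eq_add]
    exact ⟨(hx b hb).2, (hx b hb).1⟩

theorem exists_good [Finite A] [TopologicalSpace A] {W : Wnu ι A} {d : ℕ} {T : Act d V}
    {S : Set (V → A)} (hS : Sys W T S) (v : V)
    (hex : ∃ k C, W.Central k (val S v) C ∧ ¬ val S v ⊆ C) :
    ∃ (k : ℕ) (C : Set A) (N : ℕ), 0 < N ∧ W.Central k (val S v) C ∧ ¬ val S v ⊆ C ∧
      ∀ g : G d, ∃ z ∈ S, z v ∈ C ∧ z (T.T (N • g) v) ∈ C := by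
  classical
  obtain ⟨C, ⟨⟨k, hk⟩, hBC⟩, hbot⟩ := exists_bottom hS v
    {C | (∃ k, W.Central k (val S v) C) ∧ ¬ val S v ⊆ C}
    (by obtain ⟨k, C, h1, h2⟩ := hex; exact ⟨C, ⟨k, h1⟩, h2⟩)
  obtain ⟨c, hc⟩ := hk.2.1
  obtain ⟨z₀, hz₀, hzc⟩ := hk.1 hc
  have h0 : (0 : G d) ∉ BadG T S v C := by
    intro h
    have h1 : z₀ v ∈ C := by
      have h2 : z₀ v = c := hzc
      rwa [h2]
    refine h z₀ hz₀ h1 ?_
    rwa [T.zero]
  -- every bad difference leads to a set which leads back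
  have hbad : ∀ b ∈ BadG T S v C, ∃ C' : Set A, GLe T S v b C C' ∧
      ∃ h, GLe T S v h C' C := by
    intro b hb
    obtain ⟨k', hk'⟩ := image_central hS.sub v (T.T b v) hk
    rw [hS.val_eq] at hk'
    refine ⟨{a | ∃ z ∈ S, z v ∈ C ∧ z (T.T b v) = a}, fun z hz hv => ⟨z, hz, hv, rfl⟩,
      hbot _ ⟨⟨k', hk'⟩, fun hsub => ?_⟩ ⟨b, fun z hz hv => ⟨z, hz, hv, rfl⟩⟩⟩
    obtain ⟨z, hz, hv, hv'⟩ := hsub (hk.1 hc)
    exact hb z hz hv (hv' ▸ hc)
  have hchoice : ∃ H : Set A → G d, ∀ C' : Set A, (∃ h, GLe T S v h C' C) →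
      GLe T S v (H C') C' C := by
    refine ⟨fun C' => if h : ∃ h, GLe T S v h C' C then h.choose else 0, fun C' h => ?_⟩
    simp only [dif_pos h]
    exact h.choose_spec
  obtain ⟨H, hH⟩ := hchoice
  have : Fintype (Set A) := Fintype.ofFinite _
  obtain ⟨N, hN, hsep⟩ := exists_sep (AddSubgroup.closure {g | GLe T S v g C C})
    ((Finset.univ.image fun C' : Set A => -H C').filter fun u =>
      u ∉ AddSubgroup.closure {g | GLe T S v g C C})
    (fun u hu => (Finset.mem_filter.1 hu).2)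
  refine ⟨k, C, N, hN, hk, hBC, fun g => ?_⟩
  by_contra hcon
  push Not at hcon
  have hb : N • g ∈ BadG T S v C := hcon
  obtain ⟨C', h1, h2⟩ := hbad _ hb
  have h3 : N • g + H C' ∈ AddSubgroup.closure {g | GLe T S v g C C} :=
    AddSubgroup.subset_closure (gle_comp hS h1 (hH C' h2))
  by_cases h4 : -H C' ∈ AddSubgroup.closure {g | GLe T S v g C C}
  · have h5 : N • g ∈ AddSubgroup.closure {g | GLe T S v g C C} := by
      have h6 := AddSubgroup.add_mem _ h3 h4
      rwa [add_neg_cancel_right] at h6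
    have h6 := (bad_closure hS h5 _ hb).2
    rw [sub_self] at h6
    exact h0 h6
  · refine hsep (-H C') (Finset.mem_filter.2 ⟨Finset.mem_image.2 ⟨C', Finset.mem_univ _, rfl⟩,
      h4⟩) g (-(N • g + H C')) (AddSubgroup.neg_mem _ h3) ?_
    abel

end Pool.Agent.H62.TP
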