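import Pool.Agent.H62.TP.Defs

/-!
Project TP (MP_cb0c3a_an), row TP-16: a simple algebra with a compatible addition is a group of
prime order (helper82 for helper62).
-/

set_option autoImplicit false

open Set

namespace Pool.Agent.H62.TP

variable {ι : Type} [DecidableEq ι] {A D P Q V : Type}

/-- The case of a group. -/
theorem grp_core [Fintype ι] [Finite Q] [AddCommGroup Q] {WQ : Wnu ι Q} (hs : WQ.Simple)
    (al : Q →+ Q) (hop : ∀ x : ι → Q, WQ.op x = ∑ i, al (x i)) :
    ∃ p : ℕ, p.Prime ∧ p ≤ Nat.card Q ∧ ¬ p ∣ Fintype.card ι ∧ ∃ lam : Q → ZMod p,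
      Function.Injective lam ∧
      ∀ x : ι → Q, (Fintype.card ι : ZMod p) * lam (WQ.op x) = ∑ i, lam (x i) := by
  set n := Fintype.card ι with hn
  -- `n • al x = x`
  have hal : ∀ x, n • al x = x := by
    intro x
    have h1 := hop fun _ => x
    rw [WQ.idem, Finset.sum_const, Finset.card_univ] at h1
    exact h1.symm
  have hninj : ∀ x : Q, n • x = 0 → x = 0 := by
    intro x hx
    have h1 := hal x
    rw [← map_nsmul, hx, map_zero] at h1
    exact h1.symm
  -- subgroups are stable under `al`
  have hsub : ∀ (H : AddSubgroup Q), ∀ x ∈ H, al x ∈ H := by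
    intro H x hx
    have hinj : Function.Injective fun y : H => n • y := by
      intro y y' h
      have h1 : n • (y - y') = 0 := by
        rw [nsmul_sub, sub_eq_zero]
        exact h
      have h2 : ((y - y' : H) : Q) = 0 := by
        apply hninj
        have := congrArg (Subtype.val : H → Q) h1
        simpa using this
      have h3 : y - y' = 0 := Subtype.ext h2
      exact sub_eq_zero.1 h3
    obtain ⟨y, hy⟩ := (Finite.injective_iff_surjective.1 hinj) ⟨x, hx⟩
    have hy' : n • (y : Q) = x := by
      have := congrArg (Subtype.val : H → Q) hy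
      simpa using this
    have h4 : al x = y := by
      rw [← hy', map_nsmul]
      exact hal _
    rw [h4]
    exact y.2
  -- the group is simple
  have hsimple : IsSimpleAddGroup Q := by
    obtain ⟨⟨x₀, y₀, hxy⟩, hcong⟩ := hs
    refine { exists_pair_ne := ⟨x₀, y₀, hxy⟩, eq_bot_or_eq_top_of_normal := fun H _ => ?_ }
    have hC : Cong WQ univ fun x y => x - y ∈ H := by
      refine ⟨fun _ _ _ => mem_univ _, fun _ _ _ => mem_univ _, fun a _ => ?_, fun a b h => ?_,
        fun a b c h h' => ?_, fun x y h => ?_⟩
      · rw [sub_self]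
        exact H.zero_mem
      · rw [← neg_sub]
        exact H.neg_mem h
      · have := H.add_mem h h'
        rwa [sub_add_sub_cancel] at this
      · have h5 : WQ.op x - WQ.op y = ∑ i, al (x i - y i) := by
          rw [hop, hop, ← Finset.sum_sub_distrib]
          refine Finset.sum_congr rfl fun i _ => ?_
          rw [map_sub]
        rw [h5]
        exact H.sum_mem fun i _ => hsub H _ (h i)
    rcases hcong _ hC with h | h
    · left
      rw [eq_bot_iff]
      intro x hx
      have := h x 0 (by rwa [sub_zero])
      exact this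
    · right
      rw [eq_top_iff]
      intro x _
      have := h x 0
      rwa [sub_zero] at this
  have hp : (Nat.card Q).Prime := IsSimpleAddGroup.prime_card
  have hcyc : IsAddCyclic Q := inferInstance
  refine ⟨Nat.card Q, hp, le_rfl, fun hdvd => ?_, (zmodAddCyclicAddEquiv hcyc).symm, ?_, ?_⟩
  · obtain ⟨x, hx⟩ := exists_ne (0 : Q)
    apply hx
    apply hninj
    obtain ⟨c, hc⟩ := hdvd
    rw [hc, mul_nsmul, card_nsmul_eq_zero', nsmul_zero]
  · exact (zmodAddCyclicAddEquiv hcyc).symm.injective
  · intro x
    have h6 : n • WQ.op x = ∑ i, x i := by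
      rw [hop, Finset.smul_sum]
      exact Finset.sum_congr rfl fun i _ => hal _
    rw [← nsmul_eq_mul, ← map_nsmul, h6, map_sum]

/-- Adding one place. -/
theorem grp_insert {WQ : Wnu ι Q} (o : Q) (add : Q → Q → Q) (h0 : ∀ x, add x o = x)
    (h0' : ∀ x, add o x = x)
    (hhom : ∀ x y : ι → Q, WQ.op (fun i => add (x i) (y i)) = add (WQ.op x) (WQ.op y))
    (x : ι → Q) (s : Finset ι) (i : ι) (hi : i ∉ s) :
    WQ.op (fun k => if k ∈ insert i s then x k else o) =
      add (WQ.op fun k => if k ∈ s then x k else o)
        (WQ.op (Function.update (fun _ => o) i (x i))) := by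
  rw [← hhom]
  congr 1
  funext k
  by_cases hk : k = i
  · subst hk
    simp [hi, h0']
  · simp [hk, h0]

theorem group_label [Fintype ι] (h3 : 3 ≤ Fintype.card ι) [Finite Q] {WQ : Wnu ι Q}
    (hs : WQ.Simple) (o : Q) (add : Q → Q → Q) (h0 : ∀ x, add x o = x) (h0' : ∀ x, add o x = x)
    (hinj : ∀ x x' y, add x y = add x' y → x = x')
    (hhom : ∀ x y : ι → Q, WQ.op (fun i => add (x i) (y i)) = add (WQ.op x) (WQ.op y)) :
    ∃ p : ℕ, p.Prime ∧ p ≤ Nat.card Q ∧ ¬ p ∣ Fintype.card ι ∧ ∃ lam : Q → ZMod p,
      Function.Injective lam ∧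
      ∀ x : ι → Q, (Fintype.card ι : ZMod p) * lam (WQ.op x) = ∑ i, lam (x i) := by
  classical
  -- three places
  obtain ⟨i₁, i₂, i₃, h12, h13, h23⟩ : ∃ i₁ i₂ i₃ : ι, i₁ ≠ i₂ ∧ i₁ ≠ i₃ ∧ i₂ ≠ i₃ :=
    Fintype.two_lt_card_iff.1 h3
  set al : Q → Q := fun x => WQ.op (Function.update (fun _ => o) i₁ x) with hal
  have hali : ∀ i x, WQ.op (Function.update (fun _ => o) i x) = al x := fun i x =>
    WQ.wnu i i₁ o x
  have hone : ∀ x : ι → Q, ∀ i, WQ.op (Function.update (fun _ => o) i (x i)) = al (x i) :=
    fun x i => hali i (x i)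
  have hins : ∀ (x : ι → Q) (s : Finset ι) (i : ι), i ∉ s →
      WQ.op (fun k => if k ∈ insert i s then x k else o) =
        add (WQ.op fun k => if k ∈ s then x k else o) (al (x i)) := by
    intro x s i hi
    rw [grp_insert o add h0 h0' hhom x s i hi, hali]
  -- `al` is injective
  have hainj : Function.Injective al := by
    intro x x' hxx
    have h1 : ∀ s : Finset ι, WQ.op (fun k => if k ∈ s then x else o) =
        WQ.op (fun k => if k ∈ s then x' else o) := by
      intro s
      induction s using Finset.induction_on with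
      | empty => simp
      | insert i s hi ih =>
        rw [hins (fun _ => x) s i hi, hins (fun _ => x') s i hi, ih, hxx]
    have h2 := h1 Finset.univ
    simp only [Finset.mem_univ, if_true] at h2
    rwa [WQ.idem, WQ.idem] at h2
  have hasurj : Function.Surjective al := Finite.injective_iff_surjective.1 hainj
  -- `add` is commutative and associative
  have hcomm : ∀ x y, add x y = add y x := by
    intro x y
    obtain ⟨x, rfl⟩ := hasurj x
    obtain ⟨y, rfl⟩ := hasurj y
    rw [← hali i₁ x, ← hali i₂ y, ← hhom, ← hhom]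
    congr 1
    funext k
    by_cases hk : k = i₁
    · subst hk
      simp [h12, h0, h0']
    · by_cases hk2 : k = i₂
      · subst hk2
        simp [hk, h0, h0']
      · simp [hk, hk2, h0]
  have hassoc : ∀ x y z, add (add x y) z = add x (add y z) := by
    intro x y z
    obtain ⟨x, rfl⟩ := hasurj x
    obtain ⟨y, rfl⟩ := hasurj y
    obtain ⟨z, rfl⟩ := hasurj z
    rw [← hali i₁ x, ← hali i₂ y, ← hali i₃ z, ← hhom, ← hhom, ← hhom, ← hhom]
    congr 1
    funext k
    by_cases hk : k = i₁
    · subst hk
      simp [h12, h13, h0]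
    · by_cases hk2 : k = i₂
      · subst hk2
        simp [hk, h23, h0, h0']
      · by_cases hk3 : k = i₃
        · subst hk3
          simp [hk, hk2, h0, h0']
        · simp [hk, hk2, hk3, h0]
  -- inverses
  have hneg : ∀ y, ∃ x, add x y = o := by
    intro y
    have h4 : Function.Injective fun x => add x y := fun x x' h => hinj x x' y h
    exact Finite.injective_iff_surjective.1 h4 o
  choose neg hneg using hneg
  let _ : Add Q := ⟨add⟩
  let _ : Zero Q := ⟨o⟩
  let _ : Neg Q := ⟨neg⟩
  let inst : AddCommGroup Q :=
    { AddGroup.ofLeftAxioms hassoc h0' hneg with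
      add_comm := hcomm }
  have hadd : ∀ x y : Q, x + y = add x y := fun _ _ => rfl
  have hzero : (0 : Q) = o := rfl
  let alh : Q →+ Q :=
    { toFun := al
      map_zero' := by
        show al o = o
        rw [hal]
        simp only [Function.update_eq_self]
        exact WQ.idem o
      map_add' := by
        intro x y
        rw [hadd, hadd, hal]
        simp only
        rw [← hhom]
        congr 1
        funext k
        by_cases hk : k = i₁
        · subst hk
          simp
        · simp [hk, h0] }
  refine grp_core hs alh fun x => ?_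
  have h5 : ∀ s : Finset ι, WQ.op (fun k => if k ∈ s then x k else o) = ∑ i ∈ s, alh (x i) := by
    intro s
    induction s using Finset.induction_on with
    | empty =>
      rw [Finset.sum_empty, hzero]
      simp only [Finset.notMem_empty, if_false]
      exact WQ.idem o
    | insert i s hi ih =>
      rw [hins x s i hi, ih, Finset.sum_insert hi, ← hadd, add_comm]
      rfl
  have h6 := h5 Finset.univ
  simpa using h6

end Pool.Agent.H62.TP
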