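import Pool.Agent.H62.TP.Trans
import Pool.Agent.H62.TP.Gen

/-!
Project TP (MP_cb0c3a_an), row TP-6: central subuniverses of the coordinates of a relation
which meet it pairwise meet it all together.
-/

set_option autoImplicit false

open Set

namespace Pool.Agent.H62.TP

open Pool.Agent.H62.MC (G Act val Det mem_val)

variable {ι : Type} [DecidableEq ι] {A D P Q V : Type}

/-- a relation of the arity `J`, which is essential for the centres `C j` -/
def Ess (W : Wnu ι A) (k : ℕ) {J : Type} (B C : J → Set A) (S : Set (J → A)) : Prop :=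
  (∀ j, W.Sub (B j)) ∧ (∀ j, W.Central k (B j) (C j)) ∧ (W.pi J).Sub S ∧
    (∀ z ∈ S, ∀ j, z j ∈ B j) ∧ (∀ i, ∃ z ∈ S, ∀ j, j ≠ i → z j ∈ C j) ∧
    ¬ ∃ z ∈ S, ∀ j, z j ∈ C j

/-- essential relations of large arity do not exist -/
theorem not_ess_of_large [Finite ι] (hι : ∃ i j : ι, i ≠ j) {W : Wnu ι A} {k : ℕ} {J : Type}
    [Finite J] {B C : J → Set A} {S : Set (J → A)} (hJ : Nat.card ι ^ k ≤ Nat.card J) :
    ¬ Ess W k B C S := by
  rintro ⟨hB, hC, hS, hSB, hex, hno⟩
  have := Fintype.ofFinite ι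
  have := Fintype.ofFinite J
  have hcard : Fintype.card (Fin k → ι) ≤ Fintype.card J := by
    rw [← Nat.card_eq_fintype_card, ← Nat.card_eq_fintype_card, Nat.card_fun, Nat.card_fin]
    exact hJ
  obtain ⟨e⟩ := Function.Embedding.nonempty_of_card_le hcard
  choose w hwS hw using hex
  refine hno ⟨(W.pi J).tk k fun u => w (e u), tk_mem _ hS k _ fun u => hwS _, fun j => ?_⟩
  rw [tk_pi]
  by_cases hj : ∃ u, e u = j
  · obtain ⟨u₀, rfl⟩ := hj
    refine absorb hι (hB (e u₀)) (hC (e u₀)) _ (fun u => hSB _ (hwS _) _) u₀ fun u hu => ?_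
    exact hw (e u) (e u₀) fun h => hu (e.injective h.symm)
  · obtain ⟨i, _, _⟩ := id hι
    refine absorb hι (hB j) (hC j) _ (fun u => hSB _ (hwS _) _) (fun _ => i)
      fun u _ => ?_
    exact hw (e u) j fun h => hj ⟨u, h.symm⟩

/-- the values at `i0` of the members of `S` which are in the centres elsewhere -/
def YY {J : Type} (C : J → Set A) (i0 : J) (S : Set (J → A)) : Set A :=
  {a | ∃ z ∈ S, z i0 = a ∧ ∀ j, j ≠ i0 → z j ∈ C j}

theorem gen_subset {W : Wnu ι A} {C C' : Set A} {a : A} (h : C ⊆ C') (ha : a ∈ C')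
    (hC' : W.Sub C') : gen W C a ⊆ C' := fun _ hx => hx C' h ha hC'

theorem gen_sub {W : Wnu ι A} {C : Set A} {a : A} : W.Sub (gen W C a) := by
  intro x hx C' h1 h2 h3
  exact h3 x fun i => hx i C' h1 h2 h3

theorem subset_gen {W : Wnu ι A} {C : Set A} {a : A} : C ⊆ gen W C a :=
  fun _ hc _ h1 _ _ => h1 hc

theorem mem_gen {W : Wnu ι A} {C : Set A} {a : A} : a ∈ gen W C a :=
  fun _ _ h2 _ => h2

/-- a minimal essential relation has no members of the generated relation over `Y` -/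
theorem no_pair [Finite A] {W : Wnu ι A} {k : ℕ} {J : Type} {B C : J → Set A}
    {S : Set (J → A)} (h : Ess W k B C S) (i0 : J)
    (hmin : ∀ S', Ess W k B C S' → (YY C i0 S).ncard ≤ (YY C i0 S').ncard)
    {a : A} (ha : a ∈ YY C i0 S)
    (hamin : ∀ b ∈ YY C i0 S, (gen W (C i0) a).ncard ≤ (gen W (C i0) b).ncard)
    {z z' : A} (hz : z ∈ YY C i0 S) (hz' : z' ∈ YY C i0 S) : ¬ KR W (C i0) a z z' := by
  intro hK
  obtain ⟨hB, hC, hS, hSB, hex, hno⟩ := h
  have hCs : W.Sub (C i0) := Central.sub (hB i0) (hC i0)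
  have hYC : ∀ y ∈ YY C i0 S, y ∉ C i0 := by
    rintro y ⟨w, hw, rfl, hw'⟩ hy
    refine hno ⟨w, hw, fun j => ?_⟩
    by_cases hj : j = i0
    · subst hj
      exact hy
    · exact hw' j hj
  have hYB : ∀ y ∈ YY C i0 S, y ∈ B i0 := by
    rintro y ⟨w, hw, rfl, -⟩
    exact hSB w hw i0
  have hzg : z ∈ gen W (C i0) a := KR_left hK
  have hsub : gen W (C i0) z ⊆ gen W (C i0) a := gen_subset subset_gen hzg gen_sub
  have heq : gen W (C i0) z = gen W (C i0) a :=
    Set.eq_of_subset_of_ncard_le hsub (hamin z hz) (Set.toFinite _)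
  have haz : a ∈ gen W (C i0) z := heq ▸ mem_gen
  have hzz : ¬ KR W (C i0) a z z := fun hh =>
    not_KR (hB i0) (hC i0) (hYB z hz) (hYC z hz) (KR_mono hCs haz hh)
  have hCU : C i0 ⊆ {y | y ∈ B i0 ∧ KR W (C i0) a z y} := fun c hc =>
    ⟨(hC i0).1 hc, KR_gen hCs hzg hc⟩
  have hUs : W.Sub {y | y ∈ B i0 ∧ KR W (C i0) a z y} := by
    intro x hx
    refine ⟨hB i0 x fun i => (hx i).1, ?_⟩
    have h1 := KR_op (W := W) (C := C i0) (a := a) (x := fun _ => z) (y := x)
      fun i => (hx i).2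
    rwa [W.idem] at h1
  have hess : Ess W k B C {s | s ∈ S ∧ s i0 ∈ {y | y ∈ B i0 ∧ KR W (C i0) a z y}} := by
    refine ⟨hB, hC, ?_, fun s hs j => hSB s hs.1 j, fun i => ?_, ?_⟩
    · intro x hx
      exact ⟨hS x fun i => (hx i).1, hUs _ fun i => (hx i).2⟩
    · by_cases hi : i = i0
      · subst hi
        obtain ⟨w, hw, rfl, hw'⟩ := hz'
        exact ⟨w, ⟨hw, hSB w hw i, hK⟩, hw'⟩
      · obtain ⟨w, hw, hw'⟩ := hex i
        exact ⟨w, ⟨hw, hCU (hw' i0 fun h => hi h.symm)⟩, hw'⟩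
    · rintro ⟨s, hs, hs'⟩
      exact hno ⟨s, hs.1, hs'⟩
  have hlt : (YY C i0 {s | s ∈ S ∧ s i0 ∈ {y | y ∈ B i0 ∧ KR W (C i0) a z y}}).ncard <
      (YY C i0 S).ncard := by
    refine Set.ncard_lt_ncard ⟨?_, fun hsup => ?_⟩ (Set.toFinite _)
    · rintro y ⟨w, hw, hw1, hw2⟩
      exact ⟨w, hw.1, hw1, hw2⟩
    · obtain ⟨w, hw, hw1, -⟩ := hsup hz
      apply hzz
      have := hw.2.2
      rwa [hw1] at this
  exact absurd (hmin _ hess) (not_le.2 hlt)

/-- an essential relation of arity `J` gives one of arity `2 (|J| - 1)` -/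
theorem ess_double [Finite A] {W : Wnu ι A} {k : ℕ} {J : Type} {B C : J → Set A}
    {S : Set (J → A)} (h : Ess W k B C S) (i0 : J) :
    ∃ (B' C' : {j // j ≠ i0} ⊕ {j // j ≠ i0} → Set A)
      (S' : Set ({j // j ≠ i0} ⊕ {j // j ≠ i0} → A)), Ess W k B' C' S' := by
  obtain ⟨S, hess, hmin'⟩ := (measure fun S => (YY C i0 S).ncard).wf.has_min
    {S | Ess W k B C S} ⟨S, h⟩
  have hmin : ∀ S', Ess W k B C S' → (YY C i0 S).ncard ≤ (YY C i0 S').ncard :=
    fun S' hS' => not_lt.1 (hmin' S' hS')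
  have hess' := hess
  obtain ⟨hB, hC, hS, hSB, hex, hno⟩ := hess'
  have hYne : (YY C i0 S).Nonempty := by
    obtain ⟨z, hz, hz'⟩ := hex i0
    exact ⟨z i0, z, hz, rfl, hz'⟩
  obtain ⟨a, ha, hamin⟩ := Set.exists_min_image (YY C i0 S)
    (fun b => (gen W (C i0) b).ncard) (Set.toFinite _) hYne
  refine ⟨Sum.elim (fun j : {j // j ≠ i0} => B j) (fun j : {j // j ≠ i0} => B j),
    Sum.elim (fun j : {j // j ≠ i0} => C j) (fun j : {j // j ≠ i0} => C j),
    {t | ∃ s ∈ S, ∃ s' ∈ S, (∀ j : {j // j ≠ i0}, t (Sum.inl j) = s j) ∧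
      (∀ j : {j // j ≠ i0}, t (Sum.inr j) = s' j) ∧ KR W (C i0) a (s i0) (s' i0)},
    ?_, ?_, ?_, ?_, ?_, ?_⟩
  · rintro (j | j)
    · exact hB j
    · exact hB j
  · rintro (j | j)
    · exact hC j
    · exact hC j
  · intro x hx
    choose s hs s' hs' h1 h2 h3 using hx
    refine ⟨(W.pi J).op s, hS s hs, (W.pi J).op s', hS s' hs', fun j => ?_, fun j => ?_, ?_⟩
    · show W.op _ = W.op _
      congr 1
      funext i
      exact h1 i j
    · show W.op _ = W.op _
      congr 1
      funext i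
      exact h2 i j
    · exact KR_op h3
  · rintro t ⟨s, hs, s', hs', h1, h2, -⟩ (j | j)
    · rw [h1]
      exact hSB s hs j
    · rw [h2]
      exact hSB s' hs' j
  · obtain ⟨sa, hsa, hsa1, hsa2⟩ := ha
    rintro (i | i)
    · obtain ⟨s, hs, hs'⟩ := hex i
      refine ⟨Sum.elim (fun j : {j // j ≠ i0} => s j) (fun j : {j // j ≠ i0} => sa j),
        ⟨s, hs, sa, hsa, fun j => rfl, fun j => rfl, ?_⟩, ?_⟩
      · rw [hsa1]
        intro R h1 _ _
        exact (h1 _ (hs' i0 fun h => i.2 h.symm)).2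
      · rintro (j | j) hj
        · exact hs' j fun h => hj (by rw [Subtype.ext h])
        · exact hsa2 j j.2
    · obtain ⟨s, hs, hs'⟩ := hex i
      refine ⟨Sum.elim (fun j : {j // j ≠ i0} => sa j) (fun j : {j // j ≠ i0} => s j),
        ⟨sa, hsa, s, hs, fun j => rfl, fun j => rfl, ?_⟩, ?_⟩
      · rw [hsa1]
        intro R h1 _ _
        exact (h1 _ (hs' i0 fun h => i.2 h.symm)).1
      · rintro (j | j) hj
        · exact hsa2 j j.2
        · exact hs' j fun h => hj (by rw [Subtype.ext h])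
  · rintro ⟨t, ⟨s, hs, s', hs', h1, h2, h3⟩, ht⟩
    refine no_pair hess i0 hmin ha hamin ⟨s, hs, rfl, fun j hj => ?_⟩
      ⟨s', hs', rfl, fun j hj => ?_⟩ h3
    · have := ht (Sum.inl ⟨j, hj⟩)
      rw [h1] at this
      exact this
    · have := ht (Sum.inr ⟨j, hj⟩)
      rw [h2] at this
      exact this

/-- there are no essential relations of arity at least three -/
theorem not_ess [Finite A] [Finite ι] (hι : ∃ i j : ι, i ≠ j) {W : Wnu ι A} {k : ℕ} (n : ℕ) :
    ∀ {J : Type} [Finite J] {B C : J → Set A} {S : Set (J → A)}, 3 ≤ Nat.card J →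
      Nat.card ι ^ k ≤ Nat.card J + n → ¬ Ess W k B C S := by
  induction n with
  | zero =>
    intro J _ B C S _ h
    exact not_ess_of_large hι h
  | succ n ih =>
    intro J _ B C S h3 h hE
    have : Nonempty J := by
      by_contra hJ
      rw [not_nonempty_iff] at hJ
      have : Nat.card J = 0 := Nat.card_of_isEmpty
      omega
    obtain ⟨i0⟩ := ‹Nonempty J›
    obtain ⟨B', C', S', hE'⟩ := ess_double hE i0
    classical
    have hc : Nat.card J = Nat.card {j // j ≠ i0} + 1 := by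
      rw [← Finite.card_option]
      exact (Nat.card_congr (Equiv.optionSubtypeNe i0)).symm
    have hc' : Nat.card ({j // j ≠ i0} ⊕ {j // j ≠ i0}) =
        Nat.card {j // j ≠ i0} + Nat.card {j // j ≠ i0} := Nat.card_sum
    exact ih (by omega) (by omega) hE'

theorem helly [Finite A] [Finite ι] (hι : ∃ i j : ι, i ≠ j) (W : Wnu ι A) {k : ℕ}
    (S : Set (V → A)) (hS : (W.pi V).Sub S) (hne : S.Nonempty) (F : Finset V) (B C : V → Set A)
    (hB : ∀ v ∈ F, W.Sub (B v)) (hSB : ∀ z ∈ S, ∀ v ∈ F, z v ∈ B v)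
    (hC : ∀ v ∈ F, W.Central k (B v) (C v))
    (hp : ∀ u ∈ F, ∀ v ∈ F, ∃ z ∈ S, z u ∈ C u ∧ z v ∈ C v) :
    ∃ z ∈ S, ∀ v ∈ F, z v ∈ C v := by
  classical
  induction hn : F.card using Nat.strong_induction_on generalizing F with
  | _ n ih =>
    by_cases h3 : 3 ≤ F.card
    · by_contra hno
      have hE : Ess W k (J := {v // v ∈ F}) (fun v => B v) (fun v => C v)
          {t | ∃ z ∈ S, ∀ v : {v // v ∈ F}, t v = z v} := by
        refine ⟨fun v => hB v v.2, fun v => hC v v.2, ?_, ?_, ?_, ?_⟩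
        · intro x hx
          choose z hz h using hx
          refine ⟨(W.pi V).op z, hS z hz, fun v => ?_⟩
          show W.op _ = W.op _
          congr 1
          funext i
          exact h i v
        · rintro t ⟨z, hz, ht⟩ v
          rw [ht]
          exact hSB z hz v v.2
        · intro i
          obtain ⟨z, hz, hz'⟩ := ih (F.erase i).card
            (by rw [← hn]; exact Finset.card_erase_lt_of_mem i.2) (F.erase i)
            (fun v hv => hB v (Finset.mem_of_mem_erase hv))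
            (fun z hz v hv => hSB z hz v (Finset.mem_of_mem_erase hv))
            (fun v hv => hC v (Finset.mem_of_mem_erase hv))
            (fun u hu v hv => hp u (Finset.mem_of_mem_erase hu) v (Finset.mem_of_mem_erase hv))
            rfl
          exact ⟨fun v => z v, ⟨z, hz, fun v => rfl⟩, fun j hj =>
            hz' j (Finset.mem_erase.2 ⟨fun h => hj (Subtype.ext h), j.2⟩)⟩
        · rintro ⟨t, ⟨z, hz, ht⟩, h⟩
          refine hno ⟨z, hz, fun v hv => ?_⟩
          have := h ⟨v, hv⟩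
          rw [ht] at this
          exact this
      refine not_ess hι (Nat.card ι ^ k) ?_ (Nat.le_add_left _ _) hE
      rw [Nat.card_eq_fintype_card, Fintype.card_coe]
      exact h3
    · rcases Nat.lt_or_ge F.card 1 with h1 | h1
      · have : F = ∅ := Finset.card_eq_zero.1 (by omega)
        subst this
        obtain ⟨z, hz⟩ := hne
        exact ⟨z, hz, fun v hv => absurd hv (Finset.notMem_empty v)⟩
      · rcases Nat.lt_or_ge F.card 2 with h2 | h2
        · obtain ⟨v, rfl⟩ := Finset.card_eq_one.1 (show F.card = 1 by omega)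
          have hv : v ∈ ({v} : Finset V) := Finset.mem_singleton_self v
          obtain ⟨z, hz, hz', -⟩ := hp v hv v hv
          refine ⟨z, hz, fun u hu => ?_⟩
          rw [Finset.mem_singleton.1 hu]
          exact hz'
        · obtain ⟨u, v, -, rfl⟩ := Finset.card_eq_two.1 (show F.card = 2 by omega)
          obtain ⟨z, hz, hz1, hz2⟩ := hp u (by simp) v (by simp)
          refine ⟨z, hz, fun w hw => ?_⟩
          rcases Finset.mem_insert.1 hw with rfl | hw
          · exact hz1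
          · rw [Finset.mem_singleton.1 hw]
            exact hz2

end Pool.Agent.H62.TP
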