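import Pool.Agent.H62.TP.PowB

/-!
Project TP (MP_cb0c3a_an), row TP-7 (helper29): the image of a central subuniverse under a
relation between two places is central.
-/

set_option autoImplicit false

open Set

namespace Pool.Agent.H62.TP

open Pool.Agent.H62.MC (G Act val Det mem_val)

variable {ι : Type} [DecidableEq ι] {A D P Q V : Type}

theorem image_central {W : Wnu ι A} {S : Set (V → A)} (hS : (W.pi V).Sub S) (u v : V) {k : ℕ}
    {C : Set A} (h : W.Central k (val S u) C) :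
    ∃ k', W.Central k' (val S v) {a | ∃ z ∈ S, z u ∈ C ∧ z v = a} := by
  obtain ⟨hCB, ⟨c, hc⟩, D, hD, W', R, -, hbf, hrel, htot, hcen⟩ := h
  refine ⟨Nat.card (D → D), ?_, ?_, D → D, inferInstance, W'.pi D,
    fun b φ => ∃ z ∈ S, z v = b ∧ ∀ i, R (z u) (φ i), le_rfl, BAFree.pi hbf D, ?_, ?_, ?_⟩
  · rintro a ⟨z, hz, -, rfl⟩
    exact mem_val hz v
  · obtain ⟨z, hz, hzu⟩ := hCB hc
    refine ⟨z v, z, hz, ?_, rfl⟩
    have h1 : z u = c := hzu
    rw [h1]
    exact hc
  · intro x y _ hxy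
    choose z hz hzv hzR using hxy
    refine ⟨(W.pi V).op z, hS z hz, ?_, fun i => ?_⟩
    · show W.op (fun i => z i v) = W.op x
      exact congrArg W.op (funext hzv)
    · exact hrel (fun j => z j u) (fun j => y j i) (fun j => mem_val (hz j) u)
        (fun j => hzR j i)
  · rintro b ⟨z, hz, hzv⟩
    obtain ⟨d, hd⟩ := htot (z u) (mem_val hz u)
    exact ⟨fun _ => d, z, hz, hzv, fun _ => hd⟩
  · intro b _
    constructor
    · rintro ⟨z, hz, hzC, hzv⟩ φ
      exact ⟨z, hz, hzv, fun i => (hcen (z u) (mem_val hz u)).1 hzC (φ i)⟩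
    · intro hall
      obtain ⟨z, hz, hzv, hzR⟩ := hall id
      exact ⟨z, hz, (hcen (z u) (mem_val hz u)).2 hzR, hzv⟩

end Pool.Agent.H62.TP
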