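import Pool.Agent.H62.TP.Dich

/-!
Links between the coordinates of the second kind and the exchange property (MP_cb0c3a_an,
project TP of helper62, row TP-15, helper84).
-/

set_option autoImplicit false

open Set

namespace Pool.Agent.H62.TP

open Pool.Agent.H62.MC (G Act val Det mem_val)

variable {ι : Type} [DecidableEq ι] {A D P Q V : Type}

/-- a coordinate of the second kind which is determined by `F` is determined by one place -/
theorem exists_link {S : Set (V → A)} {E : V → A → A → Prop} {N : V → Prop} {w : V}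
    {z z' : V → A} (hz : z ∈ S) (hz' : z' ∈ S) (hzz : ¬ E w (z w) (z' w))
    (h2 : ¬ IsV1 S E N w) {F : Finset V} (hF : ∀ v ∈ F, N v) (hdet : Det S E F w) :
    ∃ v ∈ F, Det S E {v} w := by
  classical
  induction F using Finset.strongInduction with
  | H F ih =>
    by_cases h : ∃ F' : Finset V, F' ⊂ F ∧ Det S E F' w
    · obtain ⟨F', hF', hd⟩ := h
      obtain ⟨v, hv, hvd⟩ := ih F' hF' (fun v hv => hF v (hF'.1 hv)) hd
      exact ⟨v, hF'.1 hv, hvd⟩
    · push Not at h
      have h1 : ¬ 2 ≤ F.card := fun hc => h2 ⟨F, hF, hc, hdet, h⟩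
      rcases F.eq_empty_or_nonempty with rfl | ⟨i, hi⟩
      · exact absurd (hdet z hz z' hz' (by simp)) hzz
      · have hcard : F.card = 1 := by
          have := Finset.card_pos.2 ⟨i, hi⟩
          omega
        obtain ⟨j, hj⟩ := Finset.card_eq_one.1 hcard
        subst hj
        exact ⟨j, Finset.mem_singleton_self j, hdet⟩

/-- links are symmetric -/
theorem link_symm [Finite A] {W : Wnu ι A} {S : Set (V → A)} (hS : (W.pi V).Sub S)
    {E : V → A → A → Prop} {v w : V} (hv : Nice W S E v) (hw : Nice W S E w)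
    (h : Det S E {v} w) : Det S E {w} v := by
  by_contra hcon
  obtain ⟨_, ⟨x, hx, rfl⟩, _, ⟨y, hy, rfl⟩, hxy⟩ := hw.2.2.proper
  have hF : ∀ u ∈ ({w} : Finset V), Nice W S E u := by
    intro u hu
    rw [Finset.mem_singleton] at hu
    subst hu
    exact hw
  obtain ⟨z, hz, h1, h2⟩ := dichotomy hS hF hv hcon hx (mem_val hy v)
  have h3 := h z hz y hy (by
    intro u hu
    rw [Finset.mem_singleton] at hu
    subst hu
    exact h2)
  exact hxy (hw.2.2.trans _ _ _ (hw.2.2.symm _ _ (h1 w (Finset.mem_singleton_self w))) h3)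

/-- link-consistent values at finitely many coordinates of the second kind are realised -/
theorem realize [Finite A] {W : Wnu ι A} {S : Set (V → A)} (hS : (W.pi V).Sub S)
    (hne : S.Nonempty) {E : V → A → A → Prop} {a : V → A} (F : Finset V)
    (hF : ∀ v ∈ F, Nice W S E v) (h2 : ∀ v ∈ F, ¬ IsV1 S E (Nice W S E) v)
    (ha : ∀ v ∈ F, a v ∈ val S v)
    (hcons : ∀ v ∈ F, ∀ w ∈ F, Det S E {v} w → ∀ z ∈ S, E v (z v) (a v) → E w (z w) (a w)) :
    ∃ z ∈ S, ∀ v ∈ F, E v (z v) (a v) := by
  classical
  induction F using Finset.induction_on with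
  | empty =>
    obtain ⟨z, hz⟩ := hne
    exact ⟨z, hz, by simp⟩
  | insert w F hw ih =>
    obtain ⟨z, hz, hz1⟩ := ih (fun v hv => hF v (Finset.mem_insert_of_mem hv))
      (fun v hv => h2 v (Finset.mem_insert_of_mem hv))
      (fun v hv => ha v (Finset.mem_insert_of_mem hv))
      (fun v hv w hw => hcons v (Finset.mem_insert_of_mem hv) w (Finset.mem_insert_of_mem hw))
    have hnw := hF w (Finset.mem_insert_self _ _)
    by_cases hd : Det S E F w
    · obtain ⟨_, ⟨x, hx, rfl⟩, _, ⟨y, hy, rfl⟩, hxy⟩ := hnw.2.2.proper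
      obtain ⟨v, hv, hvd⟩ := exists_link hx hy hxy (h2 w (Finset.mem_insert_self _ _))
        (fun v hv => hF v (Finset.mem_insert_of_mem hv)) hd
      refine ⟨z, hz, fun u hu => ?_⟩
      rcases Finset.mem_insert.1 hu with rfl | hu
      · exact hcons v (Finset.mem_insert_of_mem hv) u (Finset.mem_insert_self _ _) hvd z hz
          (hz1 v hv)
      · exact hz1 u hu
    · obtain ⟨z', hz', h3, h4⟩ := dichotomy hS
        (fun v hv => hF v (Finset.mem_insert_of_mem hv)) hnw hd hz
        (ha w (Finset.mem_insert_self _ _))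
      refine ⟨z', hz', fun u hu => ?_⟩
      rcases Finset.mem_insert.1 hu with rfl | hu
      · exact h4
      · exact (hF u (Finset.mem_insert_of_mem hu)).2.2.trans _ _ _ (h3 u hu) (hz1 u hu)

/-- the exchange property of the closure operator `Det` -/
theorem exch [Finite A] [DecidableEq V] {W : Wnu ι A} {S : Set (V → A)}
    (hS : (W.pi V).Sub S) {E : V → A → A → Prop} {F : Finset V} (hF : ∀ v ∈ F, Nice W S E v)
    {w i : V} (hw : Nice W S E w) (hi : i ∈ F) (hdet : Det S E F w)
    (hn : ¬ Det S E (F.erase i) w) : Det S E (insert w (F.erase i)) i := by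
  by_contra hcon
  apply hn
  intro z hz z' hz' hzz
  have hF' : ∀ v ∈ insert w (F.erase i), Nice W S E v := by
    intro v hv
    rcases Finset.mem_insert.1 hv with rfl | hv
    · exact hw
    · exact hF v (Finset.mem_of_mem_erase hv)
  obtain ⟨z'', hz'', h1, h2⟩ := dichotomy hS hF' (hF i hi) hcon hz (mem_val hz' i)
  have h3 : E w (z'' w) (z' w) := by
    apply hdet z'' hz'' z' hz'
    intro v hv
    by_cases hvi : v = i
    · subst hvi
      exact h2
    · have hv' : v ∈ F.erase i := Finset.mem_erase.2 ⟨hvi, hv⟩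
      exact (hF v hv).2.2.trans _ _ _ (h1 v (Finset.mem_insert_of_mem hv')) (hzz v hv')
  exact hw.2.2.trans _ _ _ (hw.2.2.symm _ _ (h1 w (Finset.mem_insert_self _ _))) h3

/-- all values are realised at finitely many independent coordinates -/
theorem realize_indep [Finite A] [DecidableEq V] {W : Wnu ι A} {S : Set (V → A)}
    (hS : (W.pi V).Sub S) (hne : S.Nonempty) {E : V → A → A → Prop} {F : Finset V}
    (hF : ∀ v ∈ F, Nice W S E v) (hi : ∀ v ∈ F, ¬ Det S E (F.erase v) v) {a : V → A}
    (ha : ∀ v ∈ F, a v ∈ val S v) : ∃ z ∈ S, ∀ v ∈ F, E v (z v) (a v) := by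
  have key : ∀ F' : Finset V, F' ⊆ F → ∃ z ∈ S, ∀ v ∈ F', E v (z v) (a v) := by
    intro F'
    induction F' using Finset.induction_on with
    | empty =>
      intro _
      obtain ⟨z, hz⟩ := hne
      exact ⟨z, hz, by simp⟩
    | insert w F' hw ih =>
      intro hsub
      have hwF : w ∈ F := hsub (Finset.mem_insert_self _ _)
      have hF' : F' ⊆ F := fun v hv => hsub (Finset.mem_insert_of_mem hv)
      obtain ⟨z, hz, hz1⟩ := ih hF'
      have hnd : ¬ Det S E F' w := by
        intro hd
        apply hi w hwF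
        intro x hx y hy hxy
        apply hd x hx y hy
        intro v hv
        exact hxy v (Finset.mem_erase.2 ⟨fun h => hw (h ▸ hv), hF' hv⟩)
      obtain ⟨z', hz', h1, h2⟩ := dichotomy hS (fun v hv => hF v (hF' hv)) (hF w hwF) hnd hz
        (ha w hwF)
      refine ⟨z', hz', fun u hu => ?_⟩
      rcases Finset.mem_insert.1 hu with rfl | hu
      · exact h2
      · exact (hF u (hF' hu)).2.2.trans _ _ _ (h1 u hu) (hz1 u hu)
  exact key F (Finset.Subset.refl F)

end Pool.Agent.H62.TP
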