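import Pool.Agent.H62.TP.Link

/-!
Pinning the coordinates of the second kind to a periodic pattern (MP_cb0c3a_an, project TP of
helper62, row TP-18, helper75; adapted from MC/Pin.lean and MC/Pin2.lean).
-/

set_option autoImplicit false

open Set

namespace Pool.Agent.H62.TP

open Pool.Agent.H62.MC (G Act val Det mem_val det_shift det_shift_iff link_shift link_trans
  link_apply exists_isolator exists_of_finite isClosed_coord)

variable {ι : Type} [DecidableEq ι] {A V : Type} {d : ℕ} [TopologicalSpace A]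

private theorem nice_shift {W : Wnu ι A} {T : Act d V} {S : Set (V → A)} (hS : Sys W T S)
    {E : V → A → A → Prop} (hEinv : ∀ g v, E (T.T g v) = E v) (g : G d) {v : V}
    (h : Nice W S E v) : Nice W S E (T.T g v) := by
  unfold Nice at h ⊢
  rw [hS.val_eq, hEinv]
  exact h

private theorem isV1_shift {T : Act d V} {S : Set (V → A)} {E : V → A → A → Prop}
    {N : V → Prop} (hinv : ∀ g, ∀ z ∈ S, (fun v => z (T.T g v)) ∈ S)
    (hEinv : ∀ g v, E (T.T g v) = E v) (hN : ∀ g v, N v → N (T.T g v))
    (g : G d) {w : V} (h : IsV1 S E N w) : IsV1 S E N (T.T g w) := by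
  classical
  obtain ⟨F, hF, hcard, hdet, hmin⟩ := h
  have hinj : Function.Injective (T.T g) := by
    intro a b hab
    rw [← T.neg_apply g a, hab, T.neg_apply]
  refine ⟨F.image (T.T g), ?_, ?_, det_shift hinv hEinv g hdet, ?_⟩
  · intro v hv
    obtain ⟨u, hu, rfl⟩ := Finset.mem_image.1 hv
    exact hN g u (hF u hu)
  · rwa [Finset.card_image_of_injective _ hinj]
  · intro F' hF' hd
    have h1 := det_shift hinv hEinv (-g) hd
    rw [T.neg_apply] at h1
    refine hmin (F'.image (T.T (-g))) ?_ h1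
    have h2 : (F.image (T.T g)).image (T.T (-g)) = F := by
      rw [Finset.image_image]
      have h3 : (T.T (-g) ∘ T.T g) = id := funext fun v => T.neg_apply g v
      rw [h3, Finset.image_id]
    have hinj' : Function.Injective (T.T (-g)) := by
      intro a b hab
      have ha := T.neg_apply (-g) a
      have hb := T.neg_apply (-g) b
      rw [← ha, hab, hb]
    rw [← h2]
    refine Finset.ssubset_iff_subset_ne.2 ⟨Finset.image_subset_image hF'.1, fun he => ?_⟩
    exact hF'.2 (by
      rw [Finset.image_injective hinj' he])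

/-- the periods of `S` modulo `E` at `v` -/
private def KK {W : Wnu ι A} {T : Act d V} {S : Set (V → A)} (hS : Sys W T S)
    {E : V → A → A → Prop} (hE : ∀ v, Cong W (val S v) (E v)) (v : V) : AddSubgroup (G d) where
  carrier := {l | ∀ z ∈ S, E v (z (T.T l v)) (z v)}
  zero_mem' := by
    intro z hz
    rw [T.zero]
    exact (hE v).refl _ (mem_val hz v)
  add_mem' := by
    intro l l' hl hl' z hz
    have h1 : E v (z (T.T l' (T.T l v))) (z (T.T l' v)) := hl _ (hS.inv l' z hz)
    rw [← T.add, add_comm] at h1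
    exact (hE v).trans _ _ _ h1 (hl' z hz)
  neg_mem' := by
    intro l hl z hz
    have h1 : E v (z (T.T (-l) (T.T l v))) (z (T.T (-l) v)) := hl _ (hS.inv (-l) z hz)
    rw [T.neg_apply] at h1
    exact (hE v).symm _ _ h1

private theorem mem_KK {W : Wnu ι A} {T : Act d V} {S : Set (V → A)} (hS : Sys W T S)
    {E : V → A → A → Prop} (hE : ∀ v, Cong W (val S v) (E v)) (v : V) (l : G d) :
    l ∈ KK hS hE v ↔ ∀ z ∈ S, E v (z (T.T l v)) (z v) := Iff.rfl

private theorem KK_shift {W : Wnu ι A} {T : Act d V} {S : Set (V → A)} (hS : Sys W T S)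
    {E : V → A → A → Prop} (hE : ∀ v, Cong W (val S v) (E v)) (hEinv : ∀ g v, E (T.T g v) = E v)
    (g : G d) (v : V) : KK hS hE (T.T g v) = KK hS hE v := by
  ext l
  rw [mem_KK, mem_KK]
  constructor
  · intro h z hz
    have h1 : E (T.T g v) (z (T.T (-g) (T.T l (T.T g v)))) (z (T.T (-g) (T.T g v))) :=
      h _ (hS.inv (-g) z hz)
    rw [T.comm l g, T.neg_apply, T.neg_apply, hEinv] at h1
    exact h1
  · intro h z hz
    have h1 : E v (z (T.T g (T.T l v))) (z (T.T g v)) := h _ (hS.inv g z hz)
    rw [T.comm g l] at h1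
    rw [hEinv]
    exact h1

/-- a link of a coordinate with a translate has finite order -/
private theorem exists_order [Finite A] {W : Wnu ι A} {T : Act d V} {S : Set (V → A)}
    (hS : Sys W T S) {E : V → A → A → Prop} (hE : ∀ v, Cong W (val S v) (E v))
    (hEinv : ∀ g v, E (T.T g v) = E v) {v : V} {l : G d} (h : Det S E {v} (T.T l v)) :
    ∃ k : ℕ, 0 < k ∧ k • l ∈ KK hS hE v := by
  classical
  let r : Setoid (val S v) :=
    { r := fun a b => E v a.1 b.1
      iseqv := ⟨fun a => (hE v).refl _ a.2, fun h => (hE v).symm _ _ h,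
        fun h h' => (hE v).trans _ _ _ h h'⟩ }
  let Q := Quotient r
  have hval : ∀ z ∈ S, z (T.T l v) ∈ val S v := fun z hz => by
    rw [← hS.val_eq l v]
    exact mem_val hz _
  let q : ∀ z : V → A, z ∈ S → Q := fun z hz => Quotient.mk r ⟨z v, mem_val hz v⟩
  let pt : val S v → (V → A) := fun a => a.2.choose
  have hpt : ∀ a, pt a ∈ S ∧ (pt a) v = a.1 := fun a => a.2.choose_spec
  let φ : Q → Q := Quotient.lift
    (fun a : val S v => (Quotient.mk r ⟨pt a (T.T l v), hval _ (hpt a).1⟩ : Q)) (by
      intro a b hab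
      apply Quotient.sound
      have h1 := link_apply h (hpt a).1 (hpt b).1 (by
        rw [(hpt a).2, (hpt b).2]
        exact hab)
      rw [hEinv] at h1
      exact h1)
  have hφ : ∀ z (hz : z ∈ S), φ (q z hz) = Quotient.mk r ⟨z (T.T l v), hval z hz⟩ := by
    intro z hz
    apply Quotient.sound
    have h1 := link_apply h (hpt ⟨z v, mem_val hz v⟩).1 hz (by
      rw [(hpt _).2]
      exact (hE v).refl _ (mem_val hz v))
    rw [hEinv] at h1
    exact h1
  have hsurj : Function.Surjective φ := by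
    intro x
    obtain ⟨⟨b, hb⟩, rfl⟩ := Quotient.exists_rep x
    have hb' := hb
    rw [← hS.val_eq l v] at hb'
    obtain ⟨z, hz, hzb⟩ := hb'
    refine ⟨q z hz, ?_⟩
    rw [hφ z hz]
    congr 1
    exact Subtype.ext hzb
  have hbij : Function.Bijective φ := Finite.injective_iff_bijective.1
    (Finite.injective_iff_surjective.2 hsurj)
  let π : Equiv.Perm Q := Equiv.ofBijective φ hbij
  refine ⟨orderOf π, orderOf_pos π, ?_⟩
  rw [mem_KK]
  have key : ∀ n : ℕ, ∀ z (hz : z ∈ S) (h1 : z (T.T (n • l) v) ∈ val S v),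
      (Quotient.mk r ⟨z (T.T (n • l) v), h1⟩ : Q) = (π ^ n) (q z hz) := by
    intro n
    induction n with
    | zero =>
      intro z hz h1
      rw [pow_zero]
      simp only [zero_smul, T.zero]
      rfl
    | succ n ih =>
      intro z hz h1
      have h2 := hS.inv (n • l) z hz
      have h3 : z (T.T (n • l) v) ∈ val S v := mem_val h2 v
      rw [pow_succ', Equiv.Perm.mul_apply, ← ih z hz h3]
      have h4 : π (q _ h2) = Quotient.mk r ⟨z (T.T (n • l) (T.T l v)), hval _ h2⟩ := hφ _ h2
      rw [show (Quotient.mk r ⟨z (T.T (n • l) v), h3⟩ : Q) = q _ h2 from rfl, h4]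
      congr 2
      rw [← T.add, succ_nsmul]
  intro z hz
  have h1 : z (T.T (orderOf π • l) v) ∈ val S v := mem_val (hS.inv _ z hz) v
  have h2 := key (orderOf π) z hz h1
  rw [pow_orderOf_eq_one] at h2
  exact Quotient.exact h2

/-- a common period for all links of coordinates with their translates -/
private theorem exists_N [Finite A] {W : Wnu ι A} {T : Act d V} {S : Set (V → A)}
    (hS : Sys W T S) {E : V → A → A → Prop} (hE : ∀ v, Cong W (val S v) (E v))
    (hEinv : ∀ g v, E (T.T g v) = E v) :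
    ∃ N : ℕ, 0 < N ∧ ∀ v u, Det S E {v} (T.T (N • u) v) → N • u ∈ KK hS hE v := by
  classical
  obtain ⟨F, hF⟩ := T.fin
  choose e he1 he2 using fun w : V => exists_isolator d (KK hS hE w)
  refine ⟨∏ w ∈ F, e w, Finset.prod_pos fun w _ => he1 w, fun v u h => ?_⟩
  obtain ⟨g, w, hw, rfl⟩ := hF v
  obtain ⟨k, hk, hk2⟩ := exists_order hS hE hEinv h
  rw [KK_shift hS hE hEinv] at hk2 ⊢
  have h1 : e w • u ∈ KK hS hE w := by
    refine he2 w u ⟨k * ∏ w ∈ F, e w, Nat.mul_pos hk (Finset.prod_pos fun w _ => he1 w), ?_⟩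
    rw [mul_smul]
    exact hk2
  obtain ⟨c, hc⟩ := Finset.dvd_prod_of_mem e hw
  rw [hc, mul_comm, mul_smul]
  exact AddSubgroup.nsmul_mem _ h1 c

/-- The coordinates of the second kind can be pinned to a periodic pattern. -/
theorem pin2 [Finite A] [DiscreteTopology A] {W : Wnu ι A}
    {T : Act d V} {S : Set (V → A)} (hS : Sys W T S) {E : V → A → A → Prop}
    (hE : ∀ v, Cong W (val S v) (E v)) (hEinv : ∀ g v, E (T.T g v) = E v) :
    ∃ (N : ℕ) (hN : 0 < N) (S' : Set (V → A)), S' ⊆ S ∧ Sys W (T.pow N hN) S' ∧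
      ∀ z ∈ S', ∀ z' ∈ S', ∀ v, Nice W S E v → ¬ IsV1 S E (Nice W S E) v →
        E v (z v) (z' v) := by
  classical
  obtain ⟨N, hN, hNK⟩ := exists_N hS hE hEinv
  obtain ⟨s, hs⟩ := hS.ne
  -- shifting the kinds of coordinates
  have hnice : ∀ g v, Nice W S E v → Nice W S E (T.T g v) :=
    fun g v h => nice_shift hS hEinv g h
  have hshift : ∀ (g : G d) {v : V}, (Nice W S E v ∧ ¬ IsV1 S E (Nice W S E) v) →
      (Nice W S E (T.T g v) ∧ ¬ IsV1 S E (Nice W S E) (T.T g v)) := by
    intro g v h
    refine ⟨hnice g v h.1, fun h1 => h.2 ?_⟩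
    have := isV1_shift hS.inv hEinv hnice (-g) h1
    rwa [T.neg_apply] at this
  -- two translates which are linked with the same coordinate
  have core : ∀ {ρ α β : V} {t : G d}, (Nice W S E ρ ∧ ¬ IsV1 S E (Nice W S E) ρ) →
      (Nice W S E α ∧ ¬ IsV1 S E (Nice W S E) α) → Det S E {ρ} α →
      Det S E {ρ} β → β = T.T (N • t) α → ∀ z ∈ S, E α (z β) (z α) := by
    rintro ρ α β t hρ hα h1 h2 rfl z hz
    have h3 := link_trans (link_symm hS.sub hρ.1 hα.1 h1) h2
    exact hNK α t h3 z hz
  let P := {v : V // Nice W S E v ∧ ¬ IsV1 S E (Nice W S E) v}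
  have hrefl : ∀ v : V, Det S E {v} v := fun v z _ z' _ h => h v (Finset.mem_singleton_self v)
  let r : Setoid P :=
    { r := fun v w => ∃ u : G d, Det S E {T.T (N • u) v.1} w.1
      iseqv := by
        refine ⟨fun v => ⟨0, ?_⟩, ?_, ?_⟩
        · rw [smul_zero, T.zero]
          exact hrefl _
        · rintro v w ⟨u, hu⟩
          have h1 := link_symm hS.sub (hshift (N • u) v.2).1 w.2.1 hu
          have h2 := link_shift hS.inv hEinv (-(N • u)) h1
          rw [T.neg_apply, ← smul_neg] at h2
          exact ⟨-u, h2⟩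
        · rintro v w x ⟨u, hu⟩ ⟨u', hu'⟩
          have h1 := link_shift hS.inv hEinv (N • u') hu
          rw [← T.add, ← smul_add] at h1
          exact ⟨u' + u, link_trans h1 hu'⟩ }
  let rep : P → P := fun w => (Quotient.mk r w).out
  have hrep : ∀ w : P, ∃ u : G d, Det S E {T.T (N • u) (rep w).1} w.1 :=
    fun w => Quotient.exact (Quotient.out_eq (Quotient.mk r w))
  have hrep_eq : ∀ {v w : P} (u : G d), Det S E {T.T (N • u) v.1} w.1 → rep v = rep w := by
    intro v w u h
    have h1 : Quotient.mk r v = Quotient.mk r w := Quotient.sound ⟨u, h⟩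
    simp only [rep, h1]
  choose u hu using hrep
  let α : P → V := fun w => T.T (-(N • u w)) w.1
  have hα : ∀ w, Det S E {(rep w).1} (α w) := by
    intro w
    have h1 := link_shift hS.inv hEinv (-(N • u w)) (hu w)
    rwa [T.neg_apply] at h1
  have hαP : ∀ w, Nice W S E (α w) ∧ ¬ IsV1 S E (Nice W S E) (α w) := fun w => hshift _ w.2
  have hEα : ∀ w : P, E (α w) = E w.1 := fun w => hEinv _ _
  let a : V → A := fun v => if h : Nice W S E v ∧ ¬ IsV1 S E (Nice W S E) v then
    s (α ⟨v, h⟩) else s v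
  have ha : ∀ w : P, a w.1 = s (α w) := fun w => dif_pos w.2
  have haval : ∀ w : P, a w.1 ∈ val S w.1 := by
    intro w
    rw [ha, ← hS.val_eq (-(N • u w)) w.1]
    exact mem_val hs _
  -- consistency along links
  have hcons : ∀ v w : P, Det S E {v.1} w.1 → ∀ z ∈ S, E v.1 (z v.1) (a v.1) →
      E w.1 (z w.1) (a w.1) := by
    intro v w hvw z hz hzv
    have hr : rep v = rep w := hrep_eq 0 (by rw [smul_zero, T.zero]; exact hvw)
    have h1 := link_shift hS.inv hEinv (-(N • u v)) hvw
    have h2 : Det S E {(rep w).1} (T.T (-(N • u v)) w.1) := by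
      rw [← hr]
      exact link_trans (hα v) h1
    have h3 : E (α w) (s (T.T (-(N • u v)) w.1)) (s (α w)) := by
      refine core (rep w).2 (hαP w) (hα w) h2 (t := u w - u v) ?_ s hs
      simp only [α]
      rw [← T.add, smul_sub]
      congr 1
      abel
    rw [hEα] at h3
    have h4 := hS.inv (-(N • u v)) s hs
    rw [ha] at hzv
    have h5 : E w.1 (z w.1) (s (T.T (-(N • u v)) w.1)) := link_apply hvw hz h4 hzv
    rw [ha]
    exact (hE _).trans _ _ _ h5 h3
  -- periodicity
  have hper : ∀ (w : P) (t : G d), E w.1 (a (T.T (N • t) w.1)) (a w.1) := by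
    intro w t
    let w' : P := ⟨T.T (N • t) w.1, hshift _ w.2⟩
    have hr : rep w = rep w' := hrep_eq t (hrefl _)
    have h2 : Det S E {(rep w).1} (α w') := by
      rw [hr]
      exact hα w'
    have h3 : E (α w) (s (α w')) (s (α w)) := by
      refine core (rep w).2 (hαP w) (hα w) h2 (t := t - u w' + u w) ?_ s hs
      simp only [α, w']
      rw [← T.add, ← T.add, smul_add, smul_sub]
      congr 1
      abel
    rw [hEα] at h3
    rw [ha w, show a (T.T (N • t) w.1) = s (α w') from ha w']
    exact h3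
  refine ⟨N, hN, {z | z ∈ S ∧ ∀ w : P, E w.1 (z w.1) (a w.1)}, fun z hz => hz.1, ?_, ?_⟩
  · refine ⟨?_, ?_, ?_, ?_⟩
    · obtain ⟨z, hz, h1⟩ := exists_of_finite hS.closed
        (fun w : P => {z : V → A | E w.1 (z w.1) (a w.1)})
        (fun w => isClosed_coord w.1 fun x => E w.1 x (a w.1)) (by
          intro F
          obtain ⟨z, hz, h1⟩ := realize hS.sub hS.ne (a := a) (F.image Subtype.val)
            (by
              intro v hv
              obtain ⟨w, -, rfl⟩ := Finset.mem_image.1 hv
              exact w.2.1)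
            (by
              intro v hv
              obtain ⟨w, -, rfl⟩ := Finset.mem_image.1 hv
              exact w.2.2)
            (by
              intro v hv
              obtain ⟨w, -, rfl⟩ := Finset.mem_image.1 hv
              exact haval w)
            (by
              intro v hv x hx
              obtain ⟨v, -, rfl⟩ := Finset.mem_image.1 hv
              obtain ⟨x, -, rfl⟩ := Finset.mem_image.1 hx
              exact hcons v x)
          exact ⟨z, hz, fun w hw => h1 w.1 (Finset.mem_image_of_mem _ hw)⟩)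
      exact ⟨z, hz, h1⟩
    · have h1 : {z : V → A | z ∈ S ∧ ∀ w : P, E w.1 (z w.1) (a w.1)} =
          S ∩ ⋂ w : P, {z : V → A | E w.1 (z w.1) (a w.1)} := by
        ext z
        simp only [mem_ofPred_eq, mem_inter_iff, mem_iInter]
      rw [h1]
      exact hS.closed.inter (isClosed_iInter fun w =>
        isClosed_coord w.1 fun x => E w.1 x (a w.1))
    · intro x hx
      refine ⟨hS.sub x fun i => (hx i).1, fun w => ?_⟩
      have h1 := (hE w.1).comp (fun i => x i w.1) (fun _ => a w.1) fun i => (hx i).2 w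
      rw [W.idem] at h1
      exact h1
    · rintro g z ⟨hz, hz'⟩
      refine ⟨hS.inv (N • g) z hz, fun w => ?_⟩
      have h1 := hz' ⟨T.T (N • g) w.1, hshift _ w.2⟩
      simp only at h1
      rw [hEinv] at h1
      exact (hE _).trans _ _ _ h1 (hper w g)
  · rintro z ⟨-, hz⟩ z' ⟨-, hz'⟩ v hv hv'
    exact (hE v).trans _ _ _ (hz ⟨v, hv, hv'⟩) ((hE v).symm _ _ (hz' ⟨v, hv, hv'⟩))

end Pool.Agent.H62.TP
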