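import Pool.Agent.H62.TP.Defs

/-!
Project TP (MP_cb0c3a_an), row TP-11: pinning the coordinates whose alphabet has a proper binary
absorbing subuniverse.
-/

set_option autoImplicit false

open Set

namespace Pool.Agent.H62.TP

open Pool.Agent.H62.MC (G Act val Det mem_val exists_of_finite isClosed_coord)

variable {ι : Type} [DecidableEq ι] {A D P Q V : Type}

theorem pinB_eval_mem (W : Wnu ι D) {C : Set D} (hC : W.Sub C) (t : Tm ι) {x y : D} (hx : x ∈ C)
    (hy : y ∈ C) : W.eval t x y ∈ C := by
  induction t with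
  | fst => exact hx
  | snd => exact hy
  | app f ih =>
    rw [Wnu.eval]
    exact hC _ fun i => ih i

theorem pinB_eval_pi (W : Wnu ι A) (t : Tm ι) (x y : V → A) (v : V) :
    (W.pi V).eval t x y v = W.eval t (x v) (y v) := by
  induction t with
  | fst => rfl
  | snd => rfl
  | app f ih =>
    rw [Wnu.eval, Wnu.eval]
    exact congrArg W.op (funext fun i => ih i)

theorem pinB [Finite A] [TopologicalSpace A] [DiscreteTopology A] {W : Wnu ι A} {d : ℕ}
    {T : Act d V} {S : Set (V → A)} (hS : Sys W T S) {t : Tm ι} {B C : Set A}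
    (hC : W.BinAbs t B C) (hBC : ¬ B ⊆ C) :
    ∃ S' : Set (V → A), S' ⊆ S ∧ Sys W T S' ∧ ∀ v, val S v = B → ¬ val S v ⊆ val S' v := by
  classical
  obtain ⟨hCB, ⟨c, hc⟩, hCs, habs⟩ := hC
  obtain ⟨s, hs⟩ := hS.ne
  refine ⟨{z | z ∈ S ∧ ∀ v : {v : V // val S v = B}, z v.1 ∈ C}, fun z hz => hz.1, ?_, ?_⟩
  · refine ⟨?_, ?_, ?_, ?_⟩
    · obtain ⟨z, hz, h1⟩ := exists_of_finite hS.closed
        (fun v : {v : V // val S v = B} => {z : V → A | z v.1 ∈ C})
        (fun v => isClosed_coord v.1 fun x => x ∈ C) (by
          intro F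
          induction F using Finset.induction_on with
          | empty => exact ⟨s, hs, fun i hi => absurd hi (Finset.notMem_empty i)⟩
          | insert a F ha ih =>
            obtain ⟨z, hz, h1⟩ := ih
            have h2 : c ∈ val S a.1 := by
              rw [a.2]
              exact hCB hc
            obtain ⟨z', hz', h3⟩ := h2
            have hmem : ∀ (x : V → A), x ∈ S → ∀ u : {v : V // val S v = B}, x u.1 ∈ B := by
              intro x hx u
              exact u.2.subset (mem_val hx u.1)
            refine ⟨(W.pi V).eval t z z', pinB_eval_mem _ hS.sub t hz hz', ?_⟩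
            intro u hu
            show (W.pi V).eval t z z' u.1 ∈ C
            rw [pinB_eval_pi]
            rcases Finset.mem_insert.1 hu with rfl | hu
            · have h4 : z' u.1 ∈ C := by
                have h5 : z' u.1 = c := h3
                rw [h5]
                exact hc
              exact (habs _ h4 _ (hmem z hz u)).2
            · exact (habs _ (h1 u hu) _ (hmem z' hz' u)).1)
      exact ⟨z, hz, h1⟩
    · have h1 : {z : V → A | z ∈ S ∧ ∀ v : {v : V // val S v = B}, z v.1 ∈ C} =
          S ∩ ⋂ v : {v : V // val S v = B}, {z : V → A | z v.1 ∈ C} := by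
        ext z
        exact ⟨fun h => ⟨h.1, mem_iInter.2 h.2⟩, fun h => ⟨h.1, mem_iInter.1 h.2⟩⟩
      rw [h1]
      exact hS.closed.inter (isClosed_iInter fun v => isClosed_coord v.1 fun x => x ∈ C)
    · intro x hx
      refine ⟨hS.sub x fun i => (hx i).1, fun v => ?_⟩
      exact hCs _ fun i => (hx i).2 v
    · intro g z hz
      refine ⟨hS.inv g z hz.1, fun v => ?_⟩
      exact hz.2 ⟨T.T g v.1, by rw [hS.val_eq, v.2]⟩
  · intro v hv h
    apply hBC
    rw [← hv]
    intro x hx
    obtain ⟨z, hz, rfl⟩ := h hx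
    exact hz.2 ⟨v, hv⟩

end Pool.Agent.H62.TP
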