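import Pool.Agent.H62.TP.Defs
import Pool.Agent.H62.MC.Affine

/-!
Pinning the affine coordinates modulo `p` to a periodic pattern (MP_cb0c3a_an, row TP-19).
-/

set_option autoImplicit false

open Set

namespace Pool.Agent.H62.TP

open Pool.Agent.H62.MC (G Act val Det mem_val affine_periodic exists_of_finite isClosed_coord)

variable {ι : Type} [DecidableEq ι] {A D P Q V : Type}

namespace PinPAux

theorem tk_mem' (W : Wnu ι D) {C : Set D} (hC : W.Sub C) (k : ℕ) (x : (Fin k → ι) → D)
    (hx : ∀ u, x u ∈ C) : W.tk k x ∈ C := by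
  induction k with
  | zero => exact hx _
  | succ k ih => exact hC _ fun i => ih _ fun u => hx _

theorem tk_pi' (W : Wnu ι A) (k : ℕ) (x : (Fin k → ι) → V → A) (v : V) :
    (W.pi V).tk k x v = W.tk k fun u => x u v := by
  induction k with
  | zero => rfl
  | succ k ih =>
    show W.op (fun i => (W.pi V).tk k (fun u => x (Fin.cons i u)) v) =
      W.op fun i => W.tk k fun u => x (Fin.cons i u) v
    congr 1
    funext i
    exact ih _

theorem sub_val' {W : Wnu ι A} {S : Set (V → A)} (hS : (W.pi V).Sub S) (v : V) :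
    W.Sub (val S v) := by
  intro x hx
  choose z hz hzx using hx
  refine ⟨_, hS z hz, ?_⟩
  show W.op (fun i => z i v) = W.op x
  congr 1
  funext i
  exact hzx i

/-- the label of an iterated product -/
theorem lab_tk [Fintype ι] {p : ℕ} {W : Wnu ι A} {B : Set A} (hB : W.Sub B) (lab : A → ZMod p)
    (hlab : ∀ x : ι → A, (∀ i, x i ∈ B) →
      (Fintype.card ι : ZMod p) * lab (W.op x) = ∑ i, lab (x i)) (k : ℕ) :
    ∀ x : (Fin k → ι) → A, (∀ u, x u ∈ B) →
      (Fintype.card ι : ZMod p) ^ k * lab (W.tk k x) = ∑ u, lab (x u) := by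
  induction k with
  | zero =>
    intro x _
    rw [pow_zero, one_mul, Fintype.sum_eq_single (fun i : Fin 0 => (i.elim0 : ι))]
    · rfl
    · intro u hu
      exact absurd (funext fun i => i.elim0) hu
  | succ k ih =>
    intro x hx
    rw [pow_succ, mul_assoc]
    show (Fintype.card ι : ZMod p) ^ k * ((Fintype.card ι : ZMod p) *
      lab (W.op fun i => W.tk k fun u => x (Fin.cons i u))) = _
    rw [hlab _ fun i => tk_mem' W hB k _ fun u => hx _, Finset.mul_sum]
    have h1 : ∀ i : ι, (Fintype.card ι : ZMod p) ^ k *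
        lab (W.tk k fun u => x (Fin.cons i u)) = ∑ u : Fin k → ι, lab (x (Fin.cons i u)) :=
      fun i => ih _ fun u => hx _
    rw [Finset.sum_congr rfl fun i _ => h1 i, ← Fintype.sum_prod_type'
      (fun (i : ι) (u : Fin k → ι) => lab (x (Fin.cons i u)))]
    exact Fintype.sum_equiv (Fin.consEquiv fun _ : Fin (k + 1) => ι) _ _ fun _ => rfl

theorem sum_three {R : Type} [CommRing R] (p m : ℕ) (hp : 1 ≤ p) (a b c : R) :
    ∑ j ∈ Finset.range (p + m), (if j < 1 then a else if j < p then b else c) =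
      a + ((p : R) - 1) * b + (m : R) * c := by
  obtain ⟨q, rfl⟩ := Nat.exists_eq_add_of_le hp
  rw [Finset.sum_range_add, Finset.sum_range_add]
  have e1 : ∑ j ∈ Finset.range 1, (if j < 1 then a else if j < 1 + q then b else c) = a := by
    simp
  have e2 : ∑ j ∈ Finset.range q, (if 1 + j < 1 then a else if 1 + j < 1 + q then b else c) =
      (q : R) * b := by
    rw [Finset.sum_congr rfl (g := fun _ => b)]
    · rw [Finset.sum_const, Finset.card_range, nsmul_eq_mul]
    · intro j hj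
      rw [Finset.mem_range] at hj
      rw [if_neg (by omega), if_pos (by omega)]
  have e3 : ∑ j ∈ Finset.range m, (if 1 + q + j < 1 then a else if 1 + q + j < 1 + q then b
      else c) = (m : R) * c := by
    rw [Finset.sum_congr rfl (g := fun _ => c)]
    · rw [Finset.sum_const, Finset.card_range, nsmul_eq_mul]
    · intro j _
      rw [if_neg (by omega), if_neg (by omega)]
  rw [e1, e2, e3]
  push_cast
  ring

omit [DecidableEq ι] in
/-- the iterated operation with three arguments, modulo `p`, is `x - y + z` -/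
theorem exists_word [Fintype ι] (p : ℕ) [Fact p.Prime] (hp : ¬ p ∣ Fintype.card ι)
    (h2 : 2 ≤ Fintype.card ι) :
    ∃ (k : ℕ) (c : (Fin k → ι) → Fin 3), (Fintype.card ι : ZMod p) ^ k = 1 ∧
      ∀ l : Fin 3 → ZMod p, ∑ u, l (c u) = l 0 - l 1 + l 2 := by
  have hpp : p.Prime := Fact.out
  have hn : (Fintype.card ι : ZMod p) ≠ 0 := by
    rwa [Ne, ZMod.natCast_eq_zero_iff]
  set k : ℕ := (p - 1) * p with hk
  have h1 : (Fintype.card ι : ZMod p) ^ k = 1 := by
    rw [hk, pow_mul, ZMod.pow_card_sub_one_eq_one hn, one_pow]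
  have h3 : p ≤ Fintype.card ι ^ k := by
    calc p ≤ 2 ^ p := (Nat.lt_two_pow_self).le
      _ ≤ 2 ^ k := Nat.pow_le_pow_right (by norm_num) (by
          rw [hk]
          exact Nat.le_mul_of_pos_left p (by have := hpp.two_le; omega))
      _ ≤ Fintype.card ι ^ k := Nat.pow_le_pow_left h2 k
  have hcard : Fintype.card (Fin k → ι) = Fintype.card ι ^ k := by
    rw [Fintype.card_fun, Fintype.card_fin]
  obtain ⟨m, hm⟩ := Nat.exists_eq_add_of_le h3
  let e : (Fin k → ι) ≃ Fin (p + m) :=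
    Fintype.equivFinOfCardEq (hcard.trans hm)
  refine ⟨k, fun u => if (e u).1 < 1 then 2 else if (e u).1 < p then 1 else 0, h1, ?_⟩
  intro l
  have h4 : ∑ u, l (if (e u).1 < 1 then 2 else if (e u).1 < p then 1 else 0) =
      ∑ j : Fin (p + m), (if j.1 < 1 then l 2 else if j.1 < p then l 1 else l 0) := by
    refine Fintype.sum_equiv e _ _ fun u => ?_
    split_ifs <;> rfl
  rw [h4, Fin.sum_univ_eq_sum_range
    (fun j => if j < 1 then l 2 else if j < p then l 1 else l 0), sum_three p m hpp.one_le]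
  have h5 : (m : ZMod p) = 1 := by
    have h6 : ((Fintype.card ι ^ k : ℕ) : ZMod p) = ((p + m : ℕ) : ZMod p) := by rw [hm]
    rw [Nat.cast_pow, h1, Nat.cast_add, ZMod.natCast_self, zero_add] at h6
    exact h6.symm
  rw [h5, ZMod.natCast_self]
  ring

/-- pinning for labels defined at all places -/
theorem pinP_aux [Finite A] [Fintype ι] [TopologicalSpace A] [DiscreteTopology A] {W : Wnu ι A}
    {d : ℕ} {T : Act d V} {S : Set (V → A)} (hS : Sys W T S) (p : ℕ) [Fact p.Prime]
    (hp : ¬ p ∣ Fintype.card ι) (h2 : 2 ≤ Fintype.card ι)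
    (lab : V → A → ZMod p) (hinv : ∀ g v, lab (T.T g v) = lab v)
    (hlab : ∀ v, ∀ x : ι → A, (∀ i, x i ∈ val S v) →
      (Fintype.card ι : ZMod p) * lab v (W.op x) = ∑ i, lab v (x i)) :
    ∃ (M : ℕ) (hM : 0 < M) (S' : Set (V → A)), S' ⊆ S ∧ Sys W (T.pow M hM) S' ∧
      ∀ z ∈ S', ∀ z' ∈ S', ∀ v, lab v (z v) = lab v (z' v) := by
  classical
  obtain ⟨F, hF⟩ := T.fin
  let w : Fin F.card → V := fun j => (F.equivFin.symm j).1
  have hw : ∀ v, ∃ g j, v = T.T g (w j) := by
    intro v
    obtain ⟨g, x, hx, hv⟩ := hF v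
    refine ⟨g, F.equivFin ⟨x, hx⟩, ?_⟩
    simp only [w, Equiv.symm_apply_apply]
    exact hv
  let f : (V → A) → (G d → Fin F.card → ZMod p) := fun z g j => lab (w j) (z (T.T g (w j)))
  have hfcl : ∀ (t : G d → Fin F.card → ZMod p) (q : G d × Fin F.card),
      IsClosed {z : V → A | f z q.1 q.2 = t q.1 q.2} := fun t q =>
    isClosed_coord (T.T q.1 (w q.2)) fun x => lab (w q.2) x = t q.1 q.2
  have hn : (Fintype.card ι : ZMod p) ≠ 0 := by
    rwa [Ne, ZMod.natCast_eq_zero_iff]
  have hlab' : ∀ g j, ∀ x : ι → A, (∀ i, x i ∈ val S (T.T g (w j))) →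
      (Fintype.card ι : ZMod p) * lab (w j) (W.op x) = ∑ i, lab (w j) (x i) := by
    intro g j x hx
    have h1 := hlab (T.T g (w j)) x hx
    rwa [hinv] at h1
  obtain ⟨k, c, hk, hc⟩ := exists_word p hp h2
  have hfm : ∀ x : Fin 3 → V → A, (∀ i, x i ∈ S) → ∀ g j,
      f ((W.pi V).tk k fun u => x (c u)) g j = f (x 0) g j - f (x 1) g j + f (x 2) g j := by
    intro x hx g j
    simp only [f]
    rw [tk_pi']
    have h1 := lab_tk (sub_val' hS.sub (T.T g (w j))) (lab (w j)) (hlab' g j) k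
      (fun u => x (c u) (T.T g (w j))) fun u => mem_val (hx _) _
    rw [hk, one_mul] at h1
    rw [h1]
    exact hc fun i => lab (w j) (x i (T.T g (w j)))
  obtain ⟨r, t, ⟨s, hs, hst⟩, hper⟩ := affine_periodic d F.card p (f '' S) (hS.ne.image f)
    (by
      intro t ht
      obtain ⟨z, hz, h1⟩ := exists_of_finite hS.closed
        (fun q : G d × Fin F.card => {z : V → A | f z q.1 q.2 = t q.1 q.2}) (hfcl t) (by
          intro I
          obtain ⟨_, ⟨z, hz, rfl⟩, h1⟩ := ht (I.image Prod.fst)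
          refine ⟨z, hz, fun q hq => ?_⟩
          have h2 := h1 q.1 (Finset.mem_image_of_mem _ hq)
          exact congrFun h2 q.2)
      refine ⟨z, hz, ?_⟩
      funext g j
      exact h1 (g, j))
    (by
      rintro _ ⟨x, hx, rfl⟩ _ ⟨y, hy, rfl⟩ _ ⟨z, hz, rfl⟩
      have hxyz : ∀ i : Fin 3, (![x, y, z] : Fin 3 → V → A) i ∈ S := by
        intro i
        fin_cases i
        · exact hx
        · exact hy
        · exact hz
      refine ⟨(W.pi V).tk k fun u => (![x, y, z] : Fin 3 → V → A) (c u),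
        tk_mem' _ hS.sub k _ fun u => hxyz _, ?_⟩
      funext g j
      exact hfm _ hxyz g j)
    (by
      rintro g _ ⟨z, hz, rfl⟩
      refine ⟨_, hS.inv g z hz, ?_⟩
      funext h j
      simp only [f]
      rw [← T.add, add_comm])
  have hN : 0 < p ^ r := pow_pos (Fact.out : p.Prime).pos r
  refine ⟨p ^ r, hN, {z | z ∈ S ∧ ∀ q : G d × Fin F.card, f z q.1 q.2 = t q.1 q.2},
    fun z hz => hz.1, ⟨?_, ?_, ?_, ?_⟩, ?_⟩
  · exact ⟨s, hs, fun q => by rw [hst]⟩
  · have h1 : {z : V → A | z ∈ S ∧ ∀ q : G d × Fin F.card, f z q.1 q.2 = t q.1 q.2} =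
        S ∩ ⋂ q : G d × Fin F.card, {z : V → A | f z q.1 q.2 = t q.1 q.2} := by
      ext z
      simp only [mem_ofPred_eq, mem_inter_iff, mem_iInter]
    rw [h1]
    exact hS.closed.inter (isClosed_iInter (hfcl t))
  · intro x hx
    refine ⟨hS.sub x fun i => (hx i).1, fun q => ?_⟩
    have h1 := hlab' q.1 q.2 (fun i => x i (T.T q.1 (w q.2))) fun i => mem_val (hx i).1 _
    have h3 : ∀ i, lab (w q.2) (x i (T.T q.1 (w q.2))) = t q.1 q.2 := fun i => (hx i).2 q
    rw [Finset.sum_congr rfl fun i _ => h3 i, Finset.sum_const, Finset.card_univ,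
      nsmul_eq_mul] at h1
    exact mul_left_cancel₀ hn h1
  · rintro g z ⟨hz, hz'⟩
    refine ⟨hS.inv ((p ^ r) • g) z hz, fun q => ?_⟩
    have h1 := hz' (q.1 + (p ^ r) • g, q.2)
    simp only at h1
    rw [hper] at h1
    rw [← h1]
    simp only [f, MC.Act.pow]
    rw [← T.add, add_comm]
  · rintro z ⟨-, hz⟩ z' ⟨-, hz'⟩ v
    obtain ⟨g, j, rfl⟩ := hw v
    rw [hinv]
    have h1 := hz (g, j)
    have h2 := hz' (g, j)
    exact h1.trans h2.symm

end PinPAux

open PinPAux in
/-- pinning for labels defined at the places satisfying `N` -/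
theorem pinP [Finite A] [Fintype ι] [TopologicalSpace A] [DiscreteTopology A] {W : Wnu ι A}
    {d : ℕ} {T : Act d V} {S : Set (V → A)} (hS : Sys W T S) (p : ℕ) [Fact p.Prime]
    (hp : ¬ p ∣ Fintype.card ι) (h2 : 2 ≤ Fintype.card ι) (N : V → Prop)
    (hN : ∀ g v, N v → N (T.T g v)) (lam : V → A → ZMod p)
    (hinv : ∀ g v, N v → lam (T.T g v) = lam v)
    (hlam : ∀ v, N v → ∀ x : ι → A, (∀ i, x i ∈ val S v) →
      (Fintype.card ι : ZMod p) * lam v (W.op x) = ∑ i, lam v (x i)) :
    ∃ (M : ℕ) (hM : 0 < M) (S' : Set (V → A)), S' ⊆ S ∧ Sys W (T.pow M hM) S' ∧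
      ∀ z ∈ S', ∀ z' ∈ S', ∀ v, N v → lam v (z v) = lam v (z' v) := by
  classical
  obtain ⟨M, hM, S', h1, h3, h4⟩ := pinP_aux hS p hp h2 (fun v x => if N v then lam v x else 0)
    (by
      intro g v
      funext x
      by_cases hv : N v
      · rw [if_pos hv, if_pos (hN g v hv), hinv g v hv]
      · have hv' : ¬ N (T.T g v) := fun h => hv (by
          have := hN (-g) _ h
          rwa [T.neg_apply] at this)
        rw [if_neg hv, if_neg hv'])
    (by
      intro v x hx
      by_cases hv : N v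
      · simp only [if_pos hv]
        exact hlam v hv x hx
      · simp only [if_neg hv, mul_zero, Finset.sum_const_zero])
  refine ⟨M, hM, S', h1, h3, fun z hz z' hz' v hv => ?_⟩
  have := h4 z hz z' hz' v
  simpa only [if_pos hv] using this

end Pool.Agent.H62.TP
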