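import Pool.Agent.H62.TP.Defs

/-!
Project TP (MP_cb0c3a_an), row TP-12: maximal congruences and simple quotients (helper6).
-/

set_option autoImplicit false

open Set

namespace Pool.Agent.H62.TP

open Pool.Agent.H62.MC (G Act val Det mem_val)

variable {ι : Type} [DecidableEq ι] {A D P Q V : Type}

private theorem quot_eq_cong (W : Wnu ι A) {B : Set A} (hB : W.Sub B) :
    Cong W B (fun a b => a ∈ B ∧ a = b) where
  left := fun a b h => h.1
  right := fun a b h => h.2 ▸ h.1
  refl := fun a h => ⟨h, rfl⟩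
  symm := fun a b h => ⟨h.2 ▸ h.1, h.2.symm⟩
  trans := fun a b c h h' => ⟨h.1, h.2.trans h'.2⟩
  comp := by
    intro x y h
    have hxy : x = y := funext fun i => (h i).2
    subst hxy
    exact ⟨hB x fun i => (h i).1, rfl⟩

theorem exists_maxCong [Finite A] (W : Wnu ι A) {B : Set A} (hB : W.Sub B)
    (hne : B.Nontrivial) : ∃ E : A → A → Prop, MaxCong W B E := by
  let S : Set (A → A → Prop) := {E | Cong W B E ∧ ∃ a ∈ B, ∃ b ∈ B, ¬ E a b}
  have hS : S.Nonempty := by
    obtain ⟨a, ha, b, hb, hab⟩ := hne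
    exact ⟨fun a b => a ∈ B ∧ a = b, quot_eq_cong W hB, a, ha, b, hb, fun h => hab h.2⟩
  obtain ⟨E, hE, hmax⟩ := (Set.toFinite S).exists_maximal hS
  refine ⟨E, { hE.1 with proper := hE.2, maximal := ?_ }⟩
  intro E' hE' hle
  by_cases h : ∃ a ∈ B, ∃ b ∈ B, ¬ E' a b
  · left
    have h1 : E' ∈ S := ⟨hE', h⟩
    have h2 := hmax h1 (fun a b => hle a b)
    exact fun a b => h2 a b
  · right
    intro a ha b hb
    by_contra hc
    exact h ⟨a, ha, b, hb, hc⟩

private theorem quot_eval_mem (W : Wnu ι D) {C : Set D} (hC : W.Sub C) (t : Tm ι) {x y : D}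
    (hx : x ∈ C) (hy : y ∈ C) : W.eval t x y ∈ C := by
  induction t with
  | fst => exact hx
  | snd => exact hy
  | app f ih => exact hC _ fun i => ih i

private theorem quot_eval_hom {W : Wnu ι A} {WQ : Wnu ι Q} {B : Set A} {c : A → Q}
    (hB : W.Sub B) (hc : ∀ x : ι → A, (∀ i, x i ∈ B) → c (W.op x) = WQ.op fun i => c (x i))
    (t : Tm ι) {x y : A} (hx : x ∈ B) (hy : y ∈ B) :
    c (W.eval t x y) = WQ.eval t (c x) (c y) := by
  induction t with
  | fst => rfl
  | snd => rfl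
  | app f ih =>
    show c (W.op fun i => W.eval (f i) x y) = WQ.op fun i => WQ.eval (f i) (c x) (c y)
    rw [hc _ fun i => quot_eval_mem W hB (f i) hx hy]
    congr 1
    funext i
    exact ih i

private theorem quot_baFree {W : Wnu ι A} {WQ : Wnu ι Q} {B : Set A} {c : A → Q}
    (hB : W.Sub B) (hc : ∀ x : ι → A, (∀ i, x i ∈ B) → c (W.op x) = WQ.op fun i => c (x i))
    (hs : ∀ q, ∃ x ∈ B, c x = q) (hb : W.BAFree B) : WQ.BAFree univ := by
  rintro t C' ⟨-, ⟨q₀, hq₀⟩, hsub, habs⟩ q -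
  have h : W.BinAbs t B {x | x ∈ B ∧ c x ∈ C'} := by
    refine ⟨fun x hx => hx.1, ?_, ?_, ?_⟩
    · obtain ⟨x, hx, rfl⟩ := hs q₀
      exact ⟨x, hx, hq₀⟩
    · intro x hx
      refine ⟨hB x fun i => (hx i).1, ?_⟩
      rw [hc x fun i => (hx i).1]
      exact hsub _ fun i => (hx i).2
    · rintro x ⟨hx, hxC⟩ b hb'
      have h1 := habs (c x) hxC (c b) (mem_univ _)
      refine ⟨⟨quot_eval_mem W hB t hx hb', ?_⟩, ⟨quot_eval_mem W hB t hb' hx, ?_⟩⟩
      · rw [quot_eval_hom hB hc t hx hb']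
        exact h1.1
      · rw [quot_eval_hom hB hc t hb' hx]
        exact h1.2
  obtain ⟨x, hx, rfl⟩ := hs q
  exact (hb t _ h hx).2

private theorem quot_cFree {W : Wnu ι A} {WQ : Wnu ι Q} {B : Set A} {c : A → Q}
    (hc : ∀ x : ι → A, (∀ i, x i ∈ B) → c (W.op x) = WQ.op fun i => c (x i))
    (hs : ∀ q, ∃ x ∈ B, c x = q) (hb : W.CFree B) : WQ.CFree univ := by
  rintro k C' ⟨-, ⟨q₀, hq₀⟩, D, hD, W', R, hk, hba, hR, htot, hcen⟩ q -
  have h : W.Central k B {x | x ∈ B ∧ c x ∈ C'} := by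
    refine ⟨fun x hx => hx.1, ?_, D, hD, W', fun x d => R (c x) d, hk, hba, ?_, ?_, ?_⟩
    · obtain ⟨x, hx, rfl⟩ := hs q₀
      exact ⟨x, hx, hq₀⟩
    · intro x y hx hxy
      show R (c (W.op x)) (W'.op y)
      rw [hc x hx]
      exact hR _ y (fun i => mem_univ _) hxy
    · intro b _
      exact htot (c b) (mem_univ _)
    · intro b hb'
      constructor
      · intro h'
        exact (hcen (c b) (mem_univ _)).1 h'.2
      · intro h'
        exact ⟨hb', (hcen (c b) (mem_univ _)).2 h'⟩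
  obtain ⟨x, hx, rfl⟩ := hs q
  exact (hb k _ h hx).2

private theorem quot_simple {W : Wnu ι A} {WQ : Wnu ι Q} {B : Set A} {c : A → Q}
    {E : A → A → Prop} (hE : MaxCong W B E) (hB : W.Sub B)
    (hc : ∀ x : ι → A, (∀ i, x i ∈ B) → c (W.op x) = WQ.op fun i => c (x i))
    (hs : ∀ q, ∃ x ∈ B, c x = q) (hcE : ∀ x ∈ B, ∀ y ∈ B, (c x = c y ↔ E x y)) :
    WQ.Simple := by
  refine ⟨?_, ?_⟩
  · obtain ⟨a, ha, b, hb, hab⟩ := hE.proper
    exact ⟨c a, c b, fun h => hab ((hcE a ha b hb).1 h)⟩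
  · intro E' hE'
    have hcong : Cong W B (fun a b => a ∈ B ∧ b ∈ B ∧ E' (c a) (c b)) :=
      { left := fun a b h => h.1
        right := fun a b h => h.2.1
        refl := fun a h => ⟨h, h, hE'.refl _ (mem_univ _)⟩
        symm := fun a b h => ⟨h.2.1, h.1, hE'.symm _ _ h.2.2⟩
        trans := fun a b d h h' => ⟨h.1, h'.2.1, hE'.trans _ _ _ h.2.2 h'.2.2⟩
        comp := by
          intro x y h
          refine ⟨hB x fun i => (h i).1, hB y fun i => (h i).2.1, ?_⟩
          rw [hc x fun i => (h i).1, hc y fun i => (h i).2.1]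
          exact hE'.comp _ _ fun i => (h i).2.2 }
    have hle : ∀ a b, E a b → a ∈ B ∧ b ∈ B ∧ E' (c a) (c b) := by
      intro a b hab
      have ha := hE.left a b hab
      have hb := hE.right a b hab
      refine ⟨ha, hb, ?_⟩
      rw [(hcE a ha b hb).2 hab]
      exact hE'.refl _ (mem_univ _)
    rcases hE.maximal _ hcong hle with h | h
    · left
      intro x y hxy
      obtain ⟨a, ha, rfl⟩ := hs x
      obtain ⟨b, hb, rfl⟩ := hs y
      exact (hcE a ha b hb).2 (h a b ⟨ha, hb, hxy⟩)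
    · right
      intro x y
      obtain ⟨a, ha, rfl⟩ := hs x
      obtain ⟨b, hb, rfl⟩ := hs y
      exact (h a ha b hb).2.2

theorem exists_quot [Finite A] {W : Wnu ι A} {B : Set A} {E : A → A → Prop} (hB : W.Sub B)
    (hE : MaxCong W B E) (hb : W.BAFree B) (hc : W.CFree B) :
    ∃ (Q : Type) (_ : Finite Q) (WQ : Wnu ι Q) (c : A → Q),
      (∀ x ∈ B, ∀ y ∈ B, (c x = c y ↔ E x y)) ∧ (∀ q, ∃ x ∈ B, c x = q) ∧
      (∀ x : ι → A, (∀ i, x i ∈ B) → c (W.op x) = WQ.op fun i => c (x i)) ∧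
      WQ.BAFree univ ∧ WQ.CFree univ ∧ WQ.Simple := by
  classical
  obtain ⟨a₀, ha₀, -⟩ := hE.proper
  let s : Setoid B :=
    { r := fun x y => E x.1 y.1
      iseqv := ⟨fun x => hE.refl _ x.2, fun h => hE.symm _ _ h, fun h h' =>
        hE.trans _ _ _ h h'⟩ }
  let c : A → Quotient s := fun x => if h : x ∈ B then Quotient.mk s ⟨x, h⟩ else
    Quotient.mk s ⟨a₀, ha₀⟩
  let r : Quotient s → A := fun q => (Quotient.out q).1
  have hrB : ∀ q, r q ∈ B := fun q => (Quotient.out q).2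
  have hcr : ∀ q, c (r q) = q := by
    intro q
    have h : c (r q) = Quotient.mk s ⟨r q, hrB q⟩ := dif_pos (hrB q)
    rw [h]
    exact Quotient.out_eq q
  have hcE : ∀ x ∈ B, ∀ y ∈ B, (c x = c y ↔ E x y) := by
    intro x hx y hy
    have h1 : c x = Quotient.mk s ⟨x, hx⟩ := dif_pos hx
    have h2 : c y = Quotient.mk s ⟨y, hy⟩ := dif_pos hy
    rw [h1, h2]
    constructor
    · intro h
      exact Quotient.exact h
    · intro h
      exact Quotient.sound h
  let WQ : Wnu ι (Quotient s) :=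
    { op := fun x => c (W.op fun i => r (x i))
      idem := by
        intro x
        rw [W.idem (r x)]
        exact hcr x
      wnu := by
        intro i j x y
        have h : ∀ i : ι, (fun k => r (Function.update (fun _ => x) i y k)) =
            Function.update (fun _ => r x) i (r y) := by
          intro i
          funext k
          by_cases hk : k = i
          · subst hk
            simp
          · simp [Function.update_of_ne hk]
        rw [h, h, W.wnu i j] }
  have hhom : ∀ x : ι → A, (∀ i, x i ∈ B) → c (W.op x) = WQ.op fun i => c (x i) := by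
    intro x hx
    show c (W.op x) = c (W.op fun i => r (c (x i)))
    rw [hcE _ (hB x hx) _ (hB _ fun i => hrB _)]
    refine hE.comp _ _ fun i => ?_
    rw [← hcE _ (hx i) _ (hrB _)]
    exact (hcr _).symm
  have hs : ∀ q, ∃ x ∈ B, c x = q := fun q => ⟨r q, hrB q, hcr q⟩
  refine ⟨Quotient s, inferInstance, WQ, c, hcE, hs, hhom, quot_baFree hB hhom hs hb,
    quot_cFree hhom hs hc, quot_simple hE hB hhom hs hcE⟩

end Pool.Agent.H62.TP
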