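import Pool.Agent.H62.TP.Quot
import Pool.Agent.H62.TP.Dich
import Pool.Agent.H62.TP.Link
import Pool.Agent.H62.TP.Grp

/-!
A coordinate of a minimal system which depends on at least two other coordinates carries a label in
a field with p elements which is affine for the operation (MP_cb0c3a_an, row TP-17).
-/

set_option autoImplicit false

open Set

namespace Pool.Agent.H62.TP

open Pool.Agent.H62.MC (G Act val Det mem_val)

variable {ι : Type} [DecidableEq ι] {A D P Q V : Type}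

/-- the elements of `S` which differ from `y` (modulo `E`) only at the place `i` of a minimal
determining set -/
theorem exists_probe [Finite A] [DecidableEq V] {W : Wnu ι A} {S : Set (V → A)}
    (hS : (W.pi V).Sub S) {E : V → A → A → Prop} {F : Finset V} (hF : ∀ v ∈ F, Nice W S E v)
    {w i : V} (hw : Nice W S E w) (hi : i ∈ F) (hdet : Det S E F w)
    (hn : ¬ Det S E (F.erase i) w) {WQ : Wnu ι Q} {c : A → Q}
    (hc1 : ∀ x ∈ val S w, ∀ y ∈ val S w, (c x = c y ↔ E w x y))
    (hc2 : ∀ q, ∃ x ∈ val S w, c x = q)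
    (hc3 : ∀ x : ι → A, (∀ i, x i ∈ val S w) → c (W.op x) = WQ.op fun i => c (x i))
    {y : V → A} (hy : y ∈ S) :
    ∃ X : Q → V → A, (∀ q, X q ∈ S) ∧ (∀ q, ∀ v ∈ F.erase i, E v (X q v) (y v)) ∧
      (∀ q, c (X q w) = q) ∧
      (∀ z ∈ S, ∀ z' ∈ S, (∀ v ∈ F.erase i, E v (z v) (z' v)) → c (z w) = c (z' w) →
        E i (z i) (z' i)) ∧
      ∀ x : ι → Q, E i (W.op fun k => X (x k) i) (X (WQ.op x) i) := by
  have hex := exch hS hF hw hi hdet hn
  have h1 : ∀ q, ∃ z ∈ S, (∀ v ∈ F.erase i, E v (z v) (y v)) ∧ c (z w) = q := by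
    intro q
    obtain ⟨b, hb, rfl⟩ := hc2 q
    obtain ⟨z, hz, hz1, hz2⟩ := dichotomy hS (F := F.erase i)
      (fun v hv => hF v (Finset.mem_of_mem_erase hv)) hw hn hy hb
    exact ⟨z, hz, hz1, (hc1 _ (mem_val hz w) _ hb).2 hz2⟩
  choose X hX1 hX2 hX3 using h1
  have h4 : ∀ z ∈ S, ∀ z' ∈ S, (∀ v ∈ F.erase i, E v (z v) (z' v)) → c (z w) = c (z' w) →
      E i (z i) (z' i) := by
    intro z hz z' hz' h5 h6
    refine hex z hz z' hz' fun v hv => ?_
    rcases Finset.mem_insert.1 hv with rfl | hv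
    · exact (hc1 _ (mem_val hz _) _ (mem_val hz' _)).1 h6
    · exact h5 v hv
  refine ⟨X, hX1, hX2, hX3, h4, fun x => ?_⟩
  have h7 : (W.pi V).op (fun k => X (x k)) ∈ S := hS _ fun k => hX1 _
  refine h4 _ h7 _ (hX1 _) (fun v hv => ?_) ?_
  · have hv' := (hF v (Finset.mem_of_mem_erase hv)).2.2
    have h8 : E v (W.op fun k => X (x k) v) (W.op fun _ => y v) :=
      hv'.comp _ _ fun k => hX2 (x k) v hv
    rw [W.idem] at h8
    exact hv'.trans _ _ _ h8 (hv'.symm _ _ (hX2 _ v hv))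
  · have h9 : c (W.op fun k => X (x k) w) = WQ.op fun k => c (X (x k) w) :=
      hc3 _ fun k => mem_val (hX1 _) w
    rw [hX3]
    show c (W.op fun k => X (x k) w) = WQ.op x
    rw [h9]
    simp only [hX3]

theorem label_of_V1 [Fintype ι] (h3 : 3 ≤ Fintype.card ι) [Finite A] {W : Wnu ι A}
    {S : Set (V → A)} (hS : (W.pi V).Sub S) (hne : S.Nonempty) {E : V → A → A → Prop} {w : V}
    (hw : Nice W S E w) (h1 : IsV1 S E (Nice W S E) w) :
    ∃ p : ℕ, p.Prime ∧ p ≤ Nat.card A ∧ ¬ p ∣ Fintype.card ι ∧ ∃ lam : A → ZMod p,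
      (∀ x ∈ val S w, ∀ y ∈ val S w, (lam x = lam y ↔ E w x y)) ∧
      ∀ x : ι → A, (∀ i, x i ∈ val S w) →
        (Fintype.card ι : ZMod p) * lam (W.op x) = ∑ i, lam (x i) := by
  classical
  obtain ⟨F, hF, hF2, hdet, hmin⟩ := h1
  obtain ⟨Q, hQ, WQ, c, hc1, hc2, hc3, -, -, hs⟩ := exists_quot (sub_val hS w) hw.2.2 hw.1 hw.2.1
  obtain ⟨i, hi, j, hj, hij⟩ := Finset.one_lt_card.1 (show 1 < F.card by omega)
  obtain ⟨y, hy⟩ := hne
  have hn : ∀ v ∈ F, ¬ Det S E (F.erase v) w := fun v hv =>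
    hmin _ (Finset.erase_ssubset hv)
  have hind : ∀ v ∈ F, ¬ Det S E (F.erase v) v := by
    intro v hv h
    refine hn v hv fun z hz z' hz' hzz => hdet z hz z' hz' fun u hu => ?_
    by_cases huv : u = v
    · subst huv
      exact h z hz z' hz' hzz
    · exact hzz u (Finset.mem_erase.2 ⟨huv, hu⟩)
  obtain ⟨X, hX1, hX2, hX3, hX4, hX5⟩ := exists_probe hS hF hw hi hdet (hn i hi) hc1 hc2 hc3 hy
  obtain ⟨Y, hY1, hY2, hY3, hY4, hY5⟩ := exists_probe hS hF hw hj hdet (hn j hj) hc1 hc2 hc3 hy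
  have hji : j ∈ F.erase i := Finset.mem_erase.2 ⟨hij.symm, hj⟩
  have hij' : i ∈ F.erase j := Finset.mem_erase.2 ⟨hij, hi⟩
  have hE : ∀ v ∈ F, Cong W (val S v) (E v) := fun v hv => (hF v hv).2.2.toCong
  have hZ : ∀ q r, ∃ z ∈ S, E i (z i) (X q i) ∧ E j (z j) (Y r j) ∧
      ∀ v ∈ F, v ≠ i → v ≠ j → E v (z v) (y v) := by
    intro q r
    obtain ⟨z, hz, hz1⟩ := realize_indep hS ⟨y, hy⟩ hF hind
      (a := fun v => if v = i then X q v else if v = j then Y r v else y v) (by
        intro v hv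
        split_ifs
        · exact mem_val (hX1 q) v
        · exact mem_val (hY1 r) v
        · exact mem_val hy v)
    refine ⟨z, hz, ?_, ?_, ?_⟩
    · have h := hz1 i hi
      simpa using h
    · have h := hz1 j hj
      simpa [hij.symm] using h
    · intro v hv h2 h3
      have h := hz1 v hv
      simpa [h2, h3] using h
  choose Z hZ1 hZi hZj hZo using hZ
  -- the value of an element of `S` which is given on `F`
  have key : ∀ q r, ∀ z ∈ S, E i (z i) (X q i) → E j (z j) (Y r j) →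
      (∀ v ∈ F, v ≠ i → v ≠ j → E v (z v) (y v)) → c (z w) = c (Z q r w) := by
    intro q r z hz h5 h6 h7
    refine (hc1 _ (mem_val hz _) _ (mem_val (hZ1 q r) _)).2
      (hdet z hz _ (hZ1 q r) fun v hv => ?_)
    by_cases hvi : v = i
    · subst hvi
      exact (hE v hv).trans _ _ _ h5 ((hE v hv).symm _ _ (hZi q r))
    by_cases hvj : v = j
    · subst hvj
      exact (hE v hv).trans _ _ _ h6 ((hE v hv).symm _ _ (hZj q r))
    exact (hE v hv).trans _ _ _ (h7 v hv hvi hvj) ((hE v hv).symm _ _ (hZo q r v hv hvi hvj))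
  have hyX : E i (y i) (X (c (y w)) i) := hX4 _ hy _ (hX1 _)
    (fun v hv => (hE v (Finset.mem_of_mem_erase hv)).symm _ _ (hX2 _ v hv)) (hX3 _).symm
  have hyY : E j (y j) (Y (c (y w)) j) := hY4 _ hy _ (hY1 _)
    (fun v hv => (hE v (Finset.mem_of_mem_erase hv)).symm _ _ (hY2 _ v hv)) (hY3 _).symm
  obtain ⟨p, hp, hpQ, hpn, lam, hl1, hl2⟩ := group_label h3 hs (c (y w))
    (fun q r => c (Z q r w))
    (by
      intro q
      have h := key q (c (y w)) (X q) (hX1 q) ((hE i hi).refl _ (mem_val (hX1 q) i))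
        ((hE j hj).trans _ _ _ (hX2 q j hji) hyY)
        (fun v hv hvi _ => hX2 q v (Finset.mem_erase.2 ⟨hvi, hv⟩))
      show c (Z q (c (y w)) w) = q
      rw [← h, hX3])
    (by
      intro r
      have h := key (c (y w)) r (Y r) (hY1 r) ((hE i hi).trans _ _ _ (hY2 r i hij') hyX)
        ((hE j hj).refl _ (mem_val (hY1 r) j))
        (fun v hv _ hvj => hY2 r v (Finset.mem_erase.2 ⟨hvj, hv⟩))
      show c (Z (c (y w)) r w) = r
      rw [← h, hY3])
    (by
      intro q q' r h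
      have h5 : E i (Z q r i) (Z q' r i) := by
        refine hX4 _ (hZ1 q r) _ (hZ1 q' r) (fun v hv => ?_) h
        have hv' := Finset.mem_of_mem_erase hv
        by_cases hvj : v = j
        · subst hvj
          exact (hE v hv').trans _ _ _ (hZj q r) ((hE v hv').symm _ _ (hZj q' r))
        · exact (hE v hv').trans _ _ _ (hZo q r v hv' (Finset.ne_of_mem_erase hv) hvj)
            ((hE v hv').symm _ _ (hZo q' r v hv' (Finset.ne_of_mem_erase hv) hvj))
      have h6 : E i (X q i) (X q' i) := (hE i hi).trans _ _ _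
        ((hE i hi).symm _ _ (hZi q r)) ((hE i hi).trans _ _ _ h5 (hZi q' r))
      have h7 : E w (X q w) (X q' w) := by
        refine hdet _ (hX1 q) _ (hX1 q') fun v hv => ?_
        by_cases hvi : v = i
        · subst hvi
          exact h6
        · have hv' : v ∈ F.erase i := Finset.mem_erase.2 ⟨hvi, hv⟩
          exact (hE v hv).trans _ _ _ (hX2 q v hv') ((hE v hv).symm _ _ (hX2 q' v hv'))
      have h8 := (hc1 _ (mem_val (hX1 q) w) _ (mem_val (hX1 q') w)).2 h7
      rwa [hX3, hX3] at h8)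
    (by
      intro a b
      have hz : (W.pi V).op (fun k => Z (a k) (b k)) ∈ S := hS _ fun k => hZ1 _ _
      have h := key (WQ.op a) (WQ.op b) _ hz
        ((hE i hi).trans _ _ _ ((hE i hi).comp _ _ fun k => hZi (a k) (b k)) (hX5 a))
        ((hE j hj).trans _ _ _ ((hE j hj).comp _ _ fun k => hZj (a k) (b k)) (hY5 b))
        (by
          intro v hv hvi hvj
          have h9 : E v (W.op fun k => Z (a k) (b k) v) (W.op fun _ => y v) :=
            (hE v hv).comp _ _ fun k => hZo (a k) (b k) v hv hvi hvj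
          rw [W.idem] at h9
          exact h9)
      show WQ.op (fun k => c (Z (a k) (b k) w)) = c (Z (WQ.op a) (WQ.op b) w)
      rw [← h]
      exact (hc3 _ fun k => mem_val (hZ1 _ _) w).symm)
  have hcard : Nat.card Q ≤ Nat.card A := Nat.card_le_card_of_surjective c fun q => by
    obtain ⟨x, -, hx⟩ := hc2 q
    exact ⟨x, hx⟩
  refine ⟨p, hp, hpQ.trans hcard, hpn, fun x => lam (c x), ?_, ?_⟩
  · intro x hx x' hx'
    rw [← hc1 x hx x' hx']
    exact ⟨fun h => hl1 h, fun h => congrArg lam h⟩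
  · intro x hx
    show (Fintype.card ι : ZMod p) * lam (c (W.op x)) = ∑ i, lam (c (x i))
    rw [hc3 x hx]
    exact hl2 fun i => c (x i)

end Pool.Agent.H62.TP
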