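import Pool.Agent.H62.TP.PinC
import Pool.Agent.H62.TP.PinB
import Pool.Agent.H62.TP.Quot
import Pool.Agent.H62.TP.V1Label
import Pool.Agent.H62.TP.Pin2
import Pool.Agent.H62.TP.PinP

/-!
Subshifts closed under an idempotent weak near unanimity operation of arity at least 3 contain
periodic points (MP_cb0c3a_an, helper62).
-/

set_option autoImplicit false

open Set

namespace Pool.Agent.H62.TP

open Pool.Agent.H62.MC (G Act val Det mem_val)

variable {ι : Type} [DecidableEq ι] {A D P Q V : Type}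

open Classical in
/-- a maximal proper congruence of `B` if there is one, else the full relation -/
noncomputable def mcong [Finite A] (W : Wnu ι A) (B : Set A) : A → A → Prop :=
  if h : W.Sub B ∧ B.Nontrivial then (exists_maxCong W h.1 h.2).choose
  else fun a b => a ∈ B ∧ b ∈ B

theorem mcong_max [Finite A] {W : Wnu ι A} {B : Set A} (hB : W.Sub B) (hn : B.Nontrivial) :
    MaxCong W B (mcong W B) := by
  rw [mcong, dif_pos ⟨hB, hn⟩]
  exact (exists_maxCong W hB hn).choose_spec

theorem mcong_cong [Finite A] {W : Wnu ι A} {B : Set A} (hB : W.Sub B) :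
    Cong W B (mcong W B) := by
  by_cases hn : B.Nontrivial
  · exact (mcong_max hB hn).toCong
  · rw [mcong, dif_neg fun h => hn h.2]
    exact ⟨fun _ _ h => h.1, fun _ _ h => h.2, fun _ h => ⟨h, h⟩, fun _ _ h => ⟨h.2, h.1⟩,
      fun _ _ _ h h' => ⟨h.1, h'.2⟩, fun _ _ h =>
        ⟨hB _ fun i => (h i).1, hB _ fun i => (h i).2⟩⟩

/-- the quotient of `B` is affine over `ℤ/p` -/
def HasLab [Finite A] [Fintype ι] (W : Wnu ι A) (p : ℕ) (B : Set A) : Prop :=
  ¬ p ∣ Fintype.card ι ∧ ∃ lam : A → ZMod p,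
    (∀ x ∈ B, ∀ y ∈ B, (lam x = lam y ↔ mcong W B x y)) ∧
    ∀ x : ι → A, (∀ i, x i ∈ B) →
      (Fintype.card ι : ZMod p) * lam (W.op x) = ∑ i, lam (x i)

open Classical in
/-- a choice of the labels -/
noncomputable def labOf [Finite A] [Fintype ι] (W : Wnu ι A) (p : ℕ) (B : Set A) :
    A → ZMod p :=
  if h : HasLab W p B then h.2.choose else 0

theorem labOf_spec [Finite A] [Fintype ι] {W : Wnu ι A} {p : ℕ} {B : Set A}
    (h : HasLab W p B) :
    (∀ x ∈ B, ∀ y ∈ B, (labOf W p B x = labOf W p B y ↔ mcong W B x y)) ∧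
    ∀ x : ι → A, (∀ i, x i ∈ B) →
      (Fintype.card ι : ZMod p) * labOf W p B (W.op x) = ∑ i, labOf W p B (x i) := by
  rw [labOf, dif_pos h]
  exact h.2.choose_spec

/-- the nice coordinates can be pinned modulo the maximal congruences -/
theorem pin_nice [Finite A] [Fintype ι] (h3 : 3 ≤ Fintype.card ι) [TopologicalSpace A]
    [DiscreteTopology A] {W : Wnu ι A} {d : ℕ} {T : Act d V} {S : Set (V → A)}
    (hS : Sys W T S) :
    ∃ (N : ℕ) (hN : 0 < N) (S' : Set (V → A)), S' ⊆ S ∧ Sys W (T.pow N hN) S' ∧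
      ∀ v, W.BAFree (val S v) → W.CFree (val S v) → (val S v).Nontrivial →
        ¬ val S v ⊆ val S' v := by
  have hE : ∀ v, Cong W (val S v) (mcong W (val S v)) := fun v => mcong_cong (sub_val hS.sub v)
  have hEinv : ∀ g v, mcong W (val S (T.T g v)) = mcong W (val S v) := fun g v => by
    rw [hS.val_eq]
  have key : ∀ n : ℕ, ∃ (N : ℕ) (hN : 0 < N) (S' : Set (V → A)), S' ⊆ S ∧
      Sys W (T.pow N hN) S' ∧ ∀ z ∈ S', ∀ z' ∈ S', ∀ v,
        ((Nice W S (fun v => mcong W (val S v)) v ∧
          ¬ IsV1 S (fun v => mcong W (val S v)) (Nice W S fun v => mcong W (val S v)) v) ∨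
          ∃ p < n, p.Prime ∧ HasLab W p (val S v)) → mcong W (val S v) (z v) (z' v) := by
    intro n
    induction n with
    | zero =>
      obtain ⟨N, hN, S', h1, h2, h4⟩ := pin2 hS hE hEinv
      refine ⟨N, hN, S', h1, h2, fun z hz z' hz' v hv => ?_⟩
      rcases hv with hv | ⟨p, hp, -⟩
      · exact h4 z hz z' hz' v hv.1 hv.2
      · exact absurd hp (by omega)
    | succ n ih =>
      obtain ⟨N, hN, S', h1, h2, h4⟩ := ih
      by_cases hp : n.Prime ∧ ¬ n ∣ Fintype.card ι
      · have : Fact n.Prime := ⟨hp.1⟩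
        obtain ⟨N', hN', S'', k1, k2, k3⟩ := pinP h2 n hp.2 (by omega)
          (fun v => HasLab W n (val S v))
          (by
            intro g v hv
            change HasLab W n (val S (T.T (N • g) v))
            rwa [hS.val_eq])
          (fun v => labOf W n (val S v))
          (by
            intro g v _
            change labOf W n (val S (T.T (N • g) v)) = _
            rw [hS.val_eq])
          (by
            intro v hv x hx
            exact (labOf_spec hv).2 x fun i => val_mono h1 v (hx i))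
        refine ⟨N * N', Nat.mul_pos hN hN', S'', k1.trans h1, k2.congr_act ?_, ?_⟩
        · intro g v
          simp only [Act.pow, smul_smul]
        · intro z hz z' hz' v hv
          rcases hv with hv | ⟨p, hpn, hp', hv⟩
          · exact h4 z (k1 hz) z' (k1 hz') v (Or.inl hv)
          · rcases Nat.lt_succ_iff_lt_or_eq.1 hpn with hlt | rfl
            · exact h4 z (k1 hz) z' (k1 hz') v (Or.inr ⟨p, hlt, hp', hv⟩)
            · exact ((labOf_spec hv).1 _ (mem_val (h1 (k1 hz)) v) _
                (mem_val (h1 (k1 hz')) v)).1 (k3 z hz z' hz' v hv)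
      · refine ⟨N, hN, S', h1, h2, fun z hz z' hz' v hv => ?_⟩
        rcases hv with hv | ⟨p, hpn, hp', hv⟩
        · exact h4 z hz z' hz' v (Or.inl hv)
        · rcases Nat.lt_succ_iff_lt_or_eq.1 hpn with hlt | rfl
          · exact h4 z hz z' hz' v (Or.inr ⟨p, hlt, hp', hv⟩)
          · exact absurd ⟨hp', hv.1⟩ hp
  obtain ⟨N, hN, S', h1, h2, h4⟩ := key (Nat.card A + 1)
  refine ⟨N, hN, S', h1, h2, fun v hb hc hn hsub => ?_⟩
  have hmax := mcong_max (sub_val hS.sub v) hn
  obtain ⟨a, ha, b, hb', hab⟩ := hmax.proper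
  obtain ⟨x, hx, rfl⟩ := hsub ha
  obtain ⟨y, hy, rfl⟩ := hsub hb'
  apply hab
  have hnice : Nice W S (fun v => mcong W (val S v)) v := ⟨hb, hc, hmax⟩
  by_cases hv1 : IsV1 S (fun v => mcong W (val S v)) (Nice W S fun v => mcong W (val S v)) v
  · obtain ⟨p, hp, hpA, hpn, hlab⟩ := label_of_V1 h3 hS.sub hS.ne hnice hv1
    exact h4 x hx y hy v (Or.inr ⟨p, by omega, hp, hpn, hlab⟩)
  · exact h4 x hx y hy v (Or.inl ⟨hnice, hv1⟩)

/-- the coordinates with binary absorption can be shrunk -/
theorem pin_B [Finite A] [TopologicalSpace A] [DiscreteTopology A] {W : Wnu ι A} {d : ℕ}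
    {T : Act d V} {S : Set (V → A)} (hS : Sys W T S) :
    ∃ S' : Set (V → A), S' ⊆ S ∧ Sys W T S' ∧
      ∀ v, ¬ W.BAFree (val S v) → ¬ val S v ⊆ val S' v := by
  classical
  have key : ∀ F : Finset (Set A), ∃ S' : Set (V → A), S' ⊆ S ∧ Sys W T S' ∧
      ∀ v, val S v ∈ F → ¬ W.BAFree (val S v) → ¬ val S v ⊆ val S' v := by
    intro F
    induction F using Finset.induction_on with
    | empty =>
      exact ⟨S, Subset.rfl, hS, fun v hv => absurd hv (Finset.notMem_empty _)⟩
    | insert B F hB ih =>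
      obtain ⟨S', h1, h2, h4⟩ := ih
      by_cases hBA : W.BAFree B
      · refine ⟨S', h1, h2, fun v hv hv' => ?_⟩
        rcases Finset.mem_insert.1 hv with h | h
        · exact absurd (h ▸ hBA) hv'
        · exact h4 v h hv'
      · simp only [Wnu.BAFree, not_forall] at hBA
        obtain ⟨t, C, hC, hBC⟩ := hBA
        obtain ⟨S'', k1, k2, k3⟩ := pinB h2 hC hBC
        refine ⟨S'', k1.trans h1, k2, fun v hv hv' hsub => ?_⟩
        rcases Finset.mem_insert.1 hv with h | h
        · have h5 : val S' v = B := by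
            rw [← h]
            exact (val_mono h1 v).antisymm (hsub.trans (val_mono k1 v))
          exact k3 v h5 ((val_mono h1 v).trans hsub)
        · exact h4 v h hv' (hsub.trans (val_mono k1 v))
  have : Fintype (Set A) := Fintype.ofFinite _
  obtain ⟨S', h1, h2, h4⟩ := key Finset.univ
  exact ⟨S', h1, h2, fun v => h4 v (Finset.mem_univ _)⟩

/-- all coordinates can be shrunk -/
theorem pin_all [Finite A] [Fintype ι] (h3 : 3 ≤ Fintype.card ι) [TopologicalSpace A]
    [DiscreteTopology A] {W : Wnu ι A} {d : ℕ} {T : Act d V} {S : Set (V → A)}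
    (hS : Sys W T S) :
    ∃ (N : ℕ) (hN : 0 < N) (S' : Set (V → A)), S' ⊆ S ∧ Sys W (T.pow N hN) S' ∧
      ∀ v, (val S v).Nontrivial → ¬ val S v ⊆ val S' v := by
  have hι : ∃ i j : ι, i ≠ j := by
    have : 1 < Fintype.card ι := by omega
    obtain ⟨i, j, h⟩ := Fintype.one_lt_card_iff.1 this
    exact ⟨i, j, h⟩
  obtain ⟨S1, a1, a2, a3⟩ := pin_B hS
  obtain ⟨N, hN, S2, b1, b2, b3⟩ := pinC hι a2
  obtain ⟨M, hM, S3, c1, c2, c3⟩ := pin_nice h3 b2
  refine ⟨N * M, Nat.mul_pos hN hM, S3, c1.trans (b1.trans a1), c2.congr_act ?_, ?_⟩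
  · intro g v
    simp only [Act.pow, smul_smul]
  · intro v hn hsub
    have e1 : val S1 v = val S v :=
      (val_mono a1 v).antisymm (hsub.trans (val_mono (c1.trans b1) v))
    have e2 : val S2 v = val S v :=
      (val_mono (b1.trans a1) v).antisymm (hsub.trans (val_mono c1 v))
    have f1 : W.BAFree (val S v) := by
      by_contra h
      exact a3 v h e1.ge
    have f2 : W.CFree (val S v) := by
      by_contra h
      simp only [Wnu.CFree, not_forall] at h
      obtain ⟨k, C, hC, hBC⟩ := h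
      exact b3 v ⟨k, C, by rwa [e1], by rwa [e1]⟩ (by rw [e1, e2])
    exact c3 v (by rwa [e2]) (by rwa [e2]) (by rwa [e2]) (by rwa [e2])

/-- existence of periodic points, by induction on the number of values -/
theorem periodic_aux [Finite A] [Fintype ι] (h3 : 3 ≤ Fintype.card ι) [TopologicalSpace A]
    [DiscreteTopology A] {W : Wnu ι A} {d : ℕ} (n : ℕ) :
    ∀ (T : Act d V) (S : Set (V → A)), Sys W T S → (∀ v, (val S v).ncard ≤ n + 1) →
      ∃ N : ℕ, 0 < N ∧ ∃ z ∈ S, ∀ g v, z (T.T (N • g) v) = z v := by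
  induction n with
  | zero =>
    intro T S hS h
    obtain ⟨z, hz⟩ := hS.ne
    refine ⟨1, one_pos, z, hz, fun g v => ?_⟩
    have h1 := (Set.ncard_le_one (toFinite _)).1 (h v)
    exact h1 _ (by rw [← hS.val_eq (1 • g) v]; exact mem_val hz _) _ (mem_val hz v)
  | succ n ih =>
    intro T S hS h
    obtain ⟨N, hN, S', h1, h2, h4⟩ := pin_all h3 hS
    obtain ⟨N', hN', z, hz, h5⟩ := ih (T.pow N hN) S' h2 (by
      intro v
      by_cases hn : (val S v).Nontrivial
      · have h5 : val S' v ⊂ val S v := ⟨val_mono h1 v, h4 v hn⟩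
        have h6 := Set.ncard_lt_ncard h5 (toFinite _)
        have h7 := h v
        omega
      · rw [Set.not_nontrivial_iff] at hn
        have h5 := (hn.anti (val_mono h1 v))
        have h6 := (Set.ncard_le_one (toFinite (val S' v))).2 fun a ha b hb => h5 ha hb
        omega)
    refine ⟨N * N', Nat.mul_pos hN hN', z, h1 hz, fun g v => ?_⟩
    have h6 := h5 g v
    simp only [Act.pow, smul_smul] at h6
    exact h6

/-- the case of an idempotent operation of arity at least 3 -/
theorem exists_periodic [Finite A] [Fintype ι] (h3 : 3 ≤ Fintype.card ι) [TopologicalSpace A]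
    [DiscreteTopology A] (W : Wnu ι A) {d : ℕ} (X : Set (G d → A)) (hne : X.Nonempty)
    (hcl : IsClosed X) (hinv : ∀ g : G d, ∀ x ∈ X, (fun u => x (u + g)) ∈ X)
    (hX : (W.pi (G d)).Sub X) :
    ∃ N : ℕ, 0 < N ∧ ∃ x ∈ X, ∀ u v : G d, x (u + N • v) = x u := by
  let T : Act d (G d) :=
    { T := fun g v => v + g
      zero := fun v => add_zero v
      add := fun g h v => by rw [add_comm g h, add_assoc]
      fin := ⟨{0}, fun v => ⟨v, 0, Finset.mem_singleton_self 0, (zero_add v).symm⟩⟩ }
  obtain ⟨N, hN, z, hz, h⟩ := periodic_aux h3 (Nat.card A) T X ⟨hne, hcl, hX, hinv⟩ (by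
    intro v
    exact (Set.ncard_le_card (val X v)).trans (Nat.le_succ _))
  exact ⟨N, hN, z, hz, fun u v => h v u⟩

end Pool.Agent.H62.TP
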