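import Pool.Agent.H62.TP.Term
import Pool.Agent.H62.TP.Helly
import Pool.Agent.H62.TP.Good

/-!
Pinning the coordinates with central subuniverses (project TP, MP_cb0c3a_an, row TP-10).
-/

set_option autoImplicit false

open Set

namespace Pool.Agent.H62.TP

open Pool.Agent.H62.MC (G Act val Det mem_val exists_of_finite isClosed_coord)

variable {ι : Type} [DecidableEq ι] {A D P Q V : Type}

theorem pinC_val_eq [TopologicalSpace A] {W : Wnu ι A} {d : ℕ} {T : Act d V} {S : Set (V → A)}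
    (h : Sys W T S) (g : G d) (v : V) : val S (T.T g v) = val S v := by
  apply Subset.antisymm
  · rintro _ ⟨z, hz, rfl⟩
    exact ⟨_, h.inv g z hz, rfl⟩
  · rintro _ ⟨z, hz, rfl⟩
    refine ⟨_, h.inv (-g) z hz, ?_⟩
    simp only [T.neg_apply]

/-- invariant choice of central subuniverses -/
theorem pinC_choice [Finite A] [TopologicalSpace A] {W : Wnu ι A} {d : ℕ} {T : Act d V}
    {S : Set (V → A)} (hS : Sys W T S) :
    ∃ (k N : ℕ) (C : V → Set A), 0 < N ∧ (∀ g v, C (T.T g v) = C v) ∧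
      ∀ v, (∃ k C, W.Central k (val S v) C ∧ ¬ val S v ⊆ C) →
        W.Central k (val S v) (C v) ∧ ¬ val S v ⊆ C v ∧
        ∀ g : G d, ∃ z ∈ S, z v ∈ C v ∧ z (T.T (N • g) v) ∈ C v := by
  classical
  let Hyp : V → Prop := fun v => ∃ k C, W.Central k (val S v) C ∧ ¬ val S v ⊆ C
  have hval := pinC_val_eq hS
  have hHyp : ∀ g v, Hyp v → Hyp (T.T g v) := by
    intro g v h
    simp only [Hyp]
    rw [hval]
    exact h
  -- the orbits
  let r : Setoid V :=
    { r := fun v w => ∃ u : G d, w = T.T u v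
      iseqv := by
        refine ⟨fun v => ⟨0, (T.zero v).symm⟩, ?_, ?_⟩
        · rintro v w ⟨u, rfl⟩
          exact ⟨-u, (T.neg_apply u v).symm⟩
        · rintro v w x ⟨u, rfl⟩ ⟨u', rfl⟩
          exact ⟨u' + u, (T.add u' u v).symm⟩ }
  let rep : V → V := fun v => (Quotient.mk r v).out
  have hrep : ∀ v, ∃ u : G d, v = T.T u (rep v) := fun v =>
    Quotient.exact (Quotient.out_eq (Quotient.mk r v))
  have hrepT : ∀ g v, rep (T.T g v) = rep v := by
    intro g v
    have h1 : Quotient.mk r v = Quotient.mk r (T.T g v) := Quotient.sound ⟨g, rfl⟩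
    simp only [rep, h1]
  -- the data
  have hgood : ∀ v, ∃ (k : ℕ) (C : Set A) (N : ℕ), 0 < N ∧ (Hyp v →
      W.Central k (val S v) C ∧ ¬ val S v ⊆ C ∧
      ∀ g : G d, ∃ z ∈ S, z v ∈ C ∧ z (T.T (N • g) v) ∈ C) := by
    intro v
    by_cases h : Hyp v
    · obtain ⟨k, C, N, hN, h1⟩ := exists_good hS v h
      exact ⟨k, C, N, hN, fun _ => h1⟩
    · exact ⟨0, ∅, 1, one_pos, fun h' => absurd h' h⟩
  choose kk CC NN hNN hgd using hgood
  obtain ⟨F, hF⟩ := T.fin
  have hFrep : ∀ v, ∃ w ∈ F, rep w = rep v := by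
    intro v
    obtain ⟨g, w, hw, rfl⟩ := hF v
    exact ⟨w, hw, (hrepT g w).symm⟩
  refine ⟨F.sup fun w => kk (rep w), ∏ w ∈ F, NN (rep w), fun v => CC (rep v),
    Finset.prod_pos fun w _ => hNN (rep w), fun g v => by simp only [hrepT], ?_⟩
  intro v hv
  obtain ⟨u, hu⟩ := hrep v
  have hvr : Hyp (rep v) := by
    have h1 := hHyp (-u) v hv
    rwa [hu, T.neg_apply] at h1
  have hvv : val S v = val S (rep v) := by
    conv_lhs => rw [hu]
    exact hval u _
  obtain ⟨w, hw, hwv⟩ := hFrep v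
  obtain ⟨h1, h2, h3⟩ := hgd (rep v) hvr
  refine ⟨?_, ?_, ?_⟩
  · rw [hvv]
    refine Central.mono ?_ h1
    have h4 : kk (rep w) ≤ F.sup fun w => kk (rep w) :=
      Finset.le_sup (f := fun w => kk (rep w)) hw
    rwa [hwv] at h4
  · rw [hvv]
    exact h2
  · intro g
    have hdvd : NN (rep v) ∣ ∏ w ∈ F, NN (rep w) := by
      rw [← hwv]
      exact Finset.dvd_prod_of_mem (fun w => NN (rep w)) hw
    obtain ⟨c, hc⟩ := hdvd
    obtain ⟨z, hz, hz1, hz2⟩ := h3 (c • g)
    refine ⟨fun x => z (T.T (-u) x), hS.inv (-u) z hz, ?_, ?_⟩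
    · show z (T.T (-u) v) ∈ CC (rep v)
      have h5 : T.T (-u) v = rep v := by
        conv_lhs => rw [hu]
        exact T.neg_apply u _
      rw [h5]
      exact hz1
    · show z (T.T (-u) (T.T ((∏ w ∈ F, NN (rep w)) • g) v)) ∈ CC (rep v)
      have h5 : T.T (-u) v = rep v := by
        conv_lhs => rw [hu]
        exact T.neg_apply u _
      rw [T.comm, h5, hc, mul_smul]
      exact hz2

theorem pinC [Finite A] [Finite ι] (hι : ∃ i j : ι, i ≠ j) [TopologicalSpace A]
    [DiscreteTopology A] {W : Wnu ι A} {d : ℕ} {T : Act d V} {S : Set (V → A)}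
    (hS : Sys W T S) :
    ∃ (N : ℕ) (hN : 0 < N) (S' : Set (V → A)), S' ⊆ S ∧ Sys W (T.pow N hN) S' ∧
      ∀ v, (∃ k C, W.Central k (val S v) C ∧ ¬ val S v ⊆ C) → ¬ val S v ⊆ val S' v := by
  classical
  obtain ⟨k, N, C, hN, hCT, hgood⟩ := pinC_choice hS
  have hval := pinC_val_eq hS
  let Hyp : V → Prop := fun v => ∃ k C, W.Central k (val S v) C ∧ ¬ val S v ⊆ C
  have hHyp : ∀ g v, Hyp v → Hyp (T.T g v) := by
    intro g v h
    simp only [Hyp]
    rw [hval]
    exact h
  let Pi : Finset V → Set V := fun J => {x | ∃ w ∈ J, ∃ g : G d, x = T.T (N • g) w}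
  have hPiT : ∀ J (g : G d), ∀ x ∈ Pi J, T.T (N • g) x ∈ Pi J := by
    rintro J g x ⟨w, hw, h, rfl⟩
    refine ⟨w, hw, g + h, ?_⟩
    rw [smul_add, T.add]
  let Q : Finset V → Prop := fun J => (∀ w ∈ J, Hyp w) ∧ ∃ z ∈ S, ∀ x ∈ Pi J, z x ∈ C x
  obtain ⟨F, hF⟩ := (T.pow N hN).fin
  have hQ0 : Q ∅ := by
    obtain ⟨z, hz⟩ := hS.ne
    refine ⟨fun w hw => absurd hw (Finset.notMem_empty w), z, hz, ?_⟩
    rintro x ⟨w, hw, -⟩
    exact absurd hw (Finset.notMem_empty w)
  obtain ⟨J, hJm, hJmax⟩ := Finset.exists_max_image (F.powerset.filter Q) Finset.card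
    ⟨∅, Finset.mem_filter.2 ⟨Finset.mem_powerset.2 (Finset.empty_subset F), hQ0⟩⟩
  obtain ⟨hJF, hJQ⟩ := Finset.mem_filter.1 hJm
  rw [Finset.mem_powerset] at hJF
  have hPiHyp : ∀ J, (∀ w ∈ J, Hyp w) → ∀ x ∈ Pi J, Hyp x := by
    rintro J hJ x ⟨w, hw, g, rfl⟩
    exact hHyp _ _ (hJ w hw)
  let S' : Set (V → A) := {z | z ∈ S ∧ ∀ x ∈ Pi J, z x ∈ C x}
  have hS'sub : S' ⊆ S := fun z hz => hz.1
  have hS' : Sys W (T.pow N hN) S' := by
    refine ⟨?_, ?_, ?_, ?_⟩
    · obtain ⟨z, hz, h⟩ := hJQ.2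
      exact ⟨z, hz, h⟩
    · have h1 : S' = S ∩ ⋂ x : Pi J, {z : V → A | z x.1 ∈ C x.1} := by
        ext z
        simp only [S', mem_ofPred_eq, mem_inter_iff, mem_iInter, Subtype.forall]
      rw [h1]
      exact hS.closed.inter (isClosed_iInter fun x =>
        isClosed_coord x.1 fun a => a ∈ C x.1)
    · intro x hx
      refine ⟨hS.sub x fun i => (hx i).1, fun v hv => ?_⟩
      have h1 := hgood v (hPiHyp J hJQ.1 v hv)
      exact Central.sub (sub_val hS.sub v) h1.1 (fun i => x i v) fun i => (hx i).2 v hv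
    · intro g z hz
      refine ⟨hS.inv (N • g) z hz.1, fun x hx => ?_⟩
      have h1 := hz.2 _ (hPiT J g x hx)
      rw [hCT] at h1
      exact h1
  refine ⟨N, hN, S', hS'sub, hS', ?_⟩
  intro v hv hsub
  obtain ⟨g, w, hwF, hvw⟩ := hF v
  have hvw' : v = T.T (N • g) w := hvw
  have hwv : w = T.T (-(N • g)) v := by
    rw [hvw', T.neg_apply]
  have hwH : Hyp w := by
    rw [hwv]
    exact hHyp _ _ hv
  have hval' := pinC_val_eq hS'
  -- the whole orbit of `w` is not pinned
  have hfull : ∀ h : G d, val S (T.T (N • h) w) ⊆ val S' (T.T (N • h) w) := by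
    intro h
    have e1 : val S' (T.T (N • h) w) = val S' w := hval' h w
    have e2 : val S' v = val S' w := by
      rw [hvw']
      exact hval' g w
    have e3 : val S v = val S w := by
      rw [hvw']
      exact hval _ w
    rw [e1, hval, ← e2, ← e3]
    exact hsub
  by_cases hwJ : w ∈ J
  · obtain ⟨-, h2, -⟩ := hgood v hv
    apply h2
    intro a ha
    obtain ⟨z, hz, rfl⟩ := hsub ha
    exact hz.2 v ⟨w, hwJ, g, hvw'⟩
  · -- enlarge `J`
    have hQ' : Q (insert w J) := by
      have hH : ∀ x ∈ insert w J, Hyp x := by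
        intro x hx
        rcases Finset.mem_insert.1 hx with rfl | hx
        · exact hwH
        · exact hJQ.1 x hx
      refine ⟨hH, ?_⟩
      have hPH := hPiHyp (insert w J) hH
      have hpair : ∀ x ∈ Pi (insert w J), ∀ y ∈ Pi (insert w J),
          ∃ z ∈ S, z x ∈ C x ∧ z y ∈ C y := by
        -- a place of the new orbit is compatible with everything in `S'`
        have hnew : ∀ h : G d, ∃ z ∈ S', z (T.T (N • h) w) ∈ C (T.T (N • h) w) := by
          intro h
          obtain ⟨h1, -, -⟩ := hgood (T.T (N • h) w) (hHyp _ _ hwH)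
          obtain ⟨c, hc⟩ := h1.2.1
          obtain ⟨z, hz, hzc⟩ := hfull h (h1.1 hc)
          have hzc' : z (T.T (N • h) w) = c := hzc
          exact ⟨z, hz, by rw [hzc']; exact hc⟩
        have hmix : ∀ x ∈ Pi J, ∀ h : G d, ∃ z ∈ S, z x ∈ C x ∧
            z (T.T (N • h) w) ∈ C (T.T (N • h) w) := by
          intro x hx h
          obtain ⟨z, hz, hz1⟩ := hnew h
          exact ⟨z, hz.1, hz.2 x hx, hz1⟩
        rintro x ⟨x', hx', gx, hx⟩ y ⟨y', hy', gy, hy⟩
        rcases Finset.mem_insert.1 hx' with hxw | hxJ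
        · rcases Finset.mem_insert.1 hy' with hyw | hyJ
          · subst hxw hyw
            obtain ⟨-, -, h3⟩ := hgood x (by rw [hx]; exact hHyp _ _ hwH)
            obtain ⟨z, hz, hz1, hz2⟩ := h3 (gy - gx)
            have hyx : T.T (N • (gy - gx)) x = y := by
              rw [hx, hy, ← T.add, ← smul_add, sub_add_cancel]
            rw [hyx] at hz2
            have hCC : C y = C x := by
              rw [← hyx]
              exact hCT _ _
            exact ⟨z, hz, hz1, by rw [hCC]; exact hz2⟩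
          · obtain ⟨z, hz, hz1, hz2⟩ := hmix y ⟨y', hyJ, gy, hy⟩ gx
            subst hxw
            rw [← hx] at hz2
            exact ⟨z, hz, hz2, hz1⟩
        · rcases Finset.mem_insert.1 hy' with hyw | hyJ
          · obtain ⟨z, hz, hz1, hz2⟩ := hmix x ⟨x', hxJ, gx, hx⟩ gy
            subst hyw
            rw [← hy] at hz2
            exact ⟨z, hz, hz1, hz2⟩
          · obtain ⟨z, hz, h⟩ := hJQ.2
            exact ⟨z, hz, h x ⟨x', hxJ, gx, hx⟩, h y ⟨y', hyJ, gy, hy⟩⟩
      obtain ⟨z, hz, h1⟩ := exists_of_finite hS.closed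
        (fun x : Pi (insert w J) => {z : V → A | z x.1 ∈ C x.1})
        (fun x => isClosed_coord x.1 fun a => a ∈ C x.1) (by
          intro F'
          obtain ⟨z, hz, h1⟩ := helly hι W (k := k) S hS.sub hS.ne (F'.image Subtype.val)
            (fun x => val S x) C (fun x _ => sub_val hS.sub x)
            (fun z hz x _ => mem_val hz x)
            (by
              intro x hx
              obtain ⟨x, -, rfl⟩ := Finset.mem_image.1 hx
              exact (hgood x.1 (hPH x.1 x.2)).1)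
            (by
              intro x hx y hy
              obtain ⟨x, -, rfl⟩ := Finset.mem_image.1 hx
              obtain ⟨y, -, rfl⟩ := Finset.mem_image.1 hy
              exact hpair x.1 x.2 y.1 y.2)
          exact ⟨z, hz, fun x hx => h1 x.1 (Finset.mem_image_of_mem _ hx)⟩)
      exact ⟨z, hz, fun x hx => h1 ⟨x, hx⟩⟩
    have h1 := hJmax (insert w J) (Finset.mem_filter.2
      ⟨Finset.mem_powerset.2 (Finset.insert_subset hwF hJF), hQ'⟩)
    rw [Finset.card_insert_of_notMem hwJ] at h1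
    omega

end Pool.Agent.H62.TP
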