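import Pool.Agent.H62.TP.Term

/-!
A finite power of an algebra without proper binary absorbing subuniverses has none.
-/

set_option autoImplicit false

open Set

namespace Pool.Agent.H62.TP

open Pool.Agent.H62.MC (G Act val Det)

variable {ι : Type} [DecidableEq ι] {A D P Q V : Type}

private theorem powB_update {W : Wnu ι D} (h : W.BAFree univ) {V : Type} [DecidableEq V]
    {t : Tm ι} {C : Set (V → D)} (hC : (W.pi V).BinAbs t univ C) {c : V → D} (hc : c ∈ C)
    (v : V) (b : D) : Function.update c v b ∈ C := by
  obtain ⟨_, _, hsub, habs⟩ := hC
  have hE : W.BinAbs t univ {b | Function.update c v b ∈ C} := by
    have key : ∀ e b : D, Function.update c v (W.eval t e b) =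
        (W.pi V).eval t (Function.update c v e) (Function.update c v b) := by
      intro e b
      funext w
      rw [eval_pi]
      by_cases hw : w = v
      · subst hw
        simp
      · simp [Function.update_of_ne hw, eval_idem]
    refine ⟨subset_univ _, ⟨c v, ?_⟩, ?_, ?_⟩
    · show Function.update c v (c v) ∈ C
      rw [Function.update_eq_self]
      exact hc
    · intro x hx
      show Function.update c v (W.op x) ∈ C
      have hx' := hsub (fun i => Function.update c v (x i)) hx
      have e : Function.update c v (W.op x) = (W.pi V).op fun i => Function.update c v (x i) := by
        funext w
        show Function.update c v (W.op x) w = W.op fun i => Function.update c v (x i) w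
        by_cases hw : w = v
        · subst hw
          simp
        · simp [Function.update_of_ne hw, W.idem]
      rw [e]
      exact hx'
    · intro e he b _
      have he' := habs _ he (Function.update c v b) (mem_univ _)
      refine ⟨?_, ?_⟩
      · show Function.update c v (W.eval t e b) ∈ C
        rw [key]
        exact he'.1
      · show Function.update c v (W.eval t b e) ∈ C
        rw [key]
        exact he'.2
  exact h t _ hE (mem_univ b)

/-- a finite power of an algebra without proper binary absorbing subuniverses has none -/
theorem BAFree.pi {W : Wnu ι D} (h : W.BAFree univ) (V : Type) [Finite V] :
    (W.pi V).BAFree univ := by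
  classical
  intro t C hC x _
  obtain ⟨c, hc⟩ := hC.2.1
  have : Fintype V := Fintype.ofFinite V
  have key : ∀ s : Finset V, (fun v => if v ∈ s then x v else c v) ∈ C := by
    intro s
    induction s using Finset.induction_on with
    | empty => simpa using hc
    | insert a s _ ih =>
      have e : (fun v => if v ∈ insert a s then x v else c v) =
          Function.update (fun v => if v ∈ s then x v else c v) a (x a) := by
        funext w
        by_cases hw : w = a
        · subst hw
          simp
        · simp [Finset.mem_insert, hw]
      rw [e]
      exact powB_update h hC ih a (x a)
  have := key Finset.univ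
  simpa using this

end Pool.Agent.H62.TP
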