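import Pool.Agent.H62.TP.Defs

/-!
Project TP (MP_cb0c3a_an), row TP-1: terms and iterated operations.
-/

set_option autoImplicit false

open Set

namespace Pool.Agent.H62.TP

open Pool.Agent.H62.MC (G Act val Det)

variable {ι : Type} [DecidableEq ι] {A D P Q V : Type}

theorem eval_mem (W : Wnu ι D) {C : Set D} (hC : W.Sub C) (t : Tm ι) {x y : D} (hx : x ∈ C)
    (hy : y ∈ C) : W.eval t x y ∈ C := by
  induction t with
  | fst => exact hx
  | snd => exact hy
  | app f ih => exact hC _ ih

theorem eval_idem (W : Wnu ι D) (t : Tm ι) (x : D) : W.eval t x x = x := by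
  induction t with
  | fst => rfl
  | snd => rfl
  | app f ih =>
    show W.op (fun i => W.eval (f i) x x) = x
    rw [funext ih]
    exact W.idem x

theorem eval_pi (W : Wnu ι A) (t : Tm ι) (x y : V → A) (v : V) :
    (W.pi V).eval t x y v = W.eval t (x v) (y v) := by
  induction t with
  | fst => rfl
  | snd => rfl
  | app f ih =>
    show W.op (fun i => (W.pi V).eval (f i) x y v) = W.op (fun i => W.eval (f i) (x v) (y v))
    rw [funext ih]

theorem eval_rel {W : Wnu ι P} {W' : Wnu ι D} {B : Set P} {R : P → D → Prop}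
    (hB : W.Sub B) (hR : RelOn W W' B R) (t : Tm ι) {x y : P} {a b : D} (hx : x ∈ B) (hy : y ∈ B)
    (h1 : R x a) (h2 : R y b) : R (W.eval t x y) (W'.eval t a b) := by
  induction t with
  | fst => exact h1
  | snd => exact h2
  | app f ih => exact hR _ _ (fun i => eval_mem W hB (f i) hx hy) ih

theorem tk_mem (W : Wnu ι D) {C : Set D} (hC : W.Sub C) (k : ℕ) (x : (Fin k → ι) → D)
    (hx : ∀ u, x u ∈ C) : W.tk k x ∈ C := by
  induction k with
  | zero => exact hx _
  | succ k ih => exact hC _ fun i => ih _ fun u => hx _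

theorem tk_pi (W : Wnu ι A) (k : ℕ) (x : (Fin k → ι) → V → A) (v : V) :
    (W.pi V).tk k x v = W.tk k fun u => x u v := by
  induction k with
  | zero => rfl
  | succ k ih =>
    show W.op (fun i => (W.pi V).tk k (fun u => x (Fin.cons i u)) v) =
      W.op (fun i => W.tk k fun u => x (Fin.cons i u) v)
    rw [funext fun i => ih (fun u => x (Fin.cons i u))]

theorem tk_rel {W : Wnu ι P} {W' : Wnu ι D} {B : Set P} {R : P → D → Prop}
    (hB : W.Sub B) (hR : RelOn W W' B R) (k : ℕ) (x : (Fin k → ι) → P) (y : (Fin k → ι) → D)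
    (hx : ∀ u, x u ∈ B) (h : ∀ u, R (x u) (y u)) : R (W.tk k x) (W'.tk k y) := by
  induction k with
  | zero => exact h _
  | succ k ih =>
    exact hR _ _ (fun i => tk_mem W hB k _ fun u => hx _) fun i =>
      ih _ _ (fun u => hx _) fun u => h _

theorem Central.mono {W : Wnu ι P} {k k' : ℕ} (hk : k ≤ k') {B C : Set P}
    (h : W.Central k B C) : W.Central k' B C := by
  obtain ⟨h1, h2, D, hD, W', R, h3, h4⟩ := h
  exact ⟨h1, h2, D, hD, W', R, h3.trans hk, h4⟩

theorem Central.sub {W : Wnu ι P} {k : ℕ} {B C : Set P} (hB : W.Sub B)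
    (h : W.Central k B C) : W.Sub C := by
  obtain ⟨h1, -, D, -, W', R, -, -, hR, -, hC⟩ := h
  intro x hx
  have hxB : ∀ i, x i ∈ B := fun i => h1 (hx i)
  rw [hC _ (hB x hxB)]
  intro d
  have h2 := hR x (fun _ => d) hxB fun i => (hC _ (hxB i)).1 (hx i) d
  rwa [W'.idem] at h2

theorem sub_val {W : Wnu ι A} {S : Set (V → A)} (hS : (W.pi V).Sub S) (v : V) :
    W.Sub (val S v) := by
  intro x hx
  choose z hz hzv using hx
  refine ⟨(W.pi V).op z, hS z hz, ?_⟩
  show W.op (fun i => z i v) = W.op x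
  rw [funext hzv]

end Pool.Agent.H62.TP
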