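import Pool.Agent.H62.TP.Main

/-!
Subshifts closed under a weak near unanimity operation contain periodic points
(MP_cb0c3a_an, helper62).
-/

set_option autoImplicit false

open Set

namespace Pool.Agent.H62.TP

open Pool.Agent.H62.MC (G Act val Det mem_val)

/-- the star square of a weak near unanimity operation -/
def Wnu.sq {ι A : Type} [DecidableEq ι] (W : Wnu ι A) : Wnu (ι × ι) A where
  op x := W.op fun i => W.op fun j => x (i, j)
  idem x := by
    rw [W.idem, W.idem]
  wnu := by
    have h : ∀ (p : ι × ι) (x y : A), (W.op fun i => W.op fun j =>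
        (Function.update (fun _ => x) p y : ι × ι → A) (i, j)) =
        W.op (Function.update (fun _ => x) p.1 (W.op (Function.update (fun _ => x) p.2 y))) := by
      rintro ⟨a, b⟩ x y
      congr 1
      funext i
      by_cases hi : i = a
      · subst hi
        rw [Function.update_self]
        congr 1
        funext j
        by_cases hj : j = b
        · subst hj
          rw [Function.update_self, Function.update_self]
        · rw [Function.update_of_ne hj, Function.update_of_ne fun h => hj (by
            simpa using h)]
      · rw [Function.update_of_ne hi]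
        have : (fun j => (Function.update (fun _ => x) (a, b) y : ι × ι → A) (i, j)) =
            fun _ => x := by
          funext j
          rw [Function.update_of_ne fun h => hi (by
            have := congrArg Prod.fst h
            simpa using this)]
        rw [this, W.idem]
    intro p q x y
    show (W.op fun i => W.op fun j =>
        (Function.update (fun _ => x) p y : ι × ι → A) (i, j)) = W.op fun i => W.op fun j =>
        (Function.update (fun _ => x) q y : ι × ι → A) (i, j)
    rw [h, h, W.wnu p.2 q.2 x y, W.wnu p.1 q.1 x]

theorem exists_idem_iterate {A : Type} [Finite A] (u : A → A) :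
    ∃ k : ℕ, 0 < k ∧ u^[k + k] = u^[k] := by
  obtain ⟨a, b, hab, h⟩ := Finite.exists_ne_map_eq_of_infinite fun k : ℕ => u^[k]
  wlog hlt : a < b generalizing a b
  · exact this b a (Ne.symm hab) h.symm (by omega)
  obtain ⟨p, rfl⟩ : ∃ p, b = a + p := ⟨b - a, by omega⟩
  have hp : 0 < p := by omega
  replace h : u^[a] = u^[a + p] := h
  have h1 : ∀ m, u^[a + m + p] = u^[a + m] := by
    intro m
    rw [show a + m + p = m + (a + p) by ring, Function.iterate_add, ← h,
      ← Function.iterate_add, add_comm m a]
  have h2 : ∀ j m, u^[a + m + j * p] = u^[a + m] := by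
    intro j
    induction j with
    | zero => intro m; simp
    | succ j ih =>
      intro m
      rw [show a + m + (j + 1) * p = a + (m + j * p) + p by ring, h1,
        show a + (m + j * p) = a + m + j * p by ring, ih]
  refine ⟨(a + 1) * p, Nat.mul_pos (Nat.succ_pos a) hp, ?_⟩
  obtain ⟨m, hm⟩ : ∃ m, (a + 1) * p = a + m := by
    refine ⟨(a + 1) * p - a, ?_⟩
    have : a ≤ (a + 1) * p := by nlinarith
    omega
  have := h2 (a + 1) m
  rw [← hm] at this
  exact this

/-- Every nonempty closed shift-invariant set of configurations on `ℤ^d` over a finite alphabet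
which is closed under a weak near unanimity operation contains a periodic point. -/
theorem exists_periodic_wnu {A : Type} [Finite A] [TopologicalSpace A] [DiscreteTopology A]
    {n : ℕ} (hn : 2 ≤ n) (w : (Fin n → A) → A)
    (hw : ∀ (i j : Fin n) (x y : A), w (Function.update (fun _ => x) i y) =
      w (Function.update (fun _ => x) j y)) {d : ℕ} (X : Set (G d → A)) (hne : X.Nonempty)
    (hcl : IsClosed X) (hinv : ∀ g : G d, ∀ x ∈ X, (fun u => x (u + g)) ∈ X)
    (hX : ∀ x : Fin n → G d → A, (∀ i, x i ∈ X) → (fun u => w fun i => x i u) ∈ X) :
    ∃ N : ℕ, 0 < N ∧ ∃ x ∈ X, ∀ u v : G d, x (u + N • v) = x u := by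
  let f : A → A := fun x => w fun _ => x
  obtain ⟨k, hk, hk2⟩ := exists_idem_iterate f
  have hf : ∀ m, ∀ x ∈ X, (fun u => f^[m] (x u)) ∈ X := by
    intro m
    induction m with
    | zero => intro x hx; exact hx
    | succ m ih =>
      intro x hx
      have := hX (fun _ => fun u => f^[m] (x u)) fun _ => ih x hx
      have h2 : (fun u => f^[m + 1] (x u)) = fun u => w fun _ => f^[m] (x u) := by
        funext u
        rw [Function.iterate_succ_apply']
      rw [h2]
      exact this
  have hkk : ∀ x, f^[k] (f^[k] x) = f^[k] x := by
    intro x
    rw [← Function.iterate_add_apply, hk2]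
  let A' : Type := {x : A // f^[k] x = x}
  have hmem : ∀ x, f^[k] (f^[k + (k - 1)] x) = f^[k + (k - 1)] x := by
    intro x
    rw [Function.iterate_add_apply f k (k - 1), hkk]
  let W : Wnu (Fin n) A' :=
    { op := fun x => ⟨f^[k + (k - 1)] (w fun i => (x i).1), hmem _⟩
      idem := by
        intro x
        apply Subtype.ext
        show f^[k + (k - 1)] (f x.1) = x.1
        rw [← Function.iterate_succ_apply, show (k + (k - 1)).succ = k + k by omega, hk2]
        exact x.2
      wnu := by
        have h : ∀ (i : Fin n) (x y : A'),
            (fun l => ((Function.update (fun _ => x) i y : Fin n → A') l).1) =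
              Function.update (fun _ => x.1) i y.1 := by
          intro i x y
          funext l
          by_cases hl : l = i
          · subst hl
            rw [Function.update_self, Function.update_self]
          · rw [Function.update_of_ne hl, Function.update_of_ne hl]
        intro i j x y
        apply Subtype.ext
        show f^[k + (k - 1)] (w fun l => ((Function.update (fun _ => x) i y : Fin n → A') l).1) =
          f^[k + (k - 1)] (w fun l => ((Function.update (fun _ => x) j y : Fin n → A') l).1)
        rw [h, h, hw i j] }
  have hval : ∀ x : Fin n → A', (W.op x).1 = f^[k + (k - 1)] (w fun i => (x i).1) :=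
    fun _ => rfl
  let X' : Set (G d → A') := {z | (fun u => (z u).1) ∈ X}
  have hcl' : IsClosed X' := by
    refine hcl.preimage ?_
    exact continuous_pi fun u => continuous_subtype_val.comp (continuous_apply u)
  have hne' : X'.Nonempty := by
    obtain ⟨x, hx⟩ := hne
    exact ⟨fun u => ⟨f^[k] (x u), hkk _⟩, hf k x hx⟩
  have hWX : ∀ z : Fin n → G d → A', (∀ i, z i ∈ X') → (fun u => W.op fun i => z i u) ∈ X' := by
    intro z hz
    exact hf (k + (k - 1)) _ (hX (fun i u => (z i u).1) hz)
  have : Finite A' := Subtype.finite
  have h3 : 3 ≤ Fintype.card (Fin n × Fin n) := by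
    rw [Fintype.card_prod, Fintype.card_fin]
    nlinarith
  obtain ⟨N, hN, z, hz, h⟩ := exists_periodic h3 W.sq X' hne' hcl'
    (fun g z hz => hinv g _ hz) (by
      intro z hz
      exact hWX (fun i u => W.op fun j => z (i, j) u) fun i => hWX (fun j => z (i, j))
        fun j => hz (i, j))
  exact ⟨N, hN, _, hz, fun u v => congrArg Subtype.val (h u v)⟩

end Pool.Agent.H62.TP
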