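import Pool.Agent.H62.TP.Term

/-!
Project TP, row TP-4: the iterated operation is transitive on an algebra without proper binary
absorbing subuniverses, and absorbs centres.
-/

set_option autoImplicit false

open Set

namespace Pool.Agent.H62.TP

variable {ι : Type} [DecidableEq ι] {A D P Q V : Type}

private theorem trans_const (W : Wnu ι D) (k : ℕ) (d : D) : W.tk k (fun _ => d) = d := by
  induction k with
  | zero => rfl
  | succ k ih =>
    show W.op (fun _ => W.tk k fun _ => d) = d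
    rw [ih]
    exact W.idem d

private def transSet (W : Wnu ι D) (k : ℕ) (u : Fin k → ι) (d₀ : D) : Set D :=
  {d | ∃ y : (Fin k → ι) → D, y u = d₀ ∧ W.tk k y = d}

private theorem trans_base (W : Wnu ι D) (k : ℕ) (u : Fin k → ι) (d₀ : D) :
    d₀ ∈ transSet W k u d₀ :=
  ⟨fun _ => d₀, rfl, trans_const W k d₀⟩

private theorem trans_step (W : Wnu ι D) (k : ℕ) (i : ι) (u : Fin k → ι) (d₀ : D) (b : ι → D)
    (hb : b i ∈ transSet W k u d₀) : W.op b ∈ transSet W (k + 1) (Fin.cons i u) d₀ := by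
  obtain ⟨y, hy, hyb⟩ := hb
  refine ⟨fun v => if v 0 = i then y (Fin.tail v) else b (v 0), ?_, ?_⟩
  · simp [hy]
  · show W.op (fun j => W.tk k fun v => _) = W.op b
    congr 1
    funext j
    by_cases hj : j = i
    · subst hj
      simp only [Fin.cons_zero, if_true, Fin.tail_cons]
      exact hyb
    · simp only [Fin.cons_zero, hj, if_false]
      exact trans_const W k (b j)

private theorem trans_mono (W : Wnu ι D) (k : ℕ) (i : ι) (u : Fin k → ι) (d₀ : D) :
    transSet W k u d₀ ⊆ transSet W (k + 1) (Fin.cons i u) d₀ := by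
  intro d hd
  have h := trans_step W k i u d₀ (fun _ => d) hd
  rwa [W.idem] at h

private theorem trans_univ (hι : ∃ i j : ι, i ≠ j) {W : Wnu ι D} (h : W.BAFree univ) (i : ι)
    {X : Set D} (hne : X.Nonempty) (hX : ∀ b : ι → D, b i ∈ X → W.op b ∈ X) : X = univ := by
  obtain ⟨j, hj⟩ : ∃ j, j ≠ i := by
    obtain ⟨a, b, hab⟩ := hι
    by_cases ha : a = i
    · exact ⟨b, fun hb => hab (ha.trans hb.symm)⟩
    · exact ⟨a, ha⟩
  have hev : ∀ x y : D, W.eval (Tm.app fun l => if l = i then Tm.fst else Tm.snd) x y =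
      W.op (Function.update (fun _ => y) i x) := by
    intro x y
    show W.op (fun l => W.eval (if l = i then Tm.fst else Tm.snd) x y) = _
    congr 1
    funext l
    by_cases hl : l = i
    · subst hl
      simp [Wnu.eval]
    · simp [Wnu.eval, hl]
  refine eq_univ_of_univ_subset (h (Tm.app fun l => if l = i then Tm.fst else Tm.snd) X
    ⟨subset_univ _, hne, fun x hx => hX x (hx i), fun c hc b _ => ⟨?_, ?_⟩⟩)
  · rw [hev]
    exact hX _ (by simpa using hc)
  · rw [hev, W.wnu i j]
    exact hX _ (by simpa [Function.update_of_ne hj.symm] using hc)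

private theorem trans_card [Finite D] (hι : ∃ i j : ι, i ≠ j) {W : Wnu ι D}
    (h : W.BAFree univ) (d₀ : D) (k : ℕ) (u : Fin k → ι) :
    min (Nat.card D) (k + 1) ≤ (transSet W k u d₀).ncard := by
  induction k with
  | zero =>
    have h1 : 0 < (transSet W 0 u d₀).ncard :=
      (ncard_pos (toFinite _)).2 ⟨d₀, trans_base W 0 u d₀⟩
    omega
  | succ k ih =>
    obtain ⟨i, v, rfl⟩ : ∃ i v, u = Fin.cons i v := ⟨u 0, Fin.tail u, (Fin.cons_self_tail u).symm⟩
    have h1 := ih v
    have h2 := trans_mono W k i v d₀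
    by_cases he : transSet W k v d₀ = transSet W (k + 1) (Fin.cons i v) d₀
    · have h3 : transSet W k v d₀ = univ := by
        refine trans_univ hι h i ⟨d₀, trans_base W k v d₀⟩ fun b hb => ?_
        rw [he]
        exact trans_step W k i v d₀ b hb
      rw [← he, h3, ncard_univ]
      exact min_le_left _ _
    · have h3 : (transSet W k v d₀).ncard < (transSet W (k + 1) (Fin.cons i v) d₀).ncard :=
        ncard_lt_ncard (h2.ssubset_of_ne he) (toFinite _)
      omega

theorem exists_tk [Finite D] (hι : ∃ i j : ι, i ≠ j) {W : Wnu ι D} (h : W.BAFree univ) {k : ℕ}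
    (hk : Nat.card D ≤ k) (u₀ : Fin k → ι) (d₀ d : D) :
    ∃ y : (Fin k → ι) → D, y u₀ = d₀ ∧ W.tk k y = d := by
  have h1 := trans_card hι h d₀ k u₀
  have h2 : transSet W k u₀ d₀ = univ := by
    refine eq_of_subset_of_ncard_le (subset_univ _) ?_ (toFinite _)
    rw [ncard_univ]
    omega
  have h3 : d ∈ transSet W k u₀ d₀ := by
    rw [h2]
    exact mem_univ d
  exact h3

theorem absorb (hι : ∃ i j : ι, i ≠ j) {W : Wnu ι P} {k : ℕ} {B C : Set P} (hB : W.Sub B)
    (h : W.Central k B C) (x : (Fin k → ι) → P) (hx : ∀ u, x u ∈ B) (u₀ : Fin k → ι)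
    (h0 : ∀ u, u ≠ u₀ → x u ∈ C) : W.tk k x ∈ C := by
  obtain ⟨hCB, hCne, D, hD, W', R, hcard, hfree, hR, htot, hcen⟩ := h
  refine (hcen _ (tk_mem W hB k x hx)).2 fun d => ?_
  obtain ⟨d₀, hd₀⟩ := htot _ (hx u₀)
  obtain ⟨y, hy, hyd⟩ := exists_tk hι hfree hcard u₀ d₀ d
  rw [← hyd]
  refine tk_rel hB hR k x y hx fun u => ?_
  by_cases hu : u = u₀
  · rw [hu, hy]
    exact hd₀
  · exact (hcen _ (hx u)).1 (h0 u hu) _

end Pool.Agent.H62.TP
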